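import Mathlib

/-!
# PROJECT ma  (MP_0012ff_an, full negative answer).  Spec 1: local theory on `ℂ × ℂ`.

Paper proof: /team-store/MA_NOTES.md.  Only CONTINUOUS psh functions are used here.
Each module `XX` proves `XX_stmt` (file `Pool/Agent/<you>/MA/XX.lean`, theorem name `MAP.XX`), and may take any statement
of a module listed under (uses ...) as a hypothesis, e.g. `theorem B3 (h1 : B1_stmt) (h2 : B2_stmt) : B3_stmt`.
-/

set_option autoImplicit false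

open MeasureTheory Set Filter Topology Complex
open scoped ContDiff Real

namespace MAP

noncomputable section

abbrev C2 : Type := ℂ × ℂ

/-- squared Euclidean norm -/
def nsq (x : C2) : ℝ := ‖x.1‖ ^ 2 + ‖x.2‖ ^ 2
/-- open / closed Euclidean ball, sphere -/
def bal (c : C2) (r : ℝ) : Set C2 := {x | nsq (x - c) < r ^ 2}
def cbal (c : C2) (r : ℝ) : Set C2 := {x | nsq (x - c) ≤ r ^ 2}
def sph (c : C2) (r : ℝ) : Set C2 := {x | nsq (x - c) = r ^ 2}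

/-- mean over the circle `θ ↦ x + e^{iθ} ξ` -/
def mean (u : C2 → ℝ) (x ξ : C2) : ℝ :=
  (2 * π)⁻¹ * ∫ θ in (0 : ℝ)..(2 * π), u (x + cexp (θ * I) • ξ)

/-- closed complex disc with centre `x` and radius vector `ξ` -/
def disc (x ξ : C2) : Set C2 := {y | ∃ ζ : ℂ, ‖ζ‖ ≤ 1 ∧ y = x + ζ • ξ}

/-- continuous plurisubharmonic functions on `U` -/
def PshOn (U : Set C2) (u : C2 → ℝ) : Prop :=
  ContinuousOn u U ∧ ∀ x ξ : C2, disc x ξ ⊆ U → u x ≤ mean u x ξ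

/-- real second derivative -/
def D2 (u : C2 → ℝ) (x ξ η : C2) : ℝ := fderiv ℝ (fderiv ℝ u) x ξ η
/-- Laplacian along the complex line of direction `ξ` (4 times the Levi form) -/
def lap (u : C2 → ℝ) (x ξ : C2) : ℝ := D2 u x ξ ξ + D2 u x (I • ξ) (I • ξ)
def e1 : C2 := (1, 0)
def e2 : C2 := (0, 1)
/-- entries of 4 times the Levi form: `hA = 4 u_{1 1bar}`, `hC = 4 u_{2 2bar}`, `hB + i hB' = 4 u_{1 2bar}` (up to conj) -/
def hA (u : C2 → ℝ) (x : C2) : ℝ := lap u x e1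
def hC (u : C2 → ℝ) (x : C2) : ℝ := lap u x e2
def hB (u : C2 → ℝ) (x : C2) : ℝ := D2 u x e1 e2 + D2 u x (I • e1) (I • e2)
def hB' (u : C2 → ℝ) (x : C2) : ℝ := D2 u x e1 (I • e2) - D2 u x (I • e1) e2
/-- Lebesgue density of `dd^c u ∧ dd^c v`, `dd^c = (i/π)∂∂bar`: `(dd^c u)^2 = (8/π²) det(u_{j kbar})`. -/
def dens (u v : C2 → ℝ) (x : C2) : ℝ :=
  (hA u x * hC v x + hC u x * hA v x - 2 * (hB u x * hB v x) - 2 * (hB' u x * hB' v x)) / (4 * π ^ 2)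

/-! ## A. continuous psh functions -/

/-- A1. closure properties.  [max: u ≤ mean u ≤ mean max; the circle lies in the disc, `u` is continuous there.] -/
def A1_stmt : Prop :=
  ∀ (U : Set C2), IsOpen U → ∀ u v : C2 → ℝ, PshOn U u → PshOn U v →
    PshOn U (fun x => max (u x) (v x)) ∧ PshOn U (fun x => u x + v x) ∧
    (∀ c : ℝ, 0 ≤ c → PshOn U (fun x => c * u x)) ∧ (∀ c : ℝ, PshOn U (fun x => u x + c)) ∧
    (∀ V, V ⊆ U → PshOn V u) ∧ (∀ w : C2 → ℝ, (∀ x ∈ U, w x = u x) → PshOn U w) ∧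
    (∀ h : C2, PshOn {x | x + h ∈ U} (fun x => u (x + h)))

/-- A2. suprema that are continuous; locally uniform limits. -/
def A2_stmt : Prop :=
  (∀ (U : Set C2) (ι : Type) (v : ι → C2 → ℝ) (u : C2 → ℝ), Nonempty ι → IsOpen U → (∀ i, PshOn U (v i)) →
    ContinuousOn u U → (∀ x ∈ U, IsLUB (range fun i => v i x) (u x)) → PshOn U u) ∧
  (∀ (U : Set C2) (w : ℕ → C2 → ℝ) (u : C2 → ℝ), IsOpen U → (∀ n, PshOn U (w n)) →
    (∀ K, K ⊆ U → IsCompact K → TendstoUniformlyOn w u atTop K) → PshOn U u)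

/-- A3. second order expansion of circle means; smooth psh functions.
[(2): `m(t) = mean u x (tξ)` satisfies `(t m')' = t * mean (lap u · ξ) ≥ 0` (polar coordinates), `m` continuous at 0.] -/
def A3_stmt : Prop :=
  (∀ (U : Set C2) (s : C2 → ℝ), IsOpen U → ContDiffOn ℝ 2 s U → ∀ x ∈ U, ∀ ξ : C2,
    Tendsto (fun t : ℝ => (mean s x (t • ξ) - s x) / t ^ 2) (𝓝[≠] 0) (𝓝 (lap s x ξ / 4))) ∧
  (∀ (U : Set C2) (u : C2 → ℝ), IsOpen U → ContDiffOn ℝ 2 u U →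
    (PshOn U u ↔ ∀ x ∈ U, ∀ ξ : C2, 0 ≤ lap u x ξ))

/-- A4. the local sub-mean-value property is enough.
[On a disc in `U`, for `ε > 0` take a real-harmonic polynomial `P = Re p(ζ)` with `g ≤ P ≤ g + ε` on the unit circle,
`g ζ = u (x + ζ ξ)` (density of trigonometric polynomials, Stone-Weierstrass); `g - P` has the local sub-mean property,
so it has no interior maximum unless constant up to the circle: `g ≤ P` inside, so `g 0 ≤ P 0 = mean P ≤ mean g + ε`.] -/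
def A4_stmt : Prop :=
  ∀ (U : Set C2) (u : C2 → ℝ), IsOpen U → ContinuousOn u U →
    (∀ x ∈ U, ∃ r > 0, ∀ ξ : C2, ‖ξ‖ < r → u x ≤ mean u x ξ) → PshOn U u

/-- A5. smoothing (convolution with a smooth bump; Fubini for the sub-mean inequality). -/
def A5_stmt : Prop :=
  ∀ (U K : Set C2) (u : C2 → ℝ) (ε : ℝ), IsOpen U → PshOn U u → IsCompact K → K ⊆ U → 0 < ε →
    ∃ (w : C2 → ℝ) (V : Set C2), ContDiff ℝ ∞ w ∧ IsOpen V ∧ K ⊆ V ∧ V ⊆ U ∧ PshOn V w ∧ ∀ x ∈ V, |w x - u x| ≤ ε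

/-- A6. holomorphic change of variables.  (1) chain rule; (2) psh functions (uses A2, A3, A4, A5). -/
def A6_stmt : Prop :=
  (∀ (U V : Set C2) (F : C2 → C2) (u : C2 → ℝ), IsOpen U → IsOpen V → ContDiffOn ℂ 2 F V → MapsTo F V U →
    ContDiffOn ℝ 2 u U → ∀ x ∈ V, ∀ ξ : C2, lap (fun y => u (F y)) x ξ = lap u (F x) (fderiv ℂ F x ξ)) ∧
  (∀ (U V : Set C2) (F : C2 → C2) (u : C2 → ℝ), IsOpen U → IsOpen V → ContDiffOn ℂ 2 F V → MapsTo F V U →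
    PshOn U u → PshOn V (fun y => u (F y)))

/-- A7. gluing (uses A4). -/
def A7_stmt : Prop :=
  ∀ (U U' : Set C2) (u w : C2 → ℝ), IsOpen U → IsOpen U' → U' ⊆ U → PshOn U u → ContinuousOn w U →
    PshOn U' w → (∀ x ∈ U, u x ≤ w x) → (∀ x ∈ U, x ∉ U' → w x = u x) → PshOn U w

/-- A8. maximum principle against a smooth barrier (uses A3 (1)). -/
def A8_stmt : Prop :=
  ∀ (c : C2) (r : ℝ) (u s : C2 → ℝ), 0 < r → PshOn (bal c r) u → ContinuousOn u (cbal c r) →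
    ContinuousOn s (cbal c r) → ContDiffOn ℝ 2 s (bal c r) → (∀ x ∈ bal c r, ∃ ξ, lap s x ξ < 0) →
    (∀ x ∈ sph c r, u x ≤ s x) → ∀ x ∈ cbal c r, u x ≤ s x

/-! ## B. the homogeneous Dirichlet problem on a ball (Bedford-Taylor) -/

/-- competitors with boundary values `≤ g` -/
def Fam (g : C2 → ℝ) (c : C2) (r : ℝ) : Set (C2 → ℝ) :=
  {v | ContinuousOn v (cbal c r) ∧ PshOn (bal c r) v ∧ ∀ x ∈ sph c r, v x ≤ g x}

/-- `u` is the Perron-Bremermann solution with boundary values `g` -/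
def IsPerron (g : C2 → ℝ) (c : C2) (r : ℝ) (u : C2 → ℝ) : Prop :=
  ContinuousOn u (cbal c r) ∧ PshOn (bal c r) u ∧ (∀ x ∈ sph c r, u x = g x) ∧
    ∀ v ∈ Fam g c r, ∀ x ∈ cbal c r, v x ≤ u x

/-- B1. smooth boundary data on the unit ball: the sup of the family is a Lipschitz solution.
[Lower barrier `g - C(1-nsq)` is psh, upper barrier `g + C(1-nsq)` via A8.  For `v` in the family with `v ≥` lower barrier and
small `h`, `v' x = max (v x) (v (x+h) - C'‖h‖)` where `x, x+h` both lie in the ball, `v` elsewhere, is again in the family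
(near the boundary of `bal ∩ (bal - h)` the second term is smaller).  So `sup (x+h) - C'‖h‖ ≤ sup x`.]  (uses A1-A4, A7, A8) -/
def B1_stmt : Prop :=
  ∀ g : C2 → ℝ, ContDiff ℝ ∞ g → ∃ (u : C2 → ℝ) (C : ℝ), 0 ≤ C ∧ IsPerron g 0 1 u ∧
    (∀ x ∈ cbal 0 1, ∀ y ∈ cbal 0 1, |u x - u y| ≤ C * ‖x - y‖) ∧ ∀ x ∈ cbal 0 1, |u x - g x| ≤ C * (1 - nsq x)

/-- Hermitian product -/
def hp (z a : C2) : ℂ := z.1 * (starRingEnd ℂ) a.1 + z.2 * (starRingEnd ℂ) a.2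
/-- quadratic maps that replace the automorphisms of the ball -/
def Fa (a z : C2) : C2 := ((1 - 2 * nsq a : ℝ) : ℂ) • (z - a + hp z a • z)

/-- B2. [`|z - a + s z|² = |z|²|1+s|² - 2Re(s+s²) + |a|²`, `s = hp z a`; `(1-2t)²(1+4t) ≤ 1`;
for `nsq z ≤ ρ²` the map `a ↦ -a + hp z a • z` is real-linear with norm bounded below by `1 - ρ²`, so onto.] -/
def B2_stmt : Prop :=
  (∀ a, ContDiff ℂ ∞ (Fa a)) ∧
  (∀ a z : C2, nsq a ≤ 1 / 4 → nsq z ≤ 1 → nsq (Fa a z) ≤ 1) ∧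
  (∀ a z : C2, nsq a ≤ 1 / 4 → nsq z < 1 → nsq (Fa a z) < 1) ∧
  (∃ C : ℝ, 0 ≤ C ∧ ∀ a z : C2, nsq a ≤ 1 / 4 → nsq z ≤ 1 → ‖Fa a z + Fa (-a) z - (2 : ℂ) • z‖ ≤ C * nsq a ∧
    (nsq z = 1 → 1 - nsq (Fa a z) ≤ C * nsq a)) ∧
  (∀ ρ : ℝ, 0 < ρ → ρ < 1 → ∃ C : ℝ, 0 ≤ C ∧ ∀ z h : C2, nsq z ≤ ρ ^ 2 → nsq h ≤ 1 →
    ∃ a : C2, nsq a ≤ C * nsq h ∧ ‖Fa a z - (z + h)‖ ≤ C * nsq h ∧ ‖Fa (-a) z - (z - h)‖ ≤ C * nsq h)

/-- B3. interior semiconcavity.  [`(u (Fa a z) + u (Fa (-a) z))/2 - C nsq a` is in the family.]  (uses B1, B2, A1, A6) -/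
def B3_stmt : Prop :=
  ∀ (g u : C2 → ℝ), ContDiff ℝ ∞ g → IsPerron g 0 1 u → ∀ ρ : ℝ, 0 < ρ → ρ < 1 → ∃ C δ : ℝ, 0 ≤ C ∧ 0 < δ ∧
    ∀ x h : C2, nsq x ≤ ρ ^ 2 → nsq h ≤ δ → u (x + h) + u (x - h) - 2 * u x ≤ C * nsq h

/-- B4. psh + interior semiconcave ⇒ `C^{1,1}` inside.
[Convolutions `u_δ` have `D²u_δ(ξ,ξ) ≤ C` and `lap u_δ ≥ 0`, so `|D²u_δ| ≤ C'` uniformly on smaller balls; gradients are equi-Lipschitz and
Cauchy (interpolation: `|∇f|² ≤ 4 sup|f| sup|D²f|`), `hasFDerivAt_of_tendstoUniformlyOn`.] -/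
def B4_stmt : Prop :=
  ∀ u : C2 → ℝ, PshOn (bal 0 1) u →
    (∀ ρ : ℝ, 0 < ρ → ρ < 1 → ∃ C δ : ℝ, 0 ≤ C ∧ 0 < δ ∧
      ∀ x h : C2, nsq x ≤ ρ ^ 2 → nsq h ≤ δ → u (x + h) + u (x - h) - 2 * u x ≤ C * nsq h) →
    ∃ G : C2 → (C2 →L[ℝ] ℝ), (∀ x ∈ bal 0 1, HasFDerivAt u (G x) x) ∧
      ∀ ρ : ℝ, 0 < ρ → ρ < 1 → ∃ C : ℝ, ∀ x ∈ bal 0 ρ, ∀ y ∈ bal 0 ρ, ‖G x - G y‖ ≤ C * ‖x - y‖

/-- B5. a maximal function has degenerate Levi form where it is twice differentiable.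
[Taylor at `x0`: `u(x0+h) = p(h) + (1/4)L(h) + o(|h|²)`, `p` = pluriharmonic quadratic polynomial
`u x0 + G h + (1/4)(A h h - A (ih)(ih))`, `L(h) = A h h + A (ih)(ih)`.  If `L > 0` on `h ≠ 0`, then
`max u (p(·-x0) + small)` on a tiny ball, `u` elsewhere, beats `u`.]  (uses A1, A3, A4, A7) -/
def B5_stmt : Prop :=
  ∀ (u : C2 → ℝ) (G : C2 → (C2 →L[ℝ] ℝ)), IsPerron u 0 1 u → (∀ x ∈ bal 0 1, HasFDerivAt u (G x) x) →
    ∀ x0 ∈ bal 0 1, ∀ A : C2 →L[ℝ] (C2 →L[ℝ] ℝ), HasFDerivAt G A x0 →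
      ∃ ξ : C2, ξ ≠ 0 ∧ A ξ ξ + A (I • ξ) (I • ξ) ≤ 0

/-- B6. `C^{1,1}` + degenerate a.e. ⇒ there are smooth psh approximations with vanishing Monge-Ampère mass.
[Rademacher for the locally Lipschitz `G` (`LipschitzOnWith` extension, `LipschitzWith.ae_differentiableAt`); `w_n = u * χ_{1/n}`,
`D²w_n` bounded and → `A` at points of differentiability of `G`; the limit form is ≥ 0 with a null vector so its det is 0; dominated convergence.] -/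
def B6_stmt : Prop :=
  ∀ (u : C2 → ℝ) (G : C2 → (C2 →L[ℝ] ℝ)), PshOn (bal 0 1) u → (∀ x ∈ bal 0 1, HasFDerivAt u (G x) x) →
    (∀ ρ : ℝ, 0 < ρ → ρ < 1 → ∃ C : ℝ, ∀ x ∈ bal 0 ρ, ∀ y ∈ bal 0 ρ, ‖G x - G y‖ ≤ C * ‖x - y‖) →
    (∀ x0 ∈ bal 0 1, ∀ A : C2 →L[ℝ] (C2 →L[ℝ] ℝ), HasFDerivAt G A x0 →
      ∃ ξ : C2, ξ ≠ 0 ∧ A ξ ξ + A (I • ξ) (I • ξ) ≤ 0) →
    ∀ h : C2 → ℝ, ContDiff ℝ ∞ h → HasCompactSupport h → tsupport h ⊆ bal 0 1 →
      ∃ (V : Set C2) (w : ℕ → C2 → ℝ), IsOpen V ∧ tsupport h ⊆ V ∧ V ⊆ bal 0 1 ∧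
        (∀ n, ContDiff ℝ ∞ (w n)) ∧ (∀ n, PshOn V (w n)) ∧ TendstoUniformlyOn w u atTop V ∧
        Tendsto (fun n => ∫ x, h x * dens (w n) (w n) x) atTop (𝓝 0)

/-- B7. local Stokes formula (integrate by parts twice; `dens · g` is in divergence form because third derivatives commute). -/
def B7_stmt : Prop :=
  ∀ (U : Set C2) (f g h : C2 → ℝ), IsOpen U → ContDiff ℝ ∞ f → HasCompactSupport f → tsupport f ⊆ U →
    ContDiffOn ℝ ∞ g U → ContDiffOn ℝ ∞ h U → ∫ x, h x * dens f g x = ∫ x, f x * dens h g x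

/-- B8. comparison of local Monge-Ampère functionals (uses B7, C2).  [`∫ h (dens u u - dens v v) = ∫ (u-v) dens h (u+v)`,
`|dens h w| ≤ C_h dens nsq w` for psh `w`, `∫ η dens nsq w = ∫ w dens nsq η`.] -/
def B8_stmt : Prop :=
  ∀ (U V : Set C2) (h : C2 → ℝ), IsOpen U → IsOpen V → V ⊆ U → ContDiff ℝ ∞ h → HasCompactSupport h → tsupport h ⊆ V →
    ∃ C : ℝ, 0 ≤ C ∧ ∀ (u v : C2 → ℝ) (m δ : ℝ), ContDiffOn ℝ ∞ u V → ContDiffOn ℝ ∞ v V → PshOn V u → PshOn V v →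
      (∀ x ∈ V, |u x| ≤ m) → (∀ x ∈ V, |v x| ≤ m) → (∀ x ∈ V, |u x - v x| ≤ δ) →
      |(∫ x, h x * dens u u x) - ∫ x, h x * dens v v x| ≤ C * m * δ

/-- vanishing Monge-Ampère measure of a continuous psh function, tested on ALL smooth approximations -/
def MAzero (U : Set C2) (u : C2 → ℝ) : Prop :=
  ∀ h : C2 → ℝ, ContDiff ℝ ∞ h → HasCompactSupport h → tsupport h ⊆ U → ∀ w : ℕ → C2 → ℝ,
    (∀ n, ContDiffOn ℝ ∞ (w n) U) → (∀ n, PshOn U (w n)) → (∀ K, K ⊆ U → IsCompact K → TendstoUniformlyOn w u atTop K) →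
    Tendsto (fun n => ∫ x, h x * dens (w n) (w n) x) atTop (𝓝 0)

/-- B9. the Dirichlet theorem on every ball, continuous data.
[Smooth data on the unit ball: B1, B3-B6, B8.  Continuous data: uniformly close smooth data, `|u - u'| ≤ sup |g - g'|`.
General ball: scaling.]  (uses B1, B3, B4, B5, B6, B8, A1, A2) -/
def B9_stmt : Prop :=
  ∀ (g : C2 → ℝ) (c : C2) (r : ℝ), 0 < r → ContinuousOn g (sph c r) → ∃ u : C2 → ℝ, IsPerron g c r u ∧ MAzero (bal c r) u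

/-! ## C. pointwise algebra of the Levi form -/

/-- C1. covariance of `dens` under holomorphic maps (`LinearMap.det_restrictScalars`, det of the 2x2 Hermitian form). -/
def C1_stmt : Prop :=
  ∀ (U V : Set C2) (F : C2 → C2) (u v : C2 → ℝ), IsOpen U → IsOpen V → ContDiffOn ℂ 2 F V → MapsTo F V U →
    ContDiffOn ℝ 2 u U → ContDiffOn ℝ 2 v U → ∀ x ∈ V,
      dens (fun y => u (F y)) (fun y => v (F y)) x = |(fderiv ℝ F x).det| * dens u v (F x)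

/-- C2. pointwise facts for functions that are `C²` near `x`. -/
def C2_stmt : Prop :=
  (∀ (u u' v : C2 → ℝ) (x : C2), ContDiffAt ℝ 2 u x → ContDiffAt ℝ 2 u' x →
    (∀ ξ, lap u x ξ = lap u' x ξ) → dens u v x = dens u' v x) ∧
  (∀ (u v : C2 → ℝ) (x : C2), ContDiffAt ℝ 2 u x → ContDiffAt ℝ 2 v x →
    (∀ ξ, 0 ≤ lap u x ξ) → (∀ ξ, 0 ≤ lap v x ξ) → 0 ≤ dens u v x) ∧
  (∀ (u v : C2 → ℝ) (x : C2), ContDiffAt ℝ 2 u x → ContDiffAt ℝ 2 v x →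
    (∀ ξ, ξ ≠ 0 → 0 < lap u x ξ) → (∀ ξ, ξ ≠ 0 → 0 < lap v x ξ) → 0 < dens u v x) ∧
  (∀ (u u' v : C2 → ℝ) (x : C2), ContDiffAt ℝ 2 u x → ContDiffAt ℝ 2 u' x → ContDiffAt ℝ 2 v x →
    (∀ ξ, lap u x ξ ≤ lap u' x ξ) → (∀ ξ, 0 ≤ lap v x ξ) → dens u v x ≤ dens u' v x) ∧
  (∀ (u u' v : C2 → ℝ) (x : C2) (a b : ℝ), ContDiffAt ℝ 2 u x → ContDiffAt ℝ 2 u' x →
    (∀ ξ, lap (fun y => a * u y + b * u' y) x ξ = a * lap u x ξ + b * lap u' x ξ) ∧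
    dens (fun y => a * u y + b * u' y) v x = a * dens u v x + b * dens u' v x) ∧
  (∀ (u v : C2 → ℝ) (x : C2), dens u v x = dens v u x) ∧
  (∀ (f v : C2 → ℝ) (x : C2), ContDiffAt ℝ 2 f x → ContDiffAt ℝ 2 v x → (∀ ξ, 0 ≤ lap v x ξ) →
    2 * f x * dens f v x ≤ dens (fun y => f y ^ 2) v x)

end

end MAP
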