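import Mathlib

/-!
# PROJECT ma  (MP_0012ff_an).  Spec F: the final argument in an ABSTRACT interface.

`MATh X` lists what is needed from pluripotential theory on the compact surface `X` (it will be instantiated by other modules).
Paper proof: /team-store/MA_NOTES.md, steps (0)-(8) and (Loc), (Com), (Con).
`M f g` is the mixed Monge-Ampère measure `(ω+dd^c f) ∧ (ω+dd^c g)`, `C0` = continuous ω-psh functions, `PS` = smooth ω-psh functions.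
-/

set_option autoImplicit false

open MeasureTheory Set Filter Topology
open scoped ContDiff Real

namespace MAP

noncomputable section

/-- data of a small coordinate ball at `p`: `d` = distance to `p` in a chart (truncated), `q` bump, `χ = K d² · bump`.
The last field says `dd^c χ ≥ ω` on `{d < r1}`, as `C (M (χ/C) g - M 0 g) ≥ M 0 g`. -/
structure LD {X : Type} [TopologicalSpace X] [MeasurableSpace X] (C0 : Set (X → ℝ))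
    (M : (X → ℝ) → (X → ℝ) → Measure X) (Ball : Set (Set X)) (p : X) where
  d : X → ℝ
  q : X → ℝ
  χ : X → ℝ
  r1 : ℝ
  K : ℝ
  C : ℝ
  e0 : ℝ
  d_cont : Continuous d
  d_nonneg : ∀ x, 0 ≤ d x
  d_p : d p = 0
  r1_pos : 0 < r1
  K_pos : 0 < K
  C_pos : 0 < C
  e0_pos : 0 < e0
  e0_le : e0 ≤ 1
  ball : ∀ r, 0 < r → r ≤ r1 → {x | d x < r} ∈ Ball
  q_cont : Continuous q
  q_nonneg : ∀ x, 0 ≤ q x
  q_le : ∀ x, q x ≤ 1
  q_one : ∀ x, d x ≤ r1 / 2 → q x = 1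
  q_zero : ∀ x, r1 ≤ d x → q x = 0
  q_mem : (fun x => e0 * q x) ∈ C0
  nq_mem : (fun x => -(e0 * q x)) ∈ C0
  χ_cont : Continuous χ
  χ_nonneg : ∀ x, 0 ≤ χ x
  χ_le : ∀ x, d x ≤ r1 → χ x ≤ K * d x ^ 2
  χ_mem : (fun x => χ x / C) ∈ C0
  χ_big : ∀ g ∈ C0, ∀ A, MeasurableSet A → A ⊆ {x | d x < r1} →
    (C + 1) * (M (fun _ => 0) g).real A ≤ C * (M (fun x => χ x / C) g).real A

/-- abstract Monge-Ampère theory of continuous ω-psh functions on a compact surface -/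
structure MATh (X : Type) [TopologicalSpace X] [MeasurableSpace X] where
  PS : Set (X → ℝ)
  C0 : Set (X → ℝ)
  M : (X → ℝ) → (X → ℝ) → Measure X
  V : ℝ
  V_pos : 0 < V
  ps_c0 : PS ⊆ C0
  cont : ∀ f ∈ C0, Continuous f
  const_ps : ∀ c : ℝ, (fun _ => c) ∈ PS
  add_const : ∀ f ∈ C0, ∀ c : ℝ, (fun x => f x + c) ∈ C0
  max_mem : ∀ f ∈ C0, ∀ g ∈ C0, (fun x => max (f x) (g x)) ∈ C0
  conv_mem : ∀ f ∈ C0, ∀ g ∈ C0, ∀ t : ℝ, 0 ≤ t → t ≤ 1 → (fun x => (1 - t) * f x + t * g x) ∈ C0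
  richberg : ∀ f ∈ C0, ∀ ε : ℝ, 0 < ε → ∃ h ∈ PS, ∀ x, |h x - f x| ≤ ε
  fin : ∀ f ∈ C0, ∀ g ∈ C0, IsFiniteMeasure (M f g)
  mass : ∀ f ∈ C0, ∀ g ∈ C0, (M f g).real univ = V
  symm : ∀ f ∈ C0, ∀ g ∈ C0, M f g = M g f
  aff : ∀ f ∈ C0, ∀ f' ∈ C0, ∀ g ∈ C0, ∀ t : ℝ, 0 ≤ t → t ≤ 1 → ∀ A, MeasurableSet A →
    (M (fun x => (1 - t) * f x + t * f' x) g).real A = (1 - t) * (M f g).real A + t * (M f' g).real A
  const : ∀ f ∈ C0, ∀ g ∈ C0, ∀ c : ℝ, M (fun x => f x + c) g = M f g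
  stokes : ∀ f ∈ C0, ∀ f' ∈ C0, ∀ g ∈ C0, ∀ h ∈ C0,
    (∫ x, h x ∂M f g) - ∫ x, h x ∂M f' g = (∫ x, (f x - f' x) ∂M h g) - ∫ x, (f x - f' x) ∂M (fun _ => 0) g
  loc : ∀ f ∈ C0, ∀ f' ∈ C0, ∀ g ∈ C0, ∀ U, IsOpen U → (∀ x ∈ U, f x = f' x) →
    ∀ A, MeasurableSet A → A ⊆ U → M f g A = M f' g A
  energy : ∀ f ∈ C0, ∀ g ∈ C0, ∫ x, f x ∂M f g ≤ ∫ x, f x ∂M (fun _ => 0) g
  dense : ∀ h : X → ℝ, Continuous h → ∀ ε : ℝ, 0 < ε → ∃ f ∈ PS, ∃ C : ℝ, 0 < C ∧ ∀ x, |h x - C * f x| ≤ ε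
  Ball : Set (Set X)
  ball_open : ∀ Ω ∈ Ball, IsOpen Ω
  obst : ∀ Ω ∈ Ball, ∀ ψ ∈ C0, ∀ o : X → ℝ, Continuous o → (∀ x ∈ closure Ω, ψ x ≤ o x) →
    ∃ a ∈ C0, (∀ x, ψ x ≤ a x) ∧ (∀ x, x ∉ Ω → a x = ψ x) ∧ (∀ x ∈ Ω, a x ≤ o x) ∧
      (∀ v ∈ C0, (∀ x, x ∉ Ω → v x ≤ ψ x) → (∀ x ∈ Ω, v x ≤ o x) → ∀ x, v x ≤ a x) ∧
      M a a {x | x ∈ Ω ∧ a x < o x} = 0
  ld : ∀ p : X, LD C0 M Ball p

/-- soft truncation of `-L = (1/2) log S` -/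
def soft {X : Type} (S : X → ℝ) (Λ : ℝ) : X → ℝ := fun x => (1 / 2) * Real.log (S x + Real.exp (-2 * Λ))

/-- the curve: `S = |s|²`, `{S = 0} = D`, `μ = ω ∧ [D]`.  `{L ≥ Λ} = {S ≤ exp (-2Λ)}`. -/
structure CurveD {X : Type} [TopologicalSpace X] [MeasurableSpace X] (T : MATh X) (μ : Measure X) where
  S : X → ℝ
  S_cont : Continuous S
  S_nonneg : ∀ x, 0 ≤ S x
  S_le : ∀ x, S x ≤ Real.exp (-2)
  soft_mem : ∀ Λ : ℝ, 1 ≤ Λ → soft S Λ ∈ T.C0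
  c : ℝ
  L1 : ∀ Λ : ℝ, 1 ≤ Λ → ∫ x, -(soft S Λ x) ∂T.M (fun _ => 0) (fun _ => 0) ≤ c
  fin : IsFiniteMeasure μ
  PL : ∀ h : X → ℝ, Continuous h →
    Tendsto (fun Λ : ℝ => ∫ x, h x ∂T.M (soft S Λ) (fun _ => 0)) atTop (𝓝 (∫ x, h x ∂μ))
  supp : μ {x | 0 < S x} = 0
  p : X
  pos : ∀ U, IsOpen U → p ∈ U → 0 < μ U

/-- pointwise decreasing convergence -/
def DecTo {X : Type} (f : ℕ → X → ℝ) (φ : X → EReal) : Prop :=
  (∀ j x, f (j + 1) x ≤ f j x) ∧ ∀ x, Tendsto (fun j => ((f j x : ℝ) : EReal)) atTop (𝓝 (φ x))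

/-- every sequence of smooth ω-psh functions decreasing to `φ` has Monge-Ampère measures tending weakly to `μ` -/
def DMAh {X : Type} [TopologicalSpace X] [MeasurableSpace X] (T : MATh X) (φ : X → EReal) (μ : Measure X) : Prop :=
  ∀ f : ℕ → X → ℝ, (∀ j, f j ∈ T.PS) → DecTo f φ → ∀ h : X → ℝ, Continuous h →
    Tendsto (fun j => ∫ x, h x ∂T.M (f j) (f j)) atTop (𝓝 (∫ x, h x ∂μ))

/-- F0. weak convergence tools (any filter): closed and open sets.  [Closed F: continuous `1_F ≤ h ≤ 1` with `∫ h dμ ≤ μ F + ε/2`.] -/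
def F0_stmt : Prop :=
  ∀ (X : Type) [TopologicalSpace X] [CompactSpace X] [T2Space X] [SecondCountableTopology X] [MeasurableSpace X] [BorelSpace X]
    (ι : Type) (l : Filter ι) (ν : ι → Measure X) (μ : Measure X), (∀ i, IsFiniteMeasure (ν i)) → IsFiniteMeasure μ →
    (∀ h : X → ℝ, Continuous h → Tendsto (fun i => ∫ x, h x ∂ν i) l (𝓝 (∫ x, h x ∂μ))) →
    (∀ F : Set X, IsClosed F → ∀ ε : ℝ, 0 < ε → ∀ᶠ i in l, (ν i).real F ≤ μ.real F + ε) ∧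
    (∀ U : Set X, IsOpen U → ∀ ε : ℝ, 0 < ε → ∀ᶠ i in l, μ.real U - ε ≤ (ν i).real U)

/-- F1. (i) quantitative continuity: `|∫ h dM f f - ∫ h dM f' f'| ≤ 4 V sup|f-f'|` for `h ∈ C0` (twice `stokes`, `symm`);
(ii) uniform convergence in `C0` gives weak convergence (`dense`). -/
def F1_stmt : Prop :=
  ∀ (X : Type) [TopologicalSpace X] [CompactSpace X] [T2Space X] [SecondCountableTopology X] [MeasurableSpace X] [BorelSpace X]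
    (T : MATh X),
    (∀ f ∈ T.C0, ∀ f' ∈ T.C0, ∀ h ∈ T.C0, ∀ ε : ℝ, (∀ x, |f x - f' x| ≤ ε) →
      |(∫ x, h x ∂T.M f f) - ∫ x, h x ∂T.M f' f'| ≤ 4 * T.V * ε) ∧
    (∀ (f : ℕ → X → ℝ), (∀ n, f n ∈ T.C0) → ∀ g ∈ T.C0, (∀ ε : ℝ, 0 < ε → ∀ᶠ n in atTop, ∀ x, |f n x - g x| ≤ ε) →
      ∀ h : X → ℝ, Continuous h → Tendsto (fun n => ∫ x, h x ∂T.M (f n) (f n)) atTop (𝓝 (∫ x, h x ∂T.M g g)))

/-- F2. step (0), extended DMA: continuous sequences.  (uses F1) -/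
def F2_stmt : Prop :=
  ∀ (X : Type) [TopologicalSpace X] [CompactSpace X] [T2Space X] [SecondCountableTopology X] [MeasurableSpace X] [BorelSpace X]
    (T : MATh X) (φ : X → EReal) (μ : Measure X), IsFiniteMeasure μ → DMAh T φ μ →
    ∀ v : ℕ → X → ℝ, (∀ j, v j ∈ T.C0) → DecTo v φ → ∀ h : X → ℝ, Continuous h →
      Tendsto (fun j => ∫ x, h x ∂T.M (v j) (v j)) atTop (𝓝 (∫ x, h x ∂μ))

/-- F3. (Com) comparison and (Con) contact.  (uses F0, F1)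
[(Com): `V = M w w univ ≥ M v v {u<v} + M u u {v<u}` for `w = max u v` by `loc` (twice, with `symm`).
(Con): for compact `K ⊆ A`, `M u u K = M w_ε w_ε K`, `w_ε = max (u+ε) v → max u v` uniformly, `= v` on `U`; inner regularity.] -/
def F3_stmt : Prop :=
  ∀ (X : Type) [TopologicalSpace X] [CompactSpace X] [T2Space X] [SecondCountableTopology X] [MeasurableSpace X] [BorelSpace X]
    (T : MATh X), ∀ u ∈ T.C0, ∀ v ∈ T.C0,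
    ((T.M v v).real {x | u x < v x} ≤ (T.M u u).real {x | u x ≤ v x}) ∧
    (∀ U, IsOpen U → (∀ x ∈ U, u x ≤ v x) → ∀ A, MeasurableSet A → A ⊆ U → (∀ x ∈ A, u x = v x) →
      (T.M u u).real A ≤ (T.M v v).real A)

/-- F4. step (1), Lemma A.  (uses F0, F2)  [`M (f j) 0 {f j ≤ -m} = M (max (f j) (-m)) 0 {f j ≤ -m}` by `loc` and `mass`;
test with `χ` of `T.ld p`; `∫ χ (dM v' v' - dM v v) = ∫ (v'-v) C (dM (χ/C) (..) - dM 0 (..)) ≥ ∫ (v'-v) dM 0 v ≥ e0 ∫_{f j ≤ -m} q dM 0 v`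
for `v = max (f j) (-m)`, `v' = max (f j) (-m + e0 q)`; finitely many `p` by compactness.] -/
def F4_stmt : Prop :=
  ∀ (X : Type) [TopologicalSpace X] [CompactSpace X] [T2Space X] [SecondCountableTopology X] [MeasurableSpace X] [BorelSpace X]
    (T : MATh X) (φ : X → EReal) (μ : Measure X), IsFiniteMeasure μ → DMAh T φ μ →
    ∀ f : ℕ → X → ℝ, (∀ j, f j ∈ T.C0) → DecTo f φ → (∀ x, ∀ j, f j x ≤ 0) → ∀ ε : ℝ, 0 < ε → ∃ j0 : ℕ, ∃ m0 : ℝ, ∀ j ≥ j0, ∀ m ≥ m0,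
      (T.M (f j) (fun _ => 0)).real {x | f j x ≤ -m} ≤ ε

/-- F5. step (2). -/
def F5_stmt : Prop :=
  ∀ (X : Type) [TopologicalSpace X] [CompactSpace X] [T2Space X] [SecondCountableTopology X] [MeasurableSpace X] [BorelSpace X]
    (T : MATh X) (μ : Measure X) (cd : CurveD T μ), ∀ v ∈ T.C0, ∀ K Λ : ℝ, 0 ≤ K → 1 ≤ Λ → (∀ x, -K ≤ v x) → (∀ x, v x ≤ 0) →
      (T.M v v).real {x | cd.S x ≤ Real.exp (-2 * Λ)} ≤ (2 / Λ) * (cd.c + 2 * K * T.V)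

/-- F6. step (5).  (uses F0, F2, F5) -/
def F6_stmt : Prop :=
  ∀ (X : Type) [TopologicalSpace X] [CompactSpace X] [T2Space X] [SecondCountableTopology X] [MeasurableSpace X] [BorelSpace X]
    (T : MATh X) (φ : X → EReal) (μ : Measure X) (_ : CurveD T μ), DMAh T φ μ →
    ∀ f : ℕ → X → ℝ, (∀ j, f j ∈ T.C0) → DecTo f φ → (∀ j x, f j x ≤ 0) → ∀ N : ℝ, 0 < N → ∀ ε : ℝ, 0 < ε → ∃ j0 : ℕ, ∀ j ≥ j0,
      (T.M (f j) (f j)).real {x | -N < f j x} ≤ ε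

/-- F7. step (7): capacity estimate and the average of `g` on the curve, for one function `f`.  (uses F3) -/
def F7_stmt : Prop :=
  ∀ (X : Type) [TopologicalSpace X] [CompactSpace X] [T2Space X] [SecondCountableTopology X] [MeasurableSpace X] [BorelSpace X]
    (T : MATh X) (μ : Measure X) (cd : CurveD T μ), ∀ f ∈ T.C0, (∀ x, f x ≤ 0) → ∀ N A : ℝ, 6 < N → 1 ≤ A →
    ∃ g ∈ T.C0, (∀ x, -(T.ld cd.p).e0 ≤ g x) ∧ (∀ x, g x ≤ 0) ∧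
      (∀ x, (T.ld cd.p).d x ≤ (T.ld cd.p).r1 / 2 → f x ≤ -N → Real.exp (-2 * (A * N)) ≤ cd.S x → g x = -(T.ld cd.p).e0) ∧
      ∫ x, -(g x) ∂μ ≤ (A * N + 3) * ((T.M (fun _ => 0) (fun _ => 0)).real {x | f x ≤ -(N / 2)} +
        (6 / N) * (T.M f (fun _ => 0)).real {x | f x ≤ -(N / 2)} + 9 * T.V / N ^ 2)

/-- F8. step (4): the obstacle solutions `a N j j'` (`j ≤ j'`) and their joint weak convergence.  (uses F0, F2) -/
def F8_stmt : Prop :=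
  ∀ (X : Type) [TopologicalSpace X] [CompactSpace X] [T2Space X] [SecondCountableTopology X] [MeasurableSpace X] [BorelSpace X]
    (T : MATh X) (φ : X → EReal) (μ : Measure X), IsFiniteMeasure μ → DMAh T φ μ →
    ∀ f : ℕ → X → ℝ, (∀ j, f j ∈ T.C0) → DecTo f φ → (∀ j x, f j x ≤ 0) → ∀ Ω ∈ T.Ball,
    ∃ a : ℕ → ℕ → ℕ → X → ℝ,
      (∀ N j j', j ≤ j' → a N j j' ∈ T.C0 ∧ (∀ x, f j' x ≤ a N j j' x) ∧ (∀ x, x ∉ Ω → a N j j' x = f j' x) ∧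
        (∀ x ∈ Ω, a N j j' x ≤ max (f j x) (-(N : ℝ))) ∧
        T.M (a N j j') (a N j j') {x | x ∈ Ω ∧ a N j j' x < max (f j x) (-(N : ℝ))} = 0) ∧
      (∀ h : X → ℝ, Continuous h → ∀ ε : ℝ, 0 < ε → ∃ n0 : ℕ, ∀ N ≥ n0, ∀ j ≥ n0, ∀ j' ≥ j,
        |(∫ x, h x ∂T.M (a N j j') (a N j j')) - ∫ x, h x ∂μ| ≤ ε)

/-- F9. steps (4)-(6): the mass of `a` sits on `{d ≤ r} ∩ {f j ≤ -N} ∩ {L ≤ A N}`.  (uses F0, F3, F5, F6, F8) -/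
def F9_stmt : Prop :=
  ∀ (X : Type) [TopologicalSpace X] [CompactSpace X] [T2Space X] [SecondCountableTopology X] [MeasurableSpace X] [BorelSpace X]
    (T : MATh X) (φ : X → EReal) (μ : Measure X) (cd : CurveD T μ), DMAh T φ μ →
    ∀ f : ℕ → X → ℝ, (∀ j, f j ∈ T.C0) → DecTo f φ → (∀ j x, f j x ≤ 0) →
    ∀ r : ℝ, 0 < r → r ≤ (T.ld cd.p).r1 → ∀ A : ℝ, 1 ≤ A → ∀ δ : ℝ, 0 < δ → ∃ n0 : ℕ, ∀ N ≥ n0, ∃ j0 : ℕ, ∀ j ≥ j0, ∀ j' ≥ j,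
      ∃ a ∈ T.C0, (∀ x, f j' x ≤ a x) ∧ (∀ x, ¬ (T.ld cd.p).d x < r → a x = f j' x) ∧
        (T.M a a).real {x | (T.ld cd.p).d x ≤ r} ≤ μ.real {x | (T.ld cd.p).d x ≤ r} + δ ∧
        μ.real {x | (T.ld cd.p).d x < r} - 3 * δ - 5 * T.V / A ≤
          (T.M a a).real {x | (T.ld cd.p).d x ≤ r ∧ f j x ≤ -(N : ℝ) ∧ Real.exp (-2 * (A * N)) ≤ cd.S x}

/-- F10. the `R`-estimate of step (8): `∫ g (dM v v - dM v' v') ≥ - K r² M v v {d ≤ r}`. -/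
def F10_stmt : Prop :=
  ∀ (X : Type) [TopologicalSpace X] [CompactSpace X] [T2Space X] [SecondCountableTopology X] [MeasurableSpace X] [BorelSpace X]
    (T : MATh X) (p : X), ∀ g ∈ T.C0, ∀ v ∈ T.C0, ∀ v' ∈ T.C0, ∀ r : ℝ, 0 < r → r ≤ (T.ld p).r1 → (∀ x, v' x ≤ v x) →
      (∀ x, ¬ (T.ld p).d x < r → v x = v' x) →
      -((T.ld p).K * r ^ 2 * (T.M v v).real {x | (T.ld p).d x ≤ r}) ≤ (∫ x, g x ∂T.M v v) - ∫ x, g x ∂T.M v' v'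

/-- F11. `N · ω²{f j ≤ -N/2} → 0` uniformly in `j` if `∫ (-f j) ω²` is bounded (dominated convergence for `sup_j (-f j) ∈ L¹`). -/
def F11_stmt : Prop :=
  ∀ (X : Type) [TopologicalSpace X] [MeasurableSpace X] [BorelSpace X] (ν : Measure X), IsFiniteMeasure ν →
    ∀ f : ℕ → X → ℝ, (∀ j, Continuous (f j)) → (∀ j, Integrable (f j) ν) → (∀ j x, f (j + 1) x ≤ f j x) → (∀ j x, f j x ≤ 0) →
    ∀ C : ℝ, (∀ j, ∫ x, -(f j x) ∂ν ≤ C) → ∀ ε : ℝ, 0 < ε → ∃ N0 : ℝ, ∀ N ≥ N0, ∀ j, N * ν.real {x | f j x ≤ -(N / 2)} ≤ ε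

/-- F12. step (8) and conclusion (uses F4, F7, F9, F10, F11, F0). -/
def F12_stmt : Prop :=
  ∀ (X : Type) [TopologicalSpace X] [CompactSpace X] [T2Space X] [SecondCountableTopology X] [MeasurableSpace X] [BorelSpace X]
    (T : MATh X) (φ : X → EReal) (μ : Measure X) (_ : CurveD T μ), DMAh T φ μ →
    ∀ f : ℕ → X → ℝ, (∀ j, f j ∈ T.PS) → DecTo f φ → (∀ j x, f j x ≤ 0) →
    (∃ C : ℝ, ∀ j, ∫ x, -(f j x) ∂T.M (fun _ => 0) (fun _ => 0) ≤ C) → False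

end

end MAP
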