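import Pool.Agent.helper50.MA.Spec1
import Pool.Agent.helper50.MA.SpecF

/-!
# PROJECT ma  (MP_0012ff_an).  Spec 2: the compact Kähler surface.

`KS X`: a compact complex surface with a finite holomorphic atlas, Kähler form `ω = dd^c ρ_i` in chart `i`.
`K.PS` smooth ω-psh functions, `K.C0` continuous ω-psh functions, `K.Ms f g` = the measure `(ω+dd^c f) ∧ (ω+dd^c g)` for smooth `f, g`,
`K.M f g` its extension to `C0` (uniform limits).  Same rules as Spec1.  Do not name a theorem `C2`.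
-/

set_option autoImplicit false

open MeasureTheory Set Filter Topology Complex
open scoped ContDiff Real

namespace MAP

noncomputable section

/-- compact Kähler surface with finite atlas and local potentials -/
structure KS (X : Type) [TopologicalSpace X] where
  n : ℕ
  e : Fin n → OpenPartialHomeomorph X C2
  ρ : Fin n → C2 → ℝ
  c : Fin n → C2
  R : Fin n → ℝ
  R_pos : ∀ i, 0 < R i
  ball_sub : ∀ i, cbal (c i) (R i) ⊆ (e i).target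
  cover : ∀ x : X, ∃ i, x ∈ (e i).source ∧ e i x ∈ bal (c i) (R i / 2)
  hol : ∀ i j, ContDiffOn ℂ ∞ (fun y => e j ((e i).symm y)) {y | y ∈ (e i).target ∧ (e i).symm y ∈ (e j).source}
  ρ_smooth : ∀ i, ContDiffOn ℝ ∞ (ρ i) (e i).target
  ρ_pos : ∀ i, ∀ y ∈ (e i).target, ∀ ξ : C2, ξ ≠ 0 → 0 < lap (ρ i) y ξ
  compat : ∀ i j, ∀ y ∈ (e i).target, (e i).symm y ∈ (e j).source → ∀ ξ : C2,
    lap (fun z => ρ j (e j ((e i).symm z))) y ξ = lap (ρ i) y ξ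

namespace KS

variable {X : Type} [TopologicalSpace X] (K : KS X)

/-- `f` read in chart `i` -/
def lo (i : Fin K.n) (f : X → ℝ) : C2 → ℝ := fun y => f ((K.e i).symm y)
/-- local potential of `ω + dd^c f` in chart `i` -/
def pot (i : Fin K.n) (f : X → ℝ) : C2 → ℝ := fun y => K.ρ i y + f ((K.e i).symm y)
/-- smooth functions -/
def Smo (f : X → ℝ) : Prop := ∀ i, ContDiffOn ℝ ∞ (K.lo i f) (K.e i).target
/-- smooth ω-psh functions -/
def PS : Set (X → ℝ) := {f | K.Smo f ∧ ∀ i, ∀ y ∈ (K.e i).target, ∀ ξ : C2, 0 ≤ lap (K.pot i f) y ξ}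
/-- continuous ω-psh functions -/
def C0 : Set (X → ℝ) := {f | Continuous f ∧ ∀ i, PshOn (K.e i).target (K.pot i f)}
/-- `ν = (ω+dd^c f) ∧ (ω+dd^c g)` -/
def IsM [MeasurableSpace X] (f g : X → ℝ) (ν : Measure X) : Prop :=
  IsFiniteMeasure ν ∧ ∀ i, ∀ A : Set X, MeasurableSet A → A ⊆ (K.e i).source →
    ν A = ∫⁻ y in (K.e i) '' A, ENNReal.ofReal (dens (K.pot i f) (K.pot i g) y)
open Classical in
/-- the measure `(ω+dd^c f) ∧ (ω+dd^c g)` for smooth ω-psh `f, g` -/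
def Ms [MeasurableSpace X] (f g : X → ℝ) : Measure X :=
  if h : ∃ ν, K.IsM f g ν then Classical.choose h else 0
/-- uniform convergence -/
def Unif (u : ℕ → X → ℝ) (f : X → ℝ) : Prop := ∀ ε : ℝ, 0 < ε → ∀ᶠ n in atTop, ∀ x, |u n x - f x| ≤ ε
/-- `ν` is the limit of `Ms (u n) (v n)` for all smooth uniform approximations -/
def IsMc [MeasurableSpace X] (f g : X → ℝ) (ν : Measure X) : Prop :=
  IsFiniteMeasure ν ∧ ∀ u v : ℕ → X → ℝ, (∀ n, u n ∈ K.PS) → (∀ n, v n ∈ K.PS) → Unif u f → Unif v g →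
    ∀ h : X → ℝ, Continuous h → Tendsto (fun n => ∫ x, h x ∂K.Ms (u n) (v n)) atTop (𝓝 (∫ x, h x ∂ν))
open Classical in
/-- the measure `(ω+dd^c f) ∧ (ω+dd^c g)` for continuous ω-psh `f, g` -/
def M [MeasurableSpace X] (f g : X → ℝ) : Measure X :=
  if h : ∃ ν, K.IsMc f g ν then Classical.choose h else 0
/-- coordinate balls -/
def Balls : Set (Set X) :=
  {Ω | ∃ (i : Fin K.n) (c : C2) (r : ℝ), 0 < r ∧ cbal c r ⊆ (K.e i).target ∧ Ω = {x | x ∈ (K.e i).source ∧ K.e i x ∈ bal c r}}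

end KS

/-! ## S. smooth calculus -/

/-- S1. existence of the measure.  [Borel pieces `A_i ⊆ {x ∈ source_i, e_i x ∈ bal (c i) (R i /2)}`; change of variables with C1, `compat`, C2 (1).] -/
def S1_stmt : Prop :=
  ∀ (X : Type) [TopologicalSpace X] [CompactSpace X] [T2Space X] [SecondCountableTopology X] [MeasurableSpace X] [BorelSpace X]
    (K : KS X), ∀ f ∈ K.PS, ∀ g ∈ K.PS, ∃ ν : Measure X, K.IsM f g ν

/-- S2. uniqueness and integrals in a chart. -/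
def S2_stmt : Prop :=
  ∀ (X : Type) [TopologicalSpace X] [CompactSpace X] [T2Space X] [SecondCountableTopology X] [MeasurableSpace X] [BorelSpace X]
    (K : KS X), ∀ f ∈ K.PS, ∀ g ∈ K.PS, ∀ ν : Measure X, K.IsM f g ν →
    (∀ ν' : Measure X, K.IsM f g ν' → ν' = ν) ∧
    (∀ (i : Fin K.n) (h : X → ℝ), Measurable h → (∃ B : ℝ, ∀ x, |h x| ≤ B) → (∀ x, x ∉ (K.e i).source → h x = 0) →
      IntegrableOn (fun y => h ((K.e i).symm y) * dens (K.pot i f) (K.pot i g) y) (K.e i).target ∧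
      ∫ x, h x ∂ν = ∫ y in (K.e i).target, h ((K.e i).symm y) * dens (K.pot i f) (K.pot i g) y)

/-- S3. smooth toolkit.  (uses A4, A6, A3, A1 for the last part; `ρ_j ∘ (transition) - ρ_i` has `lap = 0`, so it and its negative are psh) -/
def S3_stmt : Prop :=
  ∀ (X : Type) [TopologicalSpace X] [CompactSpace X] [T2Space X] (K : KS X),
    (∀ (i : Fin K.n) (h : C2 → ℝ), ContDiff ℝ ∞ h → HasCompactSupport h → tsupport h ⊆ (K.e i).target →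
      K.Smo (Set.indicator (K.e i).source (fun x => h (K.e i x)))) ∧
    (∀ f g : X → ℝ, K.Smo f → K.Smo g → K.Smo (fun x => f x + g x) ∧ K.Smo (fun x => f x * g x)) ∧
    (∀ c : ℝ, K.Smo (fun _ => c)) ∧
    (∀ f : X → ℝ, K.Smo f → Continuous f) ∧
    (∀ f : X → ℝ, (∀ x, ∃ i, x ∈ (K.e i).source ∧ ∃ W ∈ 𝓝 (K.e i x), ContDiffOn ℝ ∞ (K.lo i f) W) → K.Smo f) ∧
    (∀ f : X → ℝ, K.Smo f → (∀ x, ∃ i, x ∈ (K.e i).source ∧ ∀ ξ : C2, 0 ≤ lap (K.pot i f) (K.e i x) ξ) → f ∈ K.PS) ∧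
    (∀ f : X → ℝ, Continuous f → (∀ x, ∃ i, x ∈ (K.e i).source ∧ ∃ W : Set C2, IsOpen W ∧ K.e i x ∈ W ∧
      W ⊆ (K.e i).target ∧ PshOn W (K.pot i f)) → f ∈ K.C0) ∧
    K.PS ⊆ K.C0

/-- S4. partition of unity.  (uses S3) -/
def S4_stmt : Prop :=
  ∀ (X : Type) [TopologicalSpace X] [CompactSpace X] [T2Space X] (K : KS X),
    ∃ χ : Fin K.n → X → ℝ, (∀ i, K.Smo (χ i)) ∧ (∀ i x, 0 ≤ χ i x) ∧ (∀ x, ∑ i, χ i x = 1) ∧
      (∀ i x, χ i x ≠ 0 → x ∈ (K.e i).source ∧ K.e i x ∈ bal (K.c i) (3 / 4 * K.R i))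

/-- S5. smooth functions are multiples of ω-psh functions.  (uses S3) -/
def S5_stmt : Prop :=
  ∀ (X : Type) [TopologicalSpace X] [CompactSpace X] [T2Space X] (K : KS X), ∀ h : X → ℝ, K.Smo h →
    ∃ C : ℝ, 0 < C ∧ ∀ C' : ℝ, C ≤ C' → (fun x => h x / C') ∈ K.PS ∧ (fun x => -(h x / C')) ∈ K.PS

/-- S6. density of smooth functions (Stone-Weierstrass).  (uses S3) -/
def S6_stmt : Prop :=
  ∀ (X : Type) [TopologicalSpace X] [CompactSpace X] [T2Space X] (K : KS X), ∀ h : X → ℝ, Continuous h →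
    ∀ ε : ℝ, 0 < ε → ∃ h' : X → ℝ, K.Smo h' ∧ ∀ x, |h x - h' x| ≤ ε

/-- S7. Stokes.  (uses S1, S2, S3, S4, B7, C1, C2)
[`d = f - f' = Σ χ_i d`; in chart `i`, `∫ h dens (χ_i d) G = ∫ χ_i d · dens h G`, `G = pot g` (B7); sum with `h = Σ χ_k h`.] -/
def S7_stmt : Prop :=
  ∀ (X : Type) [TopologicalSpace X] [CompactSpace X] [T2Space X] [SecondCountableTopology X] [MeasurableSpace X] [BorelSpace X]
    (K : KS X), ∀ f ∈ K.PS, ∀ f' ∈ K.PS, ∀ g ∈ K.PS, ∀ h ∈ K.PS,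
    (∫ x, h x ∂K.Ms f g) - ∫ x, h x ∂K.Ms f' g = (∫ x, (f x - f' x) ∂K.Ms h g) - ∫ x, (f x - f' x) ∂K.Ms (fun _ => 0) g

/-- S8. positivity of the energy.  (uses S1, S2, S5, S7, C2)  [`f²/C ∈ PS`; Stokes with the constant function 1 gives
`∫ 1 (dMs (f²/C) g - dMs 0 g) = 0`; pointwise `2 f dens f G ≤ dens (f²) G` in each chart.] -/
def S8_stmt : Prop :=
  ∀ (X : Type) [TopologicalSpace X] [CompactSpace X] [T2Space X] [SecondCountableTopology X] [MeasurableSpace X] [BorelSpace X]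
    (K : KS X), ∀ f ∈ K.PS, ∀ g ∈ K.PS, ∫ x, f x ∂K.Ms f g ≤ ∫ x, f x ∂K.Ms (fun _ => 0) g

/-- S9. elementary properties of `PS` and `Ms`.  (uses S1, S2, C2) -/
def S9_stmt : Prop :=
  ∀ (X : Type) [TopologicalSpace X] [CompactSpace X] [T2Space X] [SecondCountableTopology X] [MeasurableSpace X] [BorelSpace X]
    (K : KS X),
    (∀ c : ℝ, (fun _ => c) ∈ K.PS) ∧
    (∀ f ∈ K.PS, ∀ c : ℝ, (fun x => f x + c) ∈ K.PS) ∧
    (∀ f ∈ K.PS, ∀ g ∈ K.PS, ∀ t : ℝ, 0 ≤ t → t ≤ 1 → (fun x => (1 - t) * f x + t * g x) ∈ K.PS) ∧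
    (∀ f ∈ K.PS, ∀ g ∈ K.PS, IsFiniteMeasure (K.Ms f g) ∧ K.Ms f g = K.Ms g f) ∧
    (∀ f ∈ K.PS, ∀ f' ∈ K.PS, ∀ g ∈ K.PS, ∀ t : ℝ, 0 ≤ t → t ≤ 1 → ∀ A, MeasurableSet A →
      (K.Ms (fun x => (1 - t) * f x + t * f' x) g).real A = (1 - t) * (K.Ms f g).real A + t * (K.Ms f' g).real A) ∧
    (∀ f ∈ K.PS, ∀ g ∈ K.PS, ∀ c : ℝ, K.Ms (fun x => f x + c) g = K.Ms f g) ∧
    (∀ f ∈ K.PS, ∀ f' ∈ K.PS, ∀ g ∈ K.PS, ∀ U, IsOpen U → (∀ x ∈ U, f x = f' x) →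
      ∀ A, MeasurableSet A → A ⊆ U → K.Ms f g A = K.Ms f' g A) ∧
    (∀ x : X, 0 < (K.Ms (fun _ => 0) (fun _ => 0)).real univ)

/-- S10. total mass.  (uses S7, S9: Stokes with `h = 1`, `Ms 1 g = Ms 0 g`) -/
def S10_stmt : Prop :=
  ∀ (X : Type) [TopologicalSpace X] [CompactSpace X] [T2Space X] [SecondCountableTopology X] [MeasurableSpace X] [BorelSpace X]
    (K : KS X), ∀ f ∈ K.PS, ∀ g ∈ K.PS, (K.Ms f g).real univ = (K.Ms (fun _ => 0) (fun _ => 0)).real univ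

/-- S11. comparison of measures on a coordinate ball: `dd^c χ ≥ ω` there gives `C (Ms (χ/C) g - Ms 0 g) ≥ Ms 0 g`.  (uses S1, C2) -/
def S11_stmt : Prop :=
  ∀ (X : Type) [TopologicalSpace X] [CompactSpace X] [T2Space X] [SecondCountableTopology X] [MeasurableSpace X] [BorelSpace X]
    (K : KS X) (χ : X → ℝ) (C : ℝ) (i : Fin K.n) (U : Set C2), K.Smo χ → 0 < C → (fun x => χ x / C) ∈ K.PS →
    IsOpen U → U ⊆ (K.e i).target → (∀ y ∈ U, ∀ ξ : C2, lap (K.ρ i) y ξ ≤ lap (K.lo i χ) y ξ) →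
    ∀ g ∈ K.PS, ∀ A, MeasurableSet A → A ⊆ {x | x ∈ (K.e i).source ∧ K.e i x ∈ U} →
      (C + 1) * (K.Ms (fun _ => 0) g).real A ≤ C * (K.Ms (fun x => χ x / C) g).real A

/-! ## R. Richberg regularisation -/

/-- R1. regularised maximum.  [`m t = ∫ max_i (t_i + σ s_i) ϑ(s) ds`, `ϑ` even smooth bump supported in `|s_i| ≤ 1/2`.] -/
def R1_stmt : Prop :=
  ∀ (n : ℕ) (σ : ℝ), 0 < n → 0 < σ → ∃ m : (Fin n → ℝ) → ℝ, ContDiff ℝ ∞ m ∧ ConvexOn ℝ univ m ∧ Monotone m ∧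
    (∀ t i, t i ≤ m t) ∧ (∀ t, ∃ i, m t ≤ t i + σ) ∧ (∀ t (c : ℝ), m (fun i => t i + c) = m t + c) ∧
    (∀ t t' : Fin n → ℝ, ∀ i k, (∀ l, l ≠ i → t' l = t l) → t i + σ ≤ t k → t' i + σ ≤ t k → m t' = m t)

/-- R2. gluing.  (uses R1, S3, A1, A3)  [`m` of the functions `v_i ∘ e_i` on `{e_i ∈ cbal}`, a very negative constant elsewhere.
psh: Jensen for the convex monotone `m` (with `m(t+c) = m t + c`), or the chain rule.] -/
def R2_stmt : Prop :=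
  ∀ (X : Type) [TopologicalSpace X] [CompactSpace X] [T2Space X] (K : KS X) (W : Fin K.n → Set C2) (v : Fin K.n → C2 → ℝ) (σ : ℝ),
    0 < σ → (∀ i, IsOpen (W i)) → (∀ i, cbal (K.c i) (K.R i) ⊆ W i) → (∀ i, W i ⊆ (K.e i).target) →
    (∀ i, ContDiffOn ℝ ∞ (v i) (W i)) → (∀ i, ∀ y ∈ W i, ∀ ξ : C2, 0 ≤ lap (fun z => K.ρ i z + v i z) y ξ) →
    (∀ i, ∀ x ∈ (K.e i).source, K.e i x ∈ sph (K.c i) (K.R i) →
      ∃ j, x ∈ (K.e j).source ∧ K.e j x ∈ bal (K.c j) (K.R j) ∧ v i (K.e i x) + 2 * σ < v j (K.e j x)) →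
    ∃ h ∈ K.PS, ∀ x, (∀ i, x ∈ (K.e i).source → K.e i x ∈ cbal (K.c i) (K.R i) → v i (K.e i x) ≤ h x) ∧
      ∃ i, x ∈ (K.e i).source ∧ K.e i x ∈ bal (K.c i) (K.R i) ∧ h x ≤ v i (K.e i x) + σ

/-- R3. Richberg's theorem.  (uses R2, A1, A3, A5, S3)
[`(1-t) f`, `q_i = κ (5/8 R_i² - |y-c_i|²)` with `4κ ≤ t · min lap ρ_i`; smooth `(1-t) f + q_i + ρ_i` by A5; glue by R2.] -/
def R3_stmt : Prop :=
  ∀ (X : Type) [TopologicalSpace X] [CompactSpace X] [T2Space X] (K : KS X), ∀ f ∈ K.C0, ∀ ε : ℝ, 0 < ε →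
    ∃ h ∈ K.PS, ∀ x, |h x - f x| ≤ ε

/-! ## D. extension to continuous ω-psh functions -/

/-- D1. existence; agreement on smooth functions; uniqueness.  (uses S5-S10, R3; `RealRMK.rieszMeasure` or similar) -/
def D1_stmt : Prop :=
  ∀ (X : Type) [TopologicalSpace X] [CompactSpace X] [T2Space X] [SecondCountableTopology X] [MeasurableSpace X] [BorelSpace X]
    (K : KS X),
    (∀ f ∈ K.C0, ∀ g ∈ K.C0, K.IsMc f g (K.M f g) ∧ ∀ ν, K.IsMc f g ν → ν = K.M f g) ∧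
    (∀ f ∈ K.PS, ∀ g ∈ K.PS, K.M f g = K.Ms f g)

/-- D2. algebra on `C0`.  (uses D1, R3, S9, S10, A1, S3) -/
def D2_stmt : Prop :=
  ∀ (X : Type) [TopologicalSpace X] [CompactSpace X] [T2Space X] [SecondCountableTopology X] [MeasurableSpace X] [BorelSpace X]
    (K : KS X),
    (∀ f ∈ K.C0, ∀ c : ℝ, (fun x => f x + c) ∈ K.C0) ∧
    (∀ f ∈ K.C0, ∀ g ∈ K.C0, (fun x => max (f x) (g x)) ∈ K.C0) ∧
    (∀ f ∈ K.C0, ∀ g ∈ K.C0, ∀ t : ℝ, 0 ≤ t → t ≤ 1 → (fun x => (1 - t) * f x + t * g x) ∈ K.C0) ∧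
    (∀ f ∈ K.C0, ∀ g ∈ K.C0, IsFiniteMeasure (K.M f g) ∧ K.M f g = K.M g f ∧
      (K.M f g).real univ = (K.Ms (fun _ => 0) (fun _ => 0)).real univ) ∧
    (∀ f ∈ K.C0, ∀ f' ∈ K.C0, ∀ g ∈ K.C0, ∀ t : ℝ, 0 ≤ t → t ≤ 1 → ∀ A, MeasurableSet A →
      (K.M (fun x => (1 - t) * f x + t * f' x) g).real A = (1 - t) * (K.M f g).real A + t * (K.M f' g).real A) ∧
    (∀ f ∈ K.C0, ∀ g ∈ K.C0, ∀ c : ℝ, K.M (fun x => f x + c) g = K.M f g)

/-- D3. Stokes and energy on `C0`.  (uses D1, R3, S7, S8, S10) -/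
def D3_stmt : Prop :=
  ∀ (X : Type) [TopologicalSpace X] [CompactSpace X] [T2Space X] [SecondCountableTopology X] [MeasurableSpace X] [BorelSpace X]
    (K : KS X),
    (∀ f ∈ K.C0, ∀ f' ∈ K.C0, ∀ g ∈ K.C0, ∀ h ∈ K.C0,
      (∫ x, h x ∂K.M f g) - ∫ x, h x ∂K.M f' g = (∫ x, (f x - f' x) ∂K.M h g) - ∫ x, (f x - f' x) ∂K.M (fun _ => 0) g) ∧
    (∀ f ∈ K.C0, ∀ g ∈ K.C0, ∫ x, f x ∂K.M f g ≤ ∫ x, f x ∂K.M (fun _ => 0) g)

/-- D4. locality on `C0`.  (uses D1, D3, S3-S6, S9)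
[For smooth `h` supported in `U`, `h/C ∈ PS`: `∫ h (dM f g - dM f' g) = C ∫ (f-f') (dM (h/C) g - dM 0 g)`, and `M (h/C) g = M 0 g` off
`tsupport h` (limit of S9), where `f - f'` may be nonzero, while `f - f' = 0` on `U`.] -/
def D4_stmt : Prop :=
  ∀ (X : Type) [TopologicalSpace X] [CompactSpace X] [T2Space X] [SecondCountableTopology X] [MeasurableSpace X] [BorelSpace X]
    (K : KS X), ∀ f ∈ K.C0, ∀ f' ∈ K.C0, ∀ g ∈ K.C0, ∀ U, IsOpen U → (∀ x ∈ U, f x = f' x) →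
      ∀ A, MeasurableSet A → A ⊆ U → K.M f g A = K.M f' g A

/-- D5. S11 for `g ∈ C0`.  (uses S11, D1, R3) -/
def D5_stmt : Prop :=
  ∀ (X : Type) [TopologicalSpace X] [CompactSpace X] [T2Space X] [SecondCountableTopology X] [MeasurableSpace X] [BorelSpace X]
    (K : KS X) (χ : X → ℝ) (C : ℝ) (i : Fin K.n) (U : Set C2), K.Smo χ → 0 < C → (fun x => χ x / C) ∈ K.PS →
    IsOpen U → U ⊆ (K.e i).target → (∀ y ∈ U, ∀ ξ : C2, lap (K.ρ i) y ξ ≤ lap (K.lo i χ) y ξ) →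
    ∀ g ∈ K.C0, ∀ A, MeasurableSet A → A ⊆ {x | x ∈ (K.e i).source ∧ K.e i x ∈ U} →
      (C + 1) * (K.M (fun _ => 0) g).real A ≤ C * (K.M (fun x => χ x / C) g).real A

/-- D6. a local potential with vanishing Monge-Ampère measure gives a null set of `M f f`.  (uses D1, R3, S1, S2) -/
def D6_stmt : Prop :=
  ∀ (X : Type) [TopologicalSpace X] [CompactSpace X] [T2Space X] [SecondCountableTopology X] [MeasurableSpace X] [BorelSpace X]
    (K : KS X), ∀ f ∈ K.C0, ∀ (i : Fin K.n) (c : C2) (r : ℝ), 0 < r → cbal c r ⊆ (K.e i).target →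
      MAzero (bal c r) (K.pot i f) → K.M f f {x | x ∈ (K.e i).source ∧ K.e i x ∈ bal c r} = 0

/-! ## O. obstacle problem -/

/-- competitors for the obstacle problem on a ball of `ℂ²` -/
def Obs (b o : C2 → ℝ) (c : C2) (r : ℝ) : Set (C2 → ℝ) :=
  {v | ContinuousOn v (cbal c r) ∧ PshOn (bal c r) v ∧ (∀ y ∈ cbal c r, v y ≤ o y) ∧ ∀ y ∈ sph c r, v y ≤ b y}

/-- O1. local obstacle problem: the greatest competitor exists and is continuous.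
[Only `v ≥ b`.  Upper barrier at the sphere: `b` within `ε` of a smooth `b_ε`, `v ≤ b_ε + ε + C_ε (r² - |y-c|²)` by A8.
Walsh: `v' y = max (v y) (v (y+h) - 2δ)` where `y, y+h` in the ball.]  (uses A1, A2, A4, A7, A8, A3) -/
def O1_stmt : Prop :=
  ∀ (b o : C2 → ℝ) (c : C2) (r : ℝ), 0 < r → ContinuousOn b (cbal c r) → PshOn (bal c r) b → ContinuousOn o (cbal c r) →
    (∀ y ∈ cbal c r, b y ≤ o y) →
    ∃ u ∈ Obs b o c r, (∀ y ∈ cbal c r, b y ≤ u y) ∧ (∀ y ∈ sph c r, u y = b y) ∧ ∀ v ∈ Obs b o c r, ∀ y ∈ cbal c r, v y ≤ u y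

/-- O2. off the contact set the greatest competitor is locally maximal.  (uses B9, A1, A7, A8) -/
def O2_stmt : Prop :=
  ∀ (b o : C2 → ℝ) (c : C2) (r : ℝ) (u : C2 → ℝ), 0 < r → ContinuousOn b (cbal c r) → PshOn (bal c r) b → ContinuousOn o (cbal c r) →
    u ∈ Obs b o c r → (∀ v ∈ Obs b o c r, ∀ y ∈ cbal c r, v y ≤ u y) →
    ∀ y ∈ bal c r, u y < o y → ∃ s : ℝ, 0 < s ∧ cbal y s ⊆ bal c r ∧ MAzero (bal y s) u

open Classical in
/-- replace the potential in a coordinate ball -/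
def KS.glue {X : Type} [TopologicalSpace X] (K : KS X) (i : Fin K.n) (c : C2) (r : ℝ) (w : C2 → ℝ) (v : X → ℝ) : X → ℝ :=
  fun x => if x ∈ (K.e i).source ∧ K.e i x ∈ cbal c r then w (K.e i x) - K.ρ i (K.e i x) else v x

/-- O3. gluing on `X`.  (uses A4, A6, S3) -/
def O3_stmt : Prop :=
  ∀ (X : Type) [TopologicalSpace X] [CompactSpace X] [T2Space X] (K : KS X) (i : Fin K.n) (c : C2) (r : ℝ) (w : C2 → ℝ),
    0 < r → cbal c r ⊆ (K.e i).target → ContinuousOn w (cbal c r) → PshOn (bal c r) w → ∀ v ∈ K.C0,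
    (∀ y ∈ cbal c r, K.pot i v y ≤ w y) → (∀ y ∈ sph c r, w y = K.pot i v y) → K.glue i c r w v ∈ K.C0

/-- O4. the obstacle theorem on `X`.  (uses O1, O2, O3, D2, D6) -/
def O4_stmt : Prop :=
  ∀ (X : Type) [TopologicalSpace X] [CompactSpace X] [T2Space X] [SecondCountableTopology X] [MeasurableSpace X] [BorelSpace X]
    (K : KS X), ∀ Ω ∈ K.Balls, IsOpen Ω ∧ ∀ ψ ∈ K.C0, ∀ o : X → ℝ, Continuous o → (∀ x ∈ closure Ω, ψ x ≤ o x) →
    ∃ a ∈ K.C0, (∀ x, ψ x ≤ a x) ∧ (∀ x, x ∉ Ω → a x = ψ x) ∧ (∀ x ∈ Ω, a x ≤ o x) ∧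
      (∀ v ∈ K.C0, (∀ x, x ∉ Ω → v x ≤ ψ x) → (∀ x ∈ Ω, v x ≤ o x) → ∀ x, v x ≤ a x) ∧
      K.M a a {x | x ∈ Ω ∧ a x < o x} = 0

/-- O5. local data at a point.  (uses S3, S5, D5)
[`d` = `min (|e_i x - e_i p|) (3 r1)`; `q` bump, `χ = k |e_i x - e_i p|² · (bump = 1 on d ≤ r1)`.] -/
def O5_stmt : Prop :=
  ∀ (X : Type) [TopologicalSpace X] [CompactSpace X] [T2Space X] [SecondCountableTopology X] [MeasurableSpace X] [BorelSpace X]
    (K : KS X) (p : X), Nonempty (LD K.C0 K.M K.Balls p)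

/-- H1. bounded `L¹` norm: smooth ω-psh functions decreasing to something not identically `-∞`.  (uses S1, S2, S9)
[open-closed argument with sub-mean values over balls in charts] -/
def H1_stmt : Prop :=
  ∀ (X : Type) [TopologicalSpace X] [CompactSpace X] [T2Space X] [SecondCountableTopology X] [ConnectedSpace X]
    [MeasurableSpace X] [BorelSpace X] (K : KS X) (f : ℕ → X → ℝ), (∀ j, f j ∈ K.C0) → (∀ j x, f (j + 1) x ≤ f j x) →
    (∀ j x, f j x ≤ 0) → (∃ (x0 : X) (c : ℝ), ∀ j, c ≤ f j x0) →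
    ∃ C : ℝ, ∀ j, ∫ x, -(f j x) ∂K.Ms (fun _ => 0) (fun _ => 0) ≤ C

/-! ## G. the curve -/

/-- the surface with a smooth curve `D = {S = 0}`, `S = |s|²`, `-(1/2) log S` a potential of `ω` off `D` -/
structure KSD (X : Type) [TopologicalSpace X] extends KS X where
  S : X → ℝ
  S_loc : ∀ i : Fin n, (∀ y ∈ (e i).target, S ((e i).symm y) = Real.exp (-2 * ρ i y)) ∨
    (∀ y ∈ (e i).target, S ((e i).symm y) = ‖y.2‖ ^ 2 * Real.exp (-2 * ρ i y))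
  S_le : ∀ x, S x ≤ Real.exp (-2)

/-- `μ = ω ∧ [D]`: in a chart with `D = {w = 0}`, `dμ = (1/2π) Δ_z ρ (z,0) dλ(z)` -/
def KSD.IsArea {X : Type} [TopologicalSpace X] [MeasurableSpace X] (K : KSD X) (μ : Measure X) : Prop :=
  IsFiniteMeasure μ ∧ μ {x | 0 < K.S x} = 0 ∧
  ∀ i : Fin K.n, (∀ y ∈ (K.e i).target, K.S ((K.e i).symm y) = ‖y.2‖ ^ 2 * Real.exp (-2 * K.ρ i y)) →
    ∀ A : Set X, MeasurableSet A → A ⊆ (K.e i).source →
      μ A = ∫⁻ z in {z : ℂ | ((z, 0) : C2) ∈ (K.e i).target ∧ (K.e i).symm (z, 0) ∈ A},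
        ENNReal.ofReal (hA (K.ρ i) (z, 0) / (2 * π))

/-- G1. the soft truncations are smooth ω-psh.  (uses S3, C2)  [in a curve chart `ρ + soft = (1/2) log (|w|² + ε e^{2ρ})`] -/
def G1_stmt : Prop :=
  ∀ (X : Type) [TopologicalSpace X] [CompactSpace X] [T2Space X] (K : KSD X), Continuous K.S ∧ (∀ x, 0 ≤ K.S x) ∧
    ∀ Λ : ℝ, 1 ≤ Λ → soft K.S Λ ∈ K.toKS.PS

/-- G2. `∫ L ω² < ∞`.  (uses S1, S2, G1) -/
def G2_stmt : Prop :=
  ∀ (X : Type) [TopologicalSpace X] [CompactSpace X] [T2Space X] [SecondCountableTopology X] [MeasurableSpace X] [BorelSpace X]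
    (K : KSD X), ∃ c : ℝ, ∀ Λ : ℝ, 1 ≤ Λ → ∫ x, -(soft K.S Λ x) ∂K.toKS.Ms (fun _ => 0) (fun _ => 0) ≤ c

/-- G3. local Poincaré-Lelong formula.  (uses B7)
[B7 with `(1/2) log (|w|²+ε)`, whose `hC` is `2ε/(|w|²+ε)²`, an approximate identity of mass `2π`; `ε → 0`.] -/
def G3_stmt : Prop :=
  ∀ (U : Set C2) (h ρ : C2 → ℝ), IsOpen U → ContDiff ℝ ∞ h → HasCompactSupport h → tsupport h ⊆ U → ContDiffOn ℝ ∞ ρ U →
    Integrable (fun y : C2 => Real.log ‖y.2‖ * dens h ρ y) ∧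
    ∫ y : C2, Real.log ‖y.2‖ * dens h ρ y = ∫ z : ℂ, h (z, 0) * (hA ρ (z, 0) / (2 * π))

/-- G4. weak convergence of `Ms (soft S Λ) 0` to `μ`.  (uses G1, G3, B7, S1-S6, S9, S10)
[smooth `h = Σ χ_i h`; in chart `i`: `∫ h dens (pot soft) ρ = ∫ (pot soft) dens h ρ → ∫ log|w| dens h ρ` resp. `→ 0`.] -/
def G4_stmt : Prop :=
  ∀ (X : Type) [TopologicalSpace X] [CompactSpace X] [T2Space X] [SecondCountableTopology X] [MeasurableSpace X] [BorelSpace X]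
    (K : KSD X) (μ : Measure X), K.IsArea μ → ∀ h : X → ℝ, Continuous h →
    Tendsto (fun Λ : ℝ => ∫ x, h x ∂K.toKS.Ms (soft K.S Λ) (fun _ => 0)) atTop (𝓝 (∫ x, h x ∂μ))

/-- G5. positivity of `μ` near a point of the curve. -/
def G5_stmt : Prop :=
  ∀ (X : Type) [TopologicalSpace X] [CompactSpace X] [T2Space X] [SecondCountableTopology X] [MeasurableSpace X] [BorelSpace X]
    (K : KSD X) (μ : Measure X), K.IsArea μ → ∀ p : X, K.S p = 0 → ∀ U, IsOpen U → p ∈ U → 0 < μ U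

/-! ## Z. assembly -/

/-- Z1. the abstract theory exists.  (uses R3, S5, S6, S9, D1-D6, O4, O5, S3) -/
def Z1_stmt : Prop :=
  ∀ (X : Type) [TopologicalSpace X] [CompactSpace X] [T2Space X] [SecondCountableTopology X] [ConnectedSpace X]
    [MeasurableSpace X] [BorelSpace X] (K : KS X), ∃ T : MATh X, T.PS = K.PS ∧ T.C0 = K.C0 ∧ T.M = K.M

/-- Z2. the theorem for `KSD`, for functions that are limits of decreasing smooth sequences.  (uses Z1, F12, G1-G5, H1, D1) -/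
def Z2_stmt : Prop :=
  ∀ (X : Type) [TopologicalSpace X] [CompactSpace X] [T2Space X] [SecondCountableTopology X] [ConnectedSpace X]
    [MeasurableSpace X] [BorelSpace X] (K : KSD X) (μ : Measure X), K.IsArea μ → (∃ p, K.S p = 0) →
    ∀ φ : X → EReal, (∃ x, φ x ≠ ⊥) → (∃ f : ℕ → X → ℝ, (∀ j, f j ∈ K.toKS.PS) ∧ DecTo f φ) →
    ¬ (∀ f : ℕ → X → ℝ, (∀ j, f j ∈ K.toKS.PS) → DecTo f φ → ∀ h : X → ℝ, Continuous h →
      Tendsto (fun j => ∫ x, h x ∂K.toKS.Ms (f j) (f j)) atTop (𝓝 (∫ x, h x ∂μ)))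

end

end MAP
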