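import Pool.Agent.helper50.MA.Z5a
import Pool.Agent.helper3.MA.A6
import Pool.Agent.helper4.MA.C2

set_option autoImplicit false

open MeasureTheory Set Filter Topology Complex
open scoped ContDiff Real

namespace MAP

/-- the real determinant of a complex linear map -/
theorem C1_detR (L : C2 →L[ℂ] C2) : |(L.restrictScalars ℝ).det| = ‖L.det‖ ^ 2 := by
  have h : (L.restrictScalars ℝ).det = LinearMap.det ((L : C2 →ₗ[ℂ] C2).restrictScalars ℝ) := rfl
  rw [h, LinearMap.det_restrictScalars, Algebra.norm_complex_apply]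
  have h2 : LinearMap.det (L : C2 →ₗ[ℂ] C2) = L.det := rfl
  rw [h2, Complex.normSq_eq_norm_sq, abs_of_nonneg (by positivity)]

/-- the entries of the Levi form of `w` when `lap w x ξ = lap u y (L ξ)` -/
theorem C1_ent (u w : C2 → ℝ) (x y : C2) (L : C2 →L[ℂ] C2) (_ : ContDiffAt ℝ 2 u y) (hw : ContDiffAt ℝ 2 w x)
    (h : ∀ ξ, lap w x ξ = lap u y (L ξ)) (a b : C2) (ha : L (1, 0) = a) (hb : L (0, 1) = b) :
    hA w x = lap u y a ∧ hC w x = lap u y b ∧ 2 * hB w x = lap u y (a + b) - lap u y a - lap u y b ∧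
      2 * hB' w x = lap u y (a + I • b) - lap u y a - lap u y b := by
  have h1 := h (1, 0)
  have h2 := h (0, 1)
  have h3 := h (1, 1)
  have h4 := h (1, I)
  have e3 : L (1, 1) = a + b := by
    rw [← ha, ← hb, ← map_add]; simp
  have e4 : L (1, I) = a + I • b := by
    rw [← ha, ← hb, ← map_smul, ← map_add]; simp
  rw [ha] at h1
  rw [hb] at h2
  rw [e3] at h3
  rw [e4] at h4
  rw [C2_lap' w x hw] at h1 h2 h3 h4
  simp at h1 h2 h3 h4
  refine ⟨h1, h2, ?_, ?_⟩
  · linarith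
  · linarith

theorem C1_own : C1_stmt := by
  intro U V F u v hU hV hF hm hu hv x hx
  have hFx : ContDiffAt ℂ 2 F x := hF.contDiffAt (hV.mem_nhds hx)
  have hux : ContDiffAt ℝ 2 u (F x) := hu.contDiffAt (hU.mem_nhds (hm hx))
  have hvx : ContDiffAt ℝ 2 v (F x) := hv.contDiffAt (hU.mem_nhds (hm hx))
  have hd : fderiv ℝ F x = (fderiv ℂ F x).restrictScalars ℝ :=
    ((hFx.differentiableAt (by norm_num)).hasFDerivAt.restrictScalars ℝ).fderiv
  have huF : ContDiffAt ℝ 2 (fun y => u (F y)) x := hux.comp x (hFx.restrict_scalars ℝ)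
  have hvF : ContDiffAt ℝ 2 (fun y => v (F y)) x := hvx.comp x (hFx.restrict_scalars ℝ)
  rw [hd, C1_detR, Z5_det]
  obtain ⟨a, ha⟩ : ∃ p : C2, fderiv ℂ F x (1, 0) = p := ⟨_, rfl⟩
  obtain ⟨b, hb⟩ : ∃ p : C2, fderiv ℂ F x (0, 1) = p := ⟨_, rfl⟩
  rw [ha, hb]
  obtain ⟨u1, u2, u3, u4⟩ := C1_ent u _ x (F x) (fderiv ℂ F x) hux huF
    (fun ξ => A6_part1 U V F u hU hV hF hm hu x hx ξ) a b ha hb
  obtain ⟨v1, v2, v3, v4⟩ := C1_ent v _ x (F x) (fderiv ℂ F x) hvx hvF
    (fun ξ => A6_part1 U V F v hU hV hF hm hv x hx ξ) a b ha hb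
  rw [C2_lap' u (F x) hux, C2_lap' u (F x) hux] at u3 u4
  rw [C2_lap' u (F x) hux] at u1 u2 u3 u4
  rw [C2_lap' v (F x) hvx, C2_lap' v (F x) hvx] at v3 v4
  rw [C2_lap' v (F x) hvx] at v1 v2 v3 v4
  simp only [Prod.fst_add, Prod.snd_add, Prod.smul_fst, Prod.smul_snd, add_re, add_im, smul_eq_mul, mul_re, mul_im,
    I_re, I_im, zero_mul, one_mul, zero_sub, zero_add, sub_zero, add_zero] at u3 u4 v3 v4
  have hn : ‖a.1 * b.2 - b.1 * a.2‖ ^ 2 = (a.1.re * b.2.re - a.1.im * b.2.im - (b.1.re * a.2.re - b.1.im * a.2.im)) ^ 2 +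
      (a.1.re * b.2.im + a.1.im * b.2.re - (b.1.re * a.2.im + b.1.im * a.2.re)) ^ 2 := by
    rw [← Complex.normSq_eq_norm_sq, Complex.normSq_apply]
    simp only [sub_re, sub_im, mul_re, mul_im]
    ring
  rw [hn]
  unfold dens
  generalize hA (fun y => u (F y)) x = U1 at *
  generalize hC (fun y => u (F y)) x = U2 at *
  generalize hB (fun y => u (F y)) x = U3 at *
  generalize hB' (fun y => u (F y)) x = U4 at *
  generalize hA (fun y => v (F y)) x = V1 at *
  generalize hC (fun y => v (F y)) x = V2 at *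
  generalize hB (fun y => v (F y)) x = V3 at *
  generalize hB' (fun y => v (F y)) x = V4 at *
  generalize hA u (F x) = u1' at *
  generalize hC u (F x) = u2' at *
  generalize hB u (F x) = u3' at *
  generalize hB' u (F x) = u4' at *
  generalize hA v (F x) = v1' at *
  generalize hC v (F x) = v2' at *
  generalize hB v (F x) = v3' at *
  generalize hB' v (F x) = v4' at *
  have u5 := mul_div_cancel_left₀ U3 (two_ne_zero (α := ℝ))
  have u6 := mul_div_cancel_left₀ U4 (two_ne_zero (α := ℝ))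
  have v5 := mul_div_cancel_left₀ V3 (two_ne_zero (α := ℝ))
  have v6 := mul_div_cancel_left₀ V4 (two_ne_zero (α := ℝ))
  rw [u3] at u5
  rw [u4] at u6
  rw [v3] at v5
  rw [v4] at v6
  rw [← u5, ← u6, ← v5, ← v6, u1, u2, v1, v2]
  ring

end MAP
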