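import Pool.Agent.helper50.MA.Spec2

set_option autoImplicit false

open MeasureTheory Set Filter Topology Complex
open scoped ContDiff Real

namespace MAP

theorem S10 (h7 : S7_stmt) (h9 : S9_stmt) : S10_stmt := by
  intro X _ _ _ _ _ _ K f hf g hg
  obtain ⟨hc, ha, hconv, hfin, haff, hconst, hloc, hpos⟩ := h9 X K
  have h0 : (fun _ => (0:ℝ)) ∈ K.PS := hc 0
  have h1 : (fun _ => (1:ℝ)) ∈ K.PS := hc 1
  have key : ∀ f ∈ K.PS, ∀ g ∈ K.PS, (K.Ms f g).real univ = (K.Ms (fun _ => 0) g).real univ := by
    intro f hf g hg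
    have := h7 X K f hf (fun _ => 0) h0 g hg (fun _ => 1) h1
    have e : K.Ms (fun _ => 1) g = K.Ms (fun _ => 0) g := by
      have := hconst (fun _ => 0) h0 g hg 1
      simpa using this
    rw [e] at this
    simp only [sub_self] at this
    rw [integral_const, integral_const] at this
    simp only [smul_eq_mul, mul_one] at this
    linarith
  rw [key f hf g hg, (hfin _ h0 g hg).2, key g hg _ h0]

end MAP
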