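import Pool.Agent.helper50.MA.Spec2

set_option autoImplicit false

open MeasureTheory Set Filter Topology Complex
open scoped ContDiff Real

namespace MAP

theorem S3_two : (2 : WithTop ℕ∞) ≤ ∞ := by
  exact WithTop.coe_le_coe.2 le_top

theorem S3_lap_congr {u v : C2 → ℝ} {y : C2} (h : u =ᶠ[𝓝 y] v) (ξ : C2) : lap u y ξ = lap v y ξ := by
  have h1 : fderiv ℝ u =ᶠ[𝓝 y] fderiv ℝ v := h.fderiv
  have h2 : fderiv ℝ (fderiv ℝ u) y = fderiv ℝ (fderiv ℝ v) y := h1.fderiv_eq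
  unfold lap D2
  rw [h2]

theorem S3_lap_add {u v : C2 → ℝ} {y : C2} (hu : ContDiffAt ℝ 2 u y) (hv : ContDiffAt ℝ 2 v y) (ξ : C2) :
    lap (fun z => u z + v z) y ξ = lap u y ξ + lap v y ξ := by
  have key : fderiv ℝ (fun z => u z + v z) =ᶠ[𝓝 y] fun z => fderiv ℝ u z + fderiv ℝ v z := by
    have e1 := hu.eventually (by decide)
    have e2 := hv.eventually (by decide)
    filter_upwards [e1, e2] with z hz1 hz2
    exact fderiv_add (hz1.differentiableAt (by decide)) (hz2.differentiableAt (by decide))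
  have d1 : DifferentiableAt ℝ (fderiv ℝ u) y := by
    have := hu.fderiv_right (m := 1) (by norm_num)
    exact this.differentiableAt (by decide)
  have d2 : DifferentiableAt ℝ (fderiv ℝ v) y := by
    have := hv.fderiv_right (m := 1) (by norm_num)
    exact this.differentiableAt (by decide)
  have k2 : fderiv ℝ (fderiv ℝ (fun z => u z + v z)) y = fderiv ℝ (fderiv ℝ u) y + fderiv ℝ (fderiv ℝ v) y := by
    rw [key.fderiv_eq]
    exact fderiv_add d1 d2
  unfold lap D2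
  rw [k2]
  simp only [add_apply]
  ring

theorem S3_lap_neg {u : C2 → ℝ} {y : C2} (ξ : C2) :
    lap (fun z => -(u z)) y ξ = - lap u y ξ := by
  have key : fderiv ℝ (fun z => -(u z)) = fun z => -(fderiv ℝ u z) := by
    funext z
    exact fderiv_neg
  unfold lap D2
  rw [key]
  have : fderiv ℝ (fun z => -(fderiv ℝ u z)) y = -(fderiv ℝ (fderiv ℝ u) y) := fderiv_neg
  rw [this]
  simp only [neg_apply]
  ring

section
variable {X : Type} [TopologicalSpace X] (K : KS X)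

theorem S3_ov_open (i j : Fin K.n) : IsOpen {y | y ∈ (K.e i).target ∧ (K.e i).symm y ∈ (K.e j).source} :=
  (K.e i).symm.isOpen_inter_preimage (K.e j).open_source

theorem S3_trAt (i j : Fin K.n) {y : C2} (hy : y ∈ (K.e i).target) (hj : (K.e i).symm y ∈ (K.e j).source) :
    ContDiffAt ℂ ∞ (fun y => K.e j ((K.e i).symm y)) y :=
  (K.hol i j).contDiffAt ((S3_ov_open K i j).mem_nhds ⟨hy, hj⟩)

theorem S3_ρAt (i : Fin K.n) {y : C2} (hy : y ∈ (K.e i).target) : ContDiffAt ℝ ∞ (K.ρ i) y :=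
  (K.ρ_smooth i).contDiffAt ((K.e i).open_target.mem_nhds hy)

/-- `f` in chart `j` near `y` is `f` in chart `i` after the coordinate change -/
theorem S3_lo_tr (f : X → ℝ) (i j : Fin K.n) {y : C2} (hy : y ∈ (K.e j).target) (hi : (K.e j).symm y ∈ (K.e i).source) :
    K.lo j f =ᶠ[𝓝 y] fun z => K.lo i f (K.e i ((K.e j).symm z)) := by
  filter_upwards [(S3_ov_open K j i).mem_nhds ⟨hy, hi⟩] with z hz
  unfold KS.lo
  rw [(K.e i).left_inv hz.2]

theorem S3_local (f : X → ℝ) (h : ∀ x, ∃ i, x ∈ (K.e i).source ∧ ∃ W ∈ 𝓝 (K.e i x), ContDiffOn ℝ ∞ (K.lo i f) W) :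
    K.Smo f := by
  intro j y hy
  apply ContDiffAt.contDiffWithinAt
  obtain ⟨i, hi, W, hW, hc⟩ := h ((K.e j).symm y)
  have h1 : ContDiffAt ℝ ∞ (K.lo i f) (K.e i ((K.e j).symm y)) := hc.contDiffAt hW
  have h2 : ContDiffAt ℝ ∞ (fun y => K.e i ((K.e j).symm y)) y := (S3_trAt K j i hy hi).restrict_scalars ℝ
  have h3 : ContDiffAt ℝ ∞ (fun z => K.lo i f (K.e i ((K.e j).symm z))) y := ContDiffAt.comp (g := K.lo i f) (f := fun y => K.e i ((K.e j).symm y)) y h1 h2
  exact h3.congr_of_eventuallyEq (S3_lo_tr K f i j hy hi)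

theorem S3_cont (f : X → ℝ) (h : K.Smo f) : Continuous f := by
  rw [continuous_iff_continuousAt]
  intro x
  obtain ⟨i, hi, -⟩ := K.cover x
  have h1 : ContinuousAt (K.lo i f) (K.e i x) :=
    ((h i).contDiffAt ((K.e i).open_target.mem_nhds ((K.e i).map_source hi))).continuousAt
  have h2 : ContinuousAt (K.e i) x := (K.e i).continuousAt hi
  have h3 : ContinuousAt (fun z => K.lo i f (K.e i z)) x := ContinuousAt.comp (f := K.e i) h1 h2
  refine h3.congr ?_
  filter_upwards [(K.e i).open_source.mem_nhds hi] with z hz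
  unfold KS.lo
  rw [(K.e i).left_inv hz]

theorem S3_pot_tr (h6 : A6_stmt) (f : X → ℝ) (hf : K.Smo f) (i j : Fin K.n) {y : C2} (hy : y ∈ (K.e j).target)
    (hi : (K.e j).symm y ∈ (K.e i).source) (ξ : C2) :
    lap (K.pot j f) y ξ = lap (K.pot i f) (K.e i ((K.e j).symm y)) (fderiv ℂ (fun z => K.e i ((K.e j).symm z)) y ξ) := by
  have hyi : K.e i ((K.e j).symm y) ∈ (K.e i).target := (K.e i).map_source hi
  have hoj : ContDiffOn ℝ 2 (K.pot i f) (K.e i).target :=
    ((K.ρ_smooth i).add (hf i)).of_le S3_two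
  have e1 := h6.1 (K.e i).target _ (fun z => K.e i ((K.e j).symm z)) (K.pot i f) (K.e i).open_target (S3_ov_open K j i)
    ((K.hol j i).of_le S3_two) (fun z hz => (K.e i).map_source hz.2) hoj y ⟨hy, hi⟩ ξ
  rw [← e1]
  have hρj : ContDiffAt ℝ 2 (K.ρ j) y := (S3_ρAt K j hy).of_le S3_two
  have hfj : ContDiffAt ℝ 2 (K.lo j f) y :=
    ((hf j).contDiffAt ((K.e j).open_target.mem_nhds hy)).of_le S3_two
  have htr : ContDiffAt ℝ 2 (fun z => K.e i ((K.e j).symm z)) y :=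
    ((S3_trAt K j i hy hi).restrict_scalars ℝ).of_le S3_two
  have hρi : ContDiffAt ℝ 2 (fun z => K.ρ i (K.e i ((K.e j).symm z))) y :=
    ContDiffAt.comp y ((S3_ρAt K i hyi).of_le S3_two) htr
  have a1 : lap (K.pot j f) y ξ = lap (K.ρ j) y ξ + lap (K.lo j f) y ξ := S3_lap_add hρj hfj ξ
  have a2 : lap (fun z => K.pot i f (K.e i ((K.e j).symm z))) y ξ =
      lap (fun z => K.ρ i (K.e i ((K.e j).symm z)) + K.lo j f z) y ξ := by
    apply S3_lap_congr
    filter_upwards [S3_lo_tr K f i j hy hi] with z hz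
    rw [hz]
    rfl
  rw [a1, a2, S3_lap_add hρi hfj ξ, K.compat j i y hy hi ξ]

theorem S3_PS_cont (h3 : A3_stmt) : K.PS ⊆ K.C0 := by
  intro f hf
  refine ⟨S3_cont K f hf.1, fun i => ?_⟩
  rw [h3.2 (K.e i).target (K.pot i f) (K.e i).open_target
    (((K.ρ_smooth i).add (hf.1 i)).of_le S3_two)]
  exact hf.2 i

theorem S3_disc_small (V : Set C2) (hV : IsOpen V) (y : C2) (hy : y ∈ V) : ∃ r > 0, ∀ ξ : C2, ‖ξ‖ < r → disc y ξ ⊆ V := by
  obtain ⟨r, hr, hb⟩ := Metric.isOpen_iff.1 hV y hy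
  refine ⟨r, hr, ?_⟩
  rintro ξ hξ z ⟨ζ, hζ, rfl⟩
  apply hb
  rw [Metric.mem_ball, dist_eq_norm, add_sub_cancel_left, norm_smul]
  calc ‖ζ‖ * ‖ξ‖ ≤ 1 * ‖ξ‖ := by gcongr
    _ < r := by rw [one_mul]; exact hξ

theorem S3_C0_local (h1 : A1_stmt) (h3 : A3_stmt) (h4 : A4_stmt) (h6 : A6_stmt) (f : X → ℝ) (hf : Continuous f)
    (h : ∀ x, ∃ i, x ∈ (K.e i).source ∧ ∃ W : Set C2, IsOpen W ∧ K.e i x ∈ W ∧
      W ⊆ (K.e i).target ∧ PshOn W (K.pot i f)) : f ∈ K.C0 := by
  refine ⟨hf, fun j => ?_⟩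
  have hcont : ContinuousOn (K.pot j f) (K.e j).target := by
    apply ContinuousOn.add (K.ρ_smooth j).continuousOn
    exact hf.comp_continuousOn (K.e j).continuousOn_symm
  refine h4 (K.e j).target (K.pot j f) (K.e j).open_target hcont ?_
  intro y hy
  obtain ⟨i, hi, W, hW, hxW, hWt, hpsh⟩ := h ((K.e j).symm y)
  set F : C2 → C2 := fun z => K.e i ((K.e j).symm z) with hF
  have hFc : ContinuousOn F {y | y ∈ (K.e j).target ∧ (K.e j).symm y ∈ (K.e i).source} := (K.hol j i).continuousOn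
  have hV : IsOpen ({y | y ∈ (K.e j).target ∧ (K.e j).symm y ∈ (K.e i).source} ∩ F ⁻¹' W) :=
    hFc.isOpen_inter_preimage (S3_ov_open K j i) hW
  set V := {y | y ∈ (K.e j).target ∧ (K.e j).symm y ∈ (K.e i).source} ∩ F ⁻¹' W with hVdef
  have hyV : y ∈ V := ⟨⟨hy, hi⟩, hxW⟩
  have p1 : PshOn V (fun z => K.pot i f (F z)) :=
    h6.2 W V F (K.pot i f) hW hV (((K.hol j i).mono inter_subset_left).of_le S3_two)
      (fun z hz => hz.2) hpsh
  have hsm : ∀ z ∈ V, ContDiffAt ℝ 2 (K.ρ j) z ∧ ContDiffAt ℝ 2 (fun w => -(K.ρ i (F w))) z := by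
    intro z hz
    have hzi : F z ∈ (K.e i).target := (K.e i).map_source hz.1.2
    have htr : ContDiffAt ℝ 2 F z :=
      ((S3_trAt K j i hz.1.1 hz.1.2).restrict_scalars ℝ).of_le S3_two
    exact ⟨(S3_ρAt K j hz.1.1).of_le S3_two,
      (ContDiffAt.comp z ((S3_ρAt K i hzi).of_le S3_two) htr).neg⟩
  have p2 : PshOn V (fun z => K.ρ j z + -(K.ρ i (F z))) := by
    rw [h3.2 V _ hV (fun z hz => ((hsm z hz).1.add (hsm z hz).2).contDiffWithinAt)]
    intro z hz ξ
    rw [S3_lap_add (hsm z hz).1 (hsm z hz).2 ξ, S3_lap_neg, K.compat j i z hz.1.1 hz.1.2 ξ]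
    linarith
  have p3 : PshOn V (fun z => K.pot i f (F z) + (K.ρ j z + -(K.ρ i (F z)))) := (h1 V hV _ _ p1 p2).2.1
  have p4 : PshOn V (K.pot j f) := by
    refine (h1 V hV _ _ p3 p3).2.2.2.2.2.1 _ (fun z hz => ?_)
    simp only [KS.pot]
    have : (K.e i).symm (F z) = (K.e j).symm z := (K.e i).left_inv hz.1.2
    rw [this]
    ring
  obtain ⟨r, hr, hd⟩ := S3_disc_small V hV y hyV
  exact ⟨r, hr, fun ξ hξ => p4.2 y ξ (hd ξ hξ)⟩

theorem S3_bump [T2Space X] (i : Fin K.n) (h : C2 → ℝ) (hs : ContDiff ℝ ∞ h) (hc : HasCompactSupport h)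
    (ht : tsupport h ⊆ (K.e i).target) : K.Smo (Set.indicator (K.e i).source (fun x => h (K.e i x))) := by
  classical
  set f := Set.indicator (K.e i).source (fun x => h (K.e i x)) with hf
  have hC : IsCompact ((K.e i).symm '' tsupport h) :=
    IsCompact.image_of_continuousOn hc ((K.e i).continuousOn_symm.mono ht)
  have hcl : IsClosed ((K.e i).symm '' tsupport h) := hC.isClosed
  have hz : ∀ x, x ∉ (K.e i).symm '' tsupport h → f x = 0 := by
    intro x hx
    by_cases hxs : x ∈ (K.e i).source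
    · rw [hf, indicator_of_mem hxs]
      by_contra hne
      exact hx ⟨K.e i x, subset_tsupport h hne, (K.e i).left_inv hxs⟩
    · rw [hf, indicator_of_notMem hxs]
  apply S3_local
  intro x
  by_cases hx : x ∈ (K.e i).source
  · refine ⟨i, hx, (K.e i).target, (K.e i).open_target.mem_nhds ((K.e i).map_source hx), ?_⟩
    refine hs.contDiffOn.congr (fun y hy => ?_)
    simp only [KS.lo]
    rw [hf, indicator_of_mem ((K.e i).map_target hy), (K.e i).right_inv hy]
  · obtain ⟨j, hj, -⟩ := K.cover x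
    have hxC : x ∉ (K.e i).symm '' tsupport h := by
      rintro ⟨y, hy, rfl⟩
      exact hx ((K.e i).map_target (ht hy))
    refine ⟨j, hj, (K.e j).target ∩ (K.e j).symm ⁻¹' ((K.e i).symm '' tsupport h)ᶜ, ?_, ?_⟩
    · apply ((K.e j).symm.isOpen_inter_preimage hcl.isOpen_compl).mem_nhds
      refine ⟨(K.e j).map_source hj, ?_⟩
      simp only [mem_preimage, (K.e j).left_inv hj]
      exact hxC
    · refine (contDiff_const (c := (0:ℝ))).contDiffOn.congr (fun y hy => ?_)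
      exact hz _ hy.2

end

theorem S3 (h1 : A1_stmt) (h3 : A3_stmt) (h4 : A4_stmt) (h6 : A6_stmt) : S3_stmt := by
  intro X _ _ _ K
  refine ⟨fun i h hs hc ht => S3_bump K i h hs hc ht, fun f g hf hg => ⟨fun i => ?_, fun i => ?_⟩, fun c i => ?_,
    S3_cont K, S3_local K, ?_, S3_C0_local K h1 h3 h4 h6, S3_PS_cont K h3⟩
  · exact (hf i).add (hg i)
  · exact (hf i).mul (hg i)
  · exact contDiffOn_const
  · intro f hf h
    refine ⟨hf, fun j y hy ξ => ?_⟩
    obtain ⟨i, hi, hpos⟩ := h ((K.e j).symm y)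
    rw [S3_pot_tr K h6 f hf i j hy hi ξ]
    exact hpos _

end MAP
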