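import Pool.Agent.helper50.MA.Spec2

set_option autoImplicit false

open MeasureTheory Set Filter Topology Complex
open scoped ContDiff Real

namespace MAP

theorem Z1 (hR3 : R3_stmt) (hS3 : S3_stmt) (hS5 : S5_stmt) (hS6 : S6_stmt) (hS9 : S9_stmt) (hD1 : D1_stmt)
    (hD2 : D2_stmt) (hD3 : D3_stmt) (hD4 : D4_stmt) (hO4 : O4_stmt) (hO5 : O5_stmt) : Z1_stmt := by
  intro X _ _ _ _ _ _ _ K
  obtain ⟨hc, ha, hconv, hfin, haff, hconst, hloc, hpos⟩ := hS9 X K
  obtain ⟨hadd, hmax, hcv, hm, haf, hco⟩ := hD2 X K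
  obtain ⟨hst, hen⟩ := hD3 X K
  obtain ⟨-, -, -, -, -, -, -, hPC⟩ := hS3 X K
  have x0 : X := Classical.choice (inferInstance : Nonempty X)
  refine ⟨
    { PS := K.PS
      C0 := K.C0
      M := K.M
      V := (K.Ms (fun _ => 0) (fun _ => 0)).real univ
      V_pos := hpos x0
      ps_c0 := hPC
      cont := fun f hf => hf.1
      const_ps := hc
      add_const := hadd
      max_mem := hmax
      conv_mem := hcv
      richberg := hR3 X K
      fin := fun f hf g hg => (hm f hf g hg).1
      mass := fun f hf g hg => (hm f hf g hg).2.2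
      symm := fun f hf g hg => (hm f hf g hg).2.1
      aff := haf
      const := hco
      stokes := hst
      loc := hD4 X K
      energy := hen
      dense := by
        intro h hh ε hε
        obtain ⟨h', hs, hb⟩ := hS6 X K h hh ε hε
        obtain ⟨C, hC, hC2⟩ := hS5 X K h' hs
        refine ⟨fun x => h' x / C, (hC2 C le_rfl).1, C, hC, fun x => ?_⟩
        have : C * (h' x / C) = h' x := by field_simp
        rw [this]
        exact hb x
      Ball := K.Balls
      ball_open := fun Ω hΩ => (hO4 X K Ω hΩ).1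
      obst := fun Ω hΩ => (hO4 X K Ω hΩ).2
      ld := fun p => Classical.choice (hO5 X K p) }, rfl, rfl, rfl⟩

end MAP
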