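import Pool.Agent.helper50.MA.A1
import Pool.Agent.helper50.MA.C1
import Pool.Agent.helper50.MA.S3
import Pool.Agent.helper50.MA.S10
import Pool.Agent.helper50.MA.Z1
import Pool.Agent.helper63.MA.A2
import Pool.Agent.helper17.MA.A3
import Pool.Agent.helper72.MA.A4
import Pool.Agent.helper97.MA.A5
import Pool.Agent.helper3.MA.A6
import Pool.Agent.helper18.MA.A7
import Pool.Agent.helper13.MA.A8
import Pool.Agent.helper46.MA.B1
import Pool.Agent.helper58.MA.B2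
import Pool.Agent.helper91.MA.B3
import Pool.Agent.helper72.MA.B4
import Pool.Agent.helper21.MA.B5
import Pool.Agent.helper65.MA.B6
import Pool.Agent.helper15.MA.B7
import Pool.Agent.helper20.MA.B8
import Pool.Agent.helper43.MA.B9
import Pool.Agent.helper4.MA.C2
import Pool.Agent.helper17.MA.D1
import Pool.Agent.helper93.MA.D2
import Pool.Agent.helper17.MA.D3
import Pool.Agent.helper45.MA.D4
import Pool.Agent.helper45.MA.D5
import Pool.Agent.helper45.MA.D6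
import Pool.Agent.helper4.MA.F0
import Pool.Agent.helper45.MA.F1
import Pool.Agent.helper89.MA.F10
import Pool.Agent.helper93.MA.F11
import Pool.Agent.helper89.MA.F12
import Pool.Agent.helper58.MA.F2
import Pool.Agent.helper79.MA.F3
import Pool.Agent.helper97.MA.F4
import Pool.Agent.helper11.MA.F5
import Pool.Agent.helper58.MA.F6
import Pool.Agent.helper18.MA.F7
import Pool.Agent.helper93.MA.F8
import Pool.Agent.helper85.MA.F9
import Pool.Agent.helper15.MA.G1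
import Pool.Agent.helper15.MA.G2
import Pool.Agent.helper80.MA.G3
import Pool.Agent.helper17.MA.G4
import Pool.Agent.helper15.MA.G5
import Pool.Agent.helper3.MA.H1
import Pool.Agent.helper80.MA.O1
import Pool.Agent.helper78.MA.O2
import Pool.Agent.helper78.MA.O3
import Pool.Agent.helper78.MA.O4
import Pool.Agent.helper93.MA.O5
import Pool.Agent.helper45.MA.R1
import Pool.Agent.helper63.MA.R2
import Pool.Agent.helper63.MA.R3
import Pool.Agent.helper45.MA.S1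
import Pool.Agent.helper45.MA.S11
import Pool.Agent.helper45.MA.S2
import Pool.Agent.helper97.MA.S4
import Pool.Agent.helper43.MA.S5
import Pool.Agent.helper45.MA.S6
import Pool.Agent.helper6.MA.S7
import Pool.Agent.helper45.MA.S8
import Pool.Agent.helper45.MA.S9
import Pool.Agent.helper78.MA.Z2

set_option autoImplicit false

namespace MAP

theorem cA1 : A1_stmt := A1_own
theorem cA2 : A2_stmt := A2
theorem cA3 : A3_stmt := A3
theorem cA4 : A4_stmt := A4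
theorem cA5 : A5_stmt := A5
theorem cA6 : A6_stmt := A6 cA2 cA3 cA4 cA5
theorem cA7 : A7_stmt := A7 cA4
theorem cA8 : A8_stmt := A8 cA3
theorem cB1 : B1_stmt := B1 cA1 cA2 cA3 cA7 cA8
theorem cB2 : B2_stmt := B2
theorem cB3 : B3_stmt := B3 cA1 cA6 cB1 cB2
theorem cB4 : B4_stmt := B4
theorem cB5 : B5_stmt := B5 cA1 cA7
theorem cB6 : B6_stmt := B6 cA3
theorem cB7 : B7_stmt := B7
theorem cC1 : C1_stmt := C1_own
theorem cC2 : C2_stmt := C2_thm
theorem cB8 : B8_stmt := B8 cA3 cB7 cC2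
theorem cB9 : B9_stmt := B9 cA1 cA2 cA5 cB1 cB3 cB4 cB5 cB6 cB8
theorem cS1 : S1_stmt := S1 cC1 cC2
theorem cS2 : S2_stmt := S2 cC2
theorem cS3 : S3_stmt := S3 cA1 cA3 cA4 cA6
theorem cS4 : S4_stmt := S4 cS3
theorem cS5 : S5_stmt := S5 cC2 cS3
theorem cS6 : S6_stmt := S6 cS3
theorem cS7 : S7_stmt := S7 cS1 cS2 cS3 cS4 cS5 cB7 cC2
theorem cS9 : S9_stmt := S9 cC2 cS1 cS2
theorem cS8 : S8_stmt := S8 cC2 cS1 cS2 cS3 cS5 cS7 cS9
theorem cS10 : S10_stmt := S10 cS7 cS9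
theorem cS11 : S11_stmt := S11 cC2 cS1
theorem cR1 : R1_stmt := R1
theorem cR2 : R2_stmt := R2 cR1 cS3 cA3 cA6
theorem cR3 : R3_stmt := R3 cR2 cA1 cA3 cA5
theorem cD1 : D1_stmt := D1 cS3 cS5 cS6 cS7 cS9 cS10 cR3
theorem cD2 : D2_stmt := D2_thm cD1 cR3 cS9 cS10 cA1
theorem cD3 : D3_stmt := D3 cD1 cS3 cS7 cS8 cS9 cS10 cR3
theorem cD4 : D4_stmt := D4 cD1 cD3 cR3 cS3 cS5 cS6 cS9
theorem cD5 : D5_stmt := D5 cS11 cD1 cR3 cS3
theorem cD6 : D6_stmt := D6 cD1 cR3 cS1 cS2 cS3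
theorem cO1 : O1_stmt := O1 cA1 cA2 cA7 cA8
theorem cO2 : O2_stmt := O2 cB9 cA7 cA8
theorem cO3 : O3_stmt := O3 cA7 cS3
theorem cO4 : O4_stmt := O4 cO1 cO2 cO3 cD6
theorem cO5 : O5_stmt := O5 cS3 cS5 cD5
theorem cZ1 : Z1_stmt := Z1 cR3 cS3 cS5 cS6 cS9 cD1 cD2 cD3 cD4 cO4 cO5
theorem cF0 : F0_stmt := F0
theorem cF1 : F1_stmt := F1
theorem cF2 : F2_stmt := F2 cF1
theorem cF3 : F3_stmt := F3 cF0 cF1
theorem cF4 : F4_stmt := F4 cF2
theorem cF5 : F5_stmt := F5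
theorem cF6 : F6_stmt := F6 cF0 cF2 cF5
theorem cF7 : F7_stmt := F7 cF3
theorem cF8 : F8_stmt := F8 cF2
theorem cF9 : F9_stmt := F9 cF0 cF3 cF5 cF6 cF8
theorem cF10 : F10_stmt := F10
theorem cF11 : F11_stmt := F11
theorem cF12 : F12_stmt := F12 cF4 cF7 cF9 cF10 cF11
theorem cG1 : G1_stmt := G1
theorem cG2 : G2_stmt := G2 cS1 cS2
theorem cG3 : G3_stmt := G3 cB7
theorem cG4 : G4_stmt := G4 cS1 cS2 cS3 cS4 cS6 cS9 cS10 cB7 cG1 cG3
theorem cG5 : G5_stmt := G5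
theorem cH1 : H1_stmt := H1 cS1 cS2
theorem cZ2 : Z2_stmt := Z2 cZ1 cF12 cG1 cG2 cG4 cG5 cH1 cD1

end MAP
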