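import Pool.Agent.helper50.MA.BlCharts
import Pool.Agent.helper50.MA.Chain
import Pool.Agent.helper17.MA.I3
import Pool.Agent.helper17.MA.I5
import Pool.Agent.helper15.MA.I4
import Pool.Agent.helper4.MA.I2
import Pool.Agent.helper91.MA.I6

set_option autoImplicit false

open MeasureTheory Set Topology
open scoped ContDiff Manifold

namespace DMAProblem

theorem bl_symm (k : Fin 4) (y : C2) : (blChart k).symm y = blPoint k y := rfl
theorem bl_coe (k : Fin 4) (x : Bl) : blChart k x = coord k x := rfl
theorem bl_source (k : Fin 4) : (blChart k).source = dom k := rfl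
theorem bl_target (k : Fin 4) : (blChart k).target = univ := rfl

theorem bl_mem (k l : Fin 4) (y : C2) : blPoint k y ∈ dom l ↔ y ∈ trd k l := (I3.1 k l y (blPoint k y) rfl).1
theorem bl_tr (k l : Fin 4) (y : C2) (hy : y ∈ trd k l) : coord l (blPoint k y) = trf k l y :=
  (I3.1 k l y (blPoint k y) rfl).2 hy

instance bl_manifold : IsManifold (modelWithCornersSelf ℂ C2) ∞ Bl := by
  apply isManifold_of_contDiffOn
  rintro e e' ⟨k, rfl⟩ ⟨l, rfl⟩
  have h1 := (I3.2 k l).2
  simp only [Function.comp_def, modelWithCornersSelf_coe, modelWithCornersSelf_coe_symm, id_eq,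
    OpenPartialHomeomorph.trans_source, OpenPartialHomeomorph.symm_source, range_id, inter_univ,
    OpenPartialHomeomorph.coe_trans]
  have hset : (id ⁻¹' ((blChart k).target ∩ (blChart k).symm ⁻¹' (blChart l).source) : Set C2) = trd k l := by
    ext y
    rw [bl_target, bl_source]
    simp only [mem_preimage, id_eq, mem_inter_iff, mem_univ, true_and]
    exact bl_mem k l y
  have h2 : ContDiffOn ℂ ∞ (fun y => blChart l ((blChart k).symm y)) (trd k l) :=
    h1.congr (fun y hy => bl_tr k l y hy)
  rw [hset]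
  exact h2

theorem bl_hol (k : Fin 4) : blChart k ∈ HolCharts Bl :=
  IsManifold.subset_maximalAtlas (mem_range_self k)

theorem bl_pair : ∃ P : AnticanonicalPair Bl, ∀ k : Fin 4, ∀ y : C2,
    P.vol (blChart k) y = vol0 k y ∧ P.sec (blChart k) y = sec0 k y := by
  obtain ⟨h1, h2, y0, hy0⟩ := I5
  have htr : ∀ k l : Fin 4, ∀ y ∈ trd k l, tr (blChart k) (blChart l) =ᶠ[𝓝 y] trf k l := by
    intro k l y hy
    filter_upwards [(I3.2 k l).1.mem_nhds hy] with z hz
    exact bl_tr k l z hz
  obtain ⟨P, hP⟩ := I4 MAP.cA6 Bl 4 blChart vol0 sec0 bl_hol (fun x => I1.2.2.2.2 x)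
    (fun k => (h1 k).1.contDiffOn) (fun k y _ => (h1 k).2.1 y) (fun k => (h1 k).2.2.1.contDiffOn)
    (fun k l y _ hy => by
      have hy' : y ∈ trd k l := (bl_mem k l y).1 hy
      have e1 : tr (blChart k) (blChart l) y = trf k l y := (htr k l y hy').eq_of_nhds
      have e2 : jac (blChart k) (blChart l) y = (fderiv ℂ (trf k l) y).det := by
        unfold jac
        rw [(htr k l y hy').fderiv_eq]
      rw [e1, e2]
      exact h2 k l y hy')
    (fun k y _ => (h1 k).2.2.2.1 y) (fun k y _ => (h1 k).2.2.2.2 y) ⟨2, y0, mem_univ _, hy0⟩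
  exact ⟨P, fun k y => hP k y (mem_univ _)⟩

instance bl_compact : CompactSpace Bl := (I2 I1).1
instance bl_t2 : T2Space Bl := (I2 I1).2.1
instance bl_connected : ConnectedSpace Bl := (I2 I1).2.2

end DMAProblem
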