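import Mathlib

/-!
# The problem MP_0012ff_an: definitions

`X` is a compact connected complex surface.  A Kähler form `ω ∈ c₁(X)` is the Ricci form of a smooth positive volume form `vol`
(equivalently the curvature of a smooth Hermitian metric on the anticanonical bundle `-K_X`), and `D` is the zero divisor of a
holomorphic section `sec` of `-K_X`, assumed smooth.  `dd^c = (i/π) ∂∂bar`.
-/

set_option autoImplicit false

open MeasureTheory Set Filter Topology Complex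
open scoped ContDiff Real Manifold

namespace DMAProblem

noncomputable section

abbrev C2 : Type := ℂ × ℂ

/-- second real derivative `D²u(y)(ξ,η)` -/
def D2 (u : C2 → ℝ) (y ξ η : C2) : ℝ := fderiv ℝ (fderiv ℝ u) y ξ η

/-- Laplacian of `u` along the complex line of direction `ξ`, i.e. `4 Σ u_{j kbar}(y) ξ_j conj(ξ_k)` -/
def lap (u : C2 → ℝ) (y ξ : C2) : ℝ := D2 u y ξ ξ + D2 u y (I • ξ) (I • ξ)

def e1 : C2 := (1, 0)
def e2 : C2 := (0, 1)

/-- Lebesgue density of `(dd^c u)²`, equal to `(8/π²) det (u_{j kbar})` -/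
def maDens (u : C2 → ℝ) (y : C2) : ℝ :=
  (lap u y e1 * lap u y e2 - (D2 u y e1 e2 + D2 u y (I • e1) (I • e2)) ^ 2 -
    (D2 u y e1 (I • e2) - D2 u y (I • e1) e2) ^ 2) / (2 * π ^ 2)

section
variable (X : Type) [TopologicalSpace X] [ChartedSpace C2 X]

/-- holomorphic charts of `X` -/
def HolCharts : Set (OpenPartialHomeomorph X C2) := IsManifold.maximalAtlas (modelWithCornersSelf ℂ C2) ∞ X

/-- coordinate change from `e` to `e'` -/
def tr {X : Type} [TopologicalSpace X] (e e' : OpenPartialHomeomorph X C2) : C2 → C2 := fun y => e' (e.symm y)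

/-- complex Jacobian determinant of the coordinate change -/
def jac {X : Type} [TopologicalSpace X] (e e' : OpenPartialHomeomorph X C2) (y : C2) : ℂ := (fderiv ℂ (tr e e') y).det

/-- A smooth positive volume form on `X` with positive Ricci form, and a section of `-K_X` with smooth non-empty zero divisor `D`. -/
structure AnticanonicalPair where
  /-- density of the volume form in a holomorphic chart -/
  vol : OpenPartialHomeomorph X C2 → C2 → ℝ
  vol_smooth : ∀ e ∈ HolCharts X, ContDiffOn ℝ ∞ (vol e) e.target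
  vol_pos : ∀ e ∈ HolCharts X, ∀ y ∈ e.target, 0 < vol e y
  vol_change : ∀ e ∈ HolCharts X, ∀ e' ∈ HolCharts X, ∀ y ∈ e.target, e.symm y ∈ e'.source →
    vol e y = ‖jac e e' y‖ ^ 2 * vol e' (tr e e' y)
  /-- the Ricci form `-dd^c (1/2) log vol` is positive -/
  ricci_pos : ∀ e ∈ HolCharts X, ∀ y ∈ e.target, ∀ ξ : C2, ξ ≠ 0 → 0 < lap (fun z => -(1 / 2) * Real.log (vol e z)) y ξ
  /-- coefficient of the section of `-K_X` (w.r.t. `∂₁ ∧ ∂₂`) in a holomorphic chart -/
  sec : OpenPartialHomeomorph X C2 → C2 → ℂ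
  sec_hol : ∀ e ∈ HolCharts X, ContDiffOn ℂ ∞ (sec e) e.target
  sec_change : ∀ e ∈ HolCharts X, ∀ e' ∈ HolCharts X, ∀ y ∈ e.target, e.symm y ∈ e'.source →
    sec e' (tr e e' y) = jac e e' y * sec e y
  /-- the zero divisor is smooth (and reduced) -/
  sec_smooth : ∀ e ∈ HolCharts X, ∀ y ∈ e.target, sec e y = 0 → fderiv ℂ (sec e) y ≠ 0
  /-- the zero divisor is not empty -/
  sec_zero : ∃ e ∈ HolCharts X, ∃ y ∈ e.target, sec e y = 0

variable {X}

namespace AnticanonicalPair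

variable (P : AnticanonicalPair X)

/-- local potential of the Kähler form `ω` in the chart `e` -/
def pot (e : OpenPartialHomeomorph X C2) : C2 → ℝ := fun y => -(1 / 2) * Real.log (P.vol e y)

/-- smooth ω-psh functions -/
def SmoothPSH (f : X → ℝ) : Prop :=
  ∀ e ∈ HolCharts X, ContDiffOn ℝ ∞ (fun y => f (e.symm y)) e.target ∧
    ∀ y ∈ e.target, ∀ ξ : C2, 0 ≤ lap (fun z => P.pot e z + f (e.symm z)) y ξ

/-- `ν` is the measure `(ω + dd^c f)²` (`f` smooth) -/
def IsMA [MeasurableSpace X] (f : X → ℝ) (ν : Measure X) : Prop :=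
  ∀ e ∈ HolCharts X, ∀ A : Set X, MeasurableSet A → A ⊆ e.source →
    ν A = ∫⁻ y in e '' A, ENNReal.ofReal (maDens (fun z => P.pot e z + f (e.symm z)) y)

/-- `u : U → [-∞, ∞)` is plurisubharmonic: upper semicontinuous with the sub-mean value property on complex discs
(the mean of `u` over the circle is the infimum of the means of continuous `h ≥ u`) -/
def PshE (U : Set C2) (u : C2 → EReal) : Prop :=
  UpperSemicontinuousOn u U ∧ (∀ y ∈ U, u y < ⊤) ∧
    ∀ y ξ : C2, (∀ ζ : ℂ, ‖ζ‖ ≤ 1 → y + ζ • ξ ∈ U) → ∀ h : ℝ → ℝ, Continuous h →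
      (∀ θ : ℝ, u (y + cexp (θ * I) • ξ) ≤ ((h θ : ℝ) : EReal)) →
      u y ≤ (((2 * π)⁻¹ * ∫ θ in (0 : ℝ)..(2 * π), h θ : ℝ) : EReal)

/-- `φ ∈ PSH(X, ω)` -/
def PSH (φ : X → EReal) : Prop :=
  (∃ x, φ x ≠ ⊥) ∧ ∀ e ∈ HolCharts X, PshE e.target (fun y => φ (e.symm y) + ((P.pot e y : ℝ) : EReal))

/-- `φ ∈ DMA(X, ω)` with `(ω + dd^c φ)² = μ` -/
def InDMA [MeasurableSpace X] (φ : X → EReal) (μ : Measure X) : Prop :=
  ∀ (f : ℕ → X → ℝ) (ν : ℕ → Measure X), (∀ j, P.SmoothPSH (f j)) → (∀ j, P.IsMA (f j) (ν j)) →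
    (∀ j x, f (j + 1) x ≤ f j x) → (∀ x, Tendsto (fun j => ((f j x : ℝ) : EReal)) atTop (𝓝 (φ x))) →
    ∀ h : X → ℝ, Continuous h → Tendsto (fun j => ∫ x, h x ∂ν j) atTop (𝓝 (∫ x, h x ∂μ))

/-- the curve `D` -/
def curve : Set X := {x | ∃ e ∈ HolCharts X, x ∈ e.source ∧ P.sec e (e x) = 0}

/-- `μ = ω ∧ [D]`, the area measure of `D`: carried by `D`, and in every holomorphic chart `(z, w)` in which `D = {w = 0}` it is
`(1/2π) Δ_z (pot) (z, 0) dλ(z)`, the coefficient of `dd^c pot` restricted to `D` -/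
def IsArea [MeasurableSpace X] (μ : Measure X) : Prop :=
  IsFiniteMeasure μ ∧ μ (P.curve)ᶜ = 0 ∧
  ∀ e ∈ HolCharts X, (∀ y ∈ e.target, P.sec e y = 0 ↔ y.2 = 0) → ∀ A : Set X, MeasurableSet A → A ⊆ e.source →
    μ A = ∫⁻ z in {z : ℂ | ((z, 0) : C2) ∈ e.target ∧ e.symm (z, 0) ∈ A}, ENNReal.ofReal (lap (P.pot e) (z, 0) e1 / (2 * π))

end AnticanonicalPair
end

/-- The negative answer: no `φ ∈ DMA(X, ω)` has `(ω + dd^c φ)² = ω ∧ [D]`. -/
def Answer : Prop :=
  ∀ (X : Type) [TopologicalSpace X] [ChartedSpace C2 X] [IsManifold (modelWithCornersSelf ℂ C2) ∞ X]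
    [CompactSpace X] [T2Space X] [ConnectedSpace X] [MeasurableSpace X] [BorelSpace X]
    (P : AnticanonicalPair X) (μ : Measure X), P.IsArea μ → ¬ ∃ φ : X → EReal, P.PSH φ ∧ P.InDMA φ μ

end

end DMAProblem
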