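import Pool.Agent.helper50.MA.Spec2
import Pool.Agent.helper50.MA.Problem

/-!
# PROJECT ma  (MP_0012ff_an).  Spec 3: Blocki-Kolodziej regularisation and the translation to the problem's statement.

`Problem.lean` holds the final definitions (`DMAProblem.Answer`).  `DMAProblem.lap = MAP.lap`, `DMAProblem.D2 = MAP.D2` by `rfl`,
`DMAProblem.maDens u y = MAP.dens u u y` by `ring`.
-/

set_option autoImplicit false

open MeasureTheory Set Filter Topology Complex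
open scoped ContDiff Real

namespace MAP

noncomputable section

/-- smoothing kernels on `ℂ²`, invariant under `y ↦ e^{iθ} y` -/
def IsKer (χ : C2 → ℝ) : Prop :=
  ContDiff ℝ ∞ χ ∧ (∀ y, 0 ≤ χ y) ∧ (∀ y, 1 ≤ nsq y → χ y = 0) ∧ ∫ y, χ y = 1 ∧
    ∀ (ζ : ℂ) (y : C2), ‖ζ‖ = 1 → χ (ζ • y) = χ y

/-- convolution -/
def cv (χ u : C2 → ℝ) (δ : ℝ) (x : C2) : ℝ := ∫ y, χ y * u (x + δ • y)

/-- locally bounded (upper semicontinuous) psh functions -/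
def PshB (U : Set C2) (u : C2 → ℝ) : Prop :=
  UpperSemicontinuousOn u U ∧ (∀ K, K ⊆ U → IsCompact K → ∃ m : ℝ, ∀ x ∈ K, |u x| ≤ m) ∧
    ∀ x ξ : C2, disc x ξ ⊆ U → u x ≤ mean u x ξ

/-- K0. -/
def K0_stmt : Prop := ∃ χ : C2 → ℝ, IsKer χ

/-- K1. one-variable tools: circle means increase; three-circles bound.
[usc maximum principle against a harmonic polynomial `P ≥ h ≥ u` on the circle, resp. against `a + (b-a) log(|ζ|/s)/log(1/s)` on the annulus] -/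
def K1_stmt : Prop :=
  (∀ (U : Set C2) (u : C2 → ℝ) (x ξ : C2) (s t : ℝ), IsOpen U → PshB U u → disc x ξ ⊆ U → 0 ≤ s → s ≤ t → t ≤ 1 →
    mean u x (s • ξ) ≤ mean u x (t • ξ)) ∧
  (∀ (U : Set C2) (u : C2 → ℝ) (x ξ : C2) (s a b : ℝ), IsOpen U → PshB U u → disc x ξ ⊆ U → 0 < s → s < 1 →
    (∀ ζ : ℂ, ‖ζ‖ = s → u (x + ζ • ξ) ≤ a) → (∀ ζ : ℂ, ‖ζ‖ = 1 → u (x + ζ • ξ) ≤ b) →
    ∀ ζ : ℂ, s ≤ ‖ζ‖ → ‖ζ‖ ≤ 1 → u (x + ζ • ξ) ≤ a + (b - a) * (Real.log (‖ζ‖ / s) / Real.log (1 / s)))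

/-- K2. convolution of a bounded psh function: smooth, psh, decreasing in `δ ↓ 0` to `u`.  (uses K1)
[`cv χ u δ x = ∫ χ(y) mean u x (δ y) dy` by rotation invariance] -/
def K2_stmt : Prop :=
  ∀ (χ : C2 → ℝ) (U K : Set C2) (u : C2 → ℝ), IsKer χ → IsOpen U → PshB U u → IsCompact K → K ⊆ U →
    ∃ (W : Set C2) (δ0 : ℝ), IsOpen W ∧ K ⊆ W ∧ W ⊆ U ∧ 0 < δ0 ∧
      (∀ δ : ℝ, 0 < δ → δ ≤ δ0 → ContDiffOn ℝ ∞ (cv χ u δ) W ∧ PshOn W (cv χ u δ)) ∧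
      (∀ x ∈ W, ∀ δ δ' : ℝ, 0 < δ → δ ≤ δ' → δ' ≤ δ0 → cv χ u δ x ≤ cv χ u δ' x) ∧
      (∀ x ∈ W, ∀ δ : ℝ, 0 < δ → δ ≤ δ0 → u x ≤ cv χ u δ x) ∧
      (∀ x ∈ W, Tendsto (fun δ : ℝ => cv χ u δ x) (𝓝[>] 0) (𝓝 (u x)))

/-- K3. sup over small balls hardly depends on the scale.  (uses K1 (2))  [log-convexity of `δ ↦ sup_{B(x,δ)} u`; usc attains its max] -/
def K3_stmt : Prop :=
  ∀ (U K : Set C2) (u : C2 → ℝ) (A ε : ℝ), IsOpen U → PshB U u → IsCompact K → K ⊆ U → 1 ≤ A → 0 < ε →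
    ∃ δ0 : ℝ, 0 < δ0 ∧ ∀ δ : ℝ, 0 < δ → δ < δ0 → ∀ x ∈ K, ∀ y : C2, nsq (y - x) ≤ (A * δ) ^ 2 →
      ∃ y' : C2, nsq (y' - x) ≤ (δ / A) ^ 2 ∧ u y ≤ u y' + ε

/-- K4. (1) convolutions in two holomorphic charts are close; (2) continuous functions.  (uses K3)
[`M = sup_{B(z,3δ)} u`; for `y0 ∈ B(z,δ)`: `M - u y0 ≥ avg_{B(y0,2δ)} (M-u) ≥ (1/16) avg_{B(z,δ)} (M-u)`, so
`0 ≤ M - cv u δ z ≤ C (sup_{B(z,3δ)} u - sup_{B(z,δ)} u)`; ball means from circle means by rotation invariance.] -/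
def K4_stmt : Prop :=
  (∀ (χ : C2 → ℝ) (U V K : Set C2) (F G : C2 → C2) (u : C2 → ℝ) (ε : ℝ), IsKer χ → IsOpen U → IsOpen V →
    ContDiffOn ℂ 1 F V → ContDiffOn ℂ 1 G U → MapsTo F V U → MapsTo G U V → (∀ x ∈ V, G (F x) = x) → (∀ y ∈ U, F (G y) = y) →
    PshB U u → PshB V (fun y => u (F y)) → IsCompact K → K ⊆ V → 0 < ε →
    ∃ δ0 : ℝ, 0 < δ0 ∧ ∀ δ : ℝ, 0 < δ → δ < δ0 → ∀ x ∈ K, |cv χ (fun y => u (F y)) δ x - cv χ u δ (F x)| ≤ ε) ∧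
  (∀ (χ : C2 → ℝ) (U K : Set C2) (H : C2 → ℝ) (ε : ℝ), IsKer χ → IsOpen U → ContinuousOn H U → IsCompact K → K ⊆ U → 0 < ε →
    ∃ δ0 : ℝ, 0 < δ0 ∧ ∀ δ : ℝ, 0 < δ → δ < δ0 → ∀ x ∈ K, |cv χ H δ x - H x| ≤ ε)

/-- K5. regularisation of bounded ω-psh functions.  (uses K0, K2, K4, R2, A3)
[`t_k = 2^{-k}`, `v_i = (1-t_k) (cv χ (pot i φ) δ_k - ρ_i) + κ t_k (5/8 R_i² - |y-c_i|²)`, glue by R2 with small `σ_k`; on overlaps the
convolutions differ by `o(1)` (K4, `ρ_j ∘ tr - ρ_i` continuous, `lap = 0`); add constants to make the sequence decreasing.] -/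
def K5_stmt : Prop :=
  ∀ (X : Type) [TopologicalSpace X] [CompactSpace X] [T2Space X] (K : KS X) (φ : X → ℝ), (∃ m : ℝ, ∀ x, |φ x| ≤ m) →
    (∀ i, PshB (K.e i).target (K.pot i φ)) →
    ∃ f : ℕ → X → ℝ, (∀ j, f j ∈ K.PS) ∧ (∀ j x, f (j + 1) x ≤ f j x) ∧ ∀ x, Tendsto (fun j => f j x) atTop (𝓝 (φ x))

/-- K6. truncation.  [`h_n θ = sup_t (g t - n|t-θ|)` are continuous and decrease to the usc function `g` on the circle] -/
def K6_stmt : Prop :=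
  ∀ (U : Set C2) (u : C2 → EReal) (v : C2 → ℝ), IsOpen U → DMAProblem.AnticanonicalPair.PshE U u → PshOn U v →
    PshB U (fun x => (max (u x) ((v x : ℝ) : EReal)).toReal)

/-- K7. regularisation of general ω-psh functions.  (uses K5, K6, A3)
[truncate at `-j`, K5, then a diagonal sequence: by compactness (Dini) `f^{(j+1)}_k < g_j + 2^{-j}` for large `k`; add constants.] -/
def K7_stmt : Prop :=
  ∀ (X : Type) [TopologicalSpace X] [CompactSpace X] [T2Space X] (K : KS X) (φ : X → EReal),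
    (∀ i, DMAProblem.AnticanonicalPair.PshE (K.e i).target (fun y => φ ((K.e i).symm y) + ((K.ρ i y : ℝ) : EReal))) →
    ∃ f : ℕ → X → ℝ, (∀ j, f j ∈ K.PS) ∧ DecTo f φ

/-- Z3. the theorem for `KSD` and general ω-psh `φ`.  (uses Z2, K7) -/
def Z3_stmt : Prop :=
  ∀ (X : Type) [TopologicalSpace X] [CompactSpace X] [T2Space X] [SecondCountableTopology X] [ConnectedSpace X]
    [MeasurableSpace X] [BorelSpace X] (K : KSD X) (μ : Measure X), K.IsArea μ → (∃ p, K.S p = 0) →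
    ∀ φ : X → EReal, (∃ x, φ x ≠ ⊥) →
    (∀ i, DMAProblem.AnticanonicalPair.PshE (K.e i).target (fun y => φ ((K.e i).symm y) + ((K.ρ i y : ℝ) : EReal))) →
    ¬ (∀ f : ℕ → X → ℝ, (∀ j, f j ∈ K.toKS.PS) → DecTo f φ → ∀ h : X → ℝ, Continuous h →
      Tendsto (fun j => ∫ x, h x ∂K.toKS.Ms (f j) (f j)) atTop (𝓝 (∫ x, h x ∂μ)))

open DMAProblem in
/-- `K` is obtained from the anticanonical pair `P` -/
def KSD.From {X : Type} [TopologicalSpace X] [ChartedSpace DMAProblem.C2 X] (K : KSD X) (P : AnticanonicalPair X) : Prop :=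
  (∀ i, K.e i ∈ HolCharts X) ∧
  (∀ i, ∀ y ∈ (K.e i).target, ∀ ξ : MAP.C2, MAP.lap (K.ρ i) y ξ = MAP.lap (P.pot (K.e i)) y ξ) ∧
  (∀ x, K.S x = 0 ↔ x ∈ P.curve) ∧
  (∀ i, (∀ y ∈ (K.e i).target, K.S ((K.e i).symm y) = ‖y.2‖ ^ 2 * Real.exp (-2 * K.ρ i y)) →
    ∀ y ∈ (K.e i).target, P.sec (K.e i) y = 0 ↔ y.2 = 0)

open DMAProblem in
/-- Z4. construction of `K`.  [`S = t |sec|² vol`, `t` small constant; off `D`: shrink a chart so that `sec ≠ 0`, `ρ = pot - log|sec| - (1/2) log t`;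
at `p ∈ D`: compose with the local inverse of `y ↦ (y₁ or y₂, sec e y)` (`ContDiffAt.toOpenPartialHomeomorph` over `ℂ`), then
`sec' = w · J`, `J ≠ 0`, `ρ = pot' - log|J| - (1/2) log t`; `log|holomorphic|` has `lap = 0`.  Finite subcover by small balls; restrict charts.] -/
def Z4_stmt : Prop :=
  ∀ (X : Type) [TopologicalSpace X] [ChartedSpace DMAProblem.C2 X] [IsManifold (modelWithCornersSelf ℂ DMAProblem.C2) ∞ X]
    [CompactSpace X] [T2Space X] (P : AnticanonicalPair X), ∃ K : KSD X, K.From P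

open DMAProblem in
/-- Z5. translation.  (uses S1, S3, A3, C1, C2)
[(c): `PshE` is invariant under adding a smooth function with `lap = 0`, whose circle means are its values by A3.] -/
def Z5_stmt : Prop :=
  ∀ (X : Type) [TopologicalSpace X] [ChartedSpace DMAProblem.C2 X] [IsManifold (modelWithCornersSelf ℂ DMAProblem.C2) ∞ X]
    [CompactSpace X] [T2Space X] [SecondCountableTopology X] [MeasurableSpace X] [BorelSpace X]
    (P : AnticanonicalPair X) (K : KSD X), K.From P →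
    (∀ f : X → ℝ, f ∈ K.toKS.PS → P.SmoothPSH f) ∧
    (∀ f ∈ K.toKS.PS, P.IsMA f (K.toKS.Ms f f)) ∧
    (∀ φ : X → EReal, P.PSH φ →
      ∀ i, AnticanonicalPair.PshE (K.e i).target (fun y => φ ((K.e i).symm y) + ((K.ρ i y : ℝ) : EReal))) ∧
    (∀ μ : Measure X, P.IsArea μ → K.IsArea μ)

/-- Z6. the answer.  (uses Z3, Z4, Z5) -/
def Z6_stmt : Prop := DMAProblem.Answer

end

end MAP
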