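import Pool.Agent.helper50.MA.Spec1

set_option autoImplicit false

open MeasureTheory Set Filter Topology Complex
open scoped ContDiff Real

namespace MAP

theorem A1_circ {U : Set C2} {x ξ : C2} (hd : disc x ξ ⊆ U) (θ : ℝ) : x + cexp (θ * I) • ξ ∈ U :=
  hd ⟨cexp (θ * I), by rw [Complex.norm_exp_ofReal_mul_I], rfl⟩

theorem A1_int {U : Set C2} {u : C2 → ℝ} (hu : ContinuousOn u U) {x ξ : C2} (hd : disc x ξ ⊆ U) :
    Continuous fun θ : ℝ => u (x + cexp (θ * I) • ξ) :=
  hu.comp_continuous (by fun_prop) (A1_circ hd)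

theorem A1_mono {U : Set C2} {u v : C2 → ℝ} (hu : ContinuousOn u U) (hv : ContinuousOn v U) {x ξ : C2} (hd : disc x ξ ⊆ U)
    (h : ∀ y ∈ U, u y ≤ v y) : mean u x ξ ≤ mean v x ξ := by
  unfold mean
  apply mul_le_mul_of_nonneg_left _ (by positivity)
  apply intervalIntegral.integral_mono_on (by positivity) ((A1_int hu hd).intervalIntegrable _ _)
    ((A1_int hv hd).intervalIntegrable _ _)
  intro θ _
  exact h _ (A1_circ hd θ)

theorem A1_congr {U : Set C2} {u v : C2 → ℝ} {x ξ : C2} (hd : disc x ξ ⊆ U)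
    (h : ∀ y ∈ U, u y = v y) : mean u x ξ = mean v x ξ := by
  unfold mean
  congr 1
  apply intervalIntegral.integral_congr
  intro θ _
  exact h _ (A1_circ hd θ)

theorem A1_own : A1_stmt := by
  intro U hU u v hu hv
  refine ⟨⟨hu.1.sup hv.1, ?_⟩, ⟨hu.1.add hv.1, ?_⟩, fun c hc => ⟨continuousOn_const.mul hu.1, ?_⟩,
    fun c => ⟨hu.1.add continuousOn_const, ?_⟩, fun V hV => ⟨hu.1.mono hV, fun x ξ hd => hu.2 x ξ (hd.trans hV)⟩,
    fun w hw => ⟨hu.1.congr hw, ?_⟩, fun h => ⟨?_, ?_⟩⟩
  · intro x ξ hd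
    refine max_le ((hu.2 x ξ hd).trans ?_) ((hv.2 x ξ hd).trans ?_)
    · exact A1_mono hu.1 (hu.1.sup hv.1) hd (fun y _ => le_max_left _ _)
    · exact A1_mono hv.1 (hu.1.sup hv.1) hd (fun y _ => le_max_right _ _)
  · intro x ξ hd
    have : mean (fun x => u x + v x) x ξ = mean u x ξ + mean v x ξ := by
      unfold mean
      rw [intervalIntegral.integral_add ((A1_int hu.1 hd).intervalIntegrable _ _)
        ((A1_int hv.1 hd).intervalIntegrable _ _)]
      ring
    rw [this]
    exact add_le_add (hu.2 x ξ hd) (hv.2 x ξ hd)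
  · intro x ξ hd
    have : mean (fun x => c * u x) x ξ = c * mean u x ξ := by
      unfold mean
      rw [intervalIntegral.integral_const_mul]
      ring
    rw [this]
    exact mul_le_mul_of_nonneg_left (hu.2 x ξ hd) hc
  · intro x ξ hd
    have : mean (fun x => u x + c) x ξ = mean u x ξ + c := by
      unfold mean
      rw [intervalIntegral.integral_add ((A1_int hu.1 hd).intervalIntegrable _ _) intervalIntegrable_const,
        intervalIntegral.integral_const, sub_zero, smul_eq_mul, mul_add, inv_mul_cancel_left₀ (by positivity)]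
    rw [this]
    have := hu.2 x ξ hd
    linarith
  · intro x ξ hd
    have hxU : x ∈ U := hd ⟨0, by simp, by simp⟩
    rw [hw x hxU, A1_congr hd hw]
    exact hu.2 x ξ hd
  · exact hu.1.comp (by fun_prop) (fun y hy => hy)
  · intro x ξ hd
    have h1 : disc (x + h) ξ ⊆ U := by
      rintro y ⟨ζ, hζ, rfl⟩
      have := hd ⟨ζ, hζ, rfl⟩
      change x + ζ • ξ + h ∈ U at this
      rwa [add_right_comm] at this
    have h2 := hu.2 (x + h) ξ h1
    have h3 : mean (fun x => u (x + h)) x ξ = mean u (x + h) ξ := by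
      unfold mean
      congr 2
      funext θ
      rw [add_right_comm]
    rw [h3]
    exact h2

end MAP
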