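import Pool.Agent.helper50.MA.SpecI
import Pool.Agent.helper20.MA.I1

/-!
# The complex structure of `Bl`: four standard charts

`blChart k` is the inverse of the parametrisation `y ↦ (ℓ, m)` with homogeneous coordinates `parl k y`, `parm k y`.
-/

set_option autoImplicit false

open Set Topology
open scoped ContDiff Manifold

namespace DMAProblem

noncomputable section

/-- the point of `Bl` with parameters `y` in the `k`-th standard chart -/
def blPoint (k : Fin 4) (y : C2) : Bl := ⟨(proj (parl k y), proj (parm k y)), I1.1 k y⟩

/-- the `k`-th standard chart of `Bl` -/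
def blChart (k : Fin 4) : OpenPartialHomeomorph Bl C2 where
  toFun := coord k
  invFun := blPoint k
  source := dom k
  target := univ
  map_source' := fun _ _ => mem_univ _
  map_target' := fun y _ => (I1.2.1 k y (blPoint k y) rfl).1
  left_inv' := fun x hx => Subtype.ext (I1.2.2.1 k x hx).symm
  right_inv' := fun y _ => (I1.2.1 k y (blPoint k y) rfl).2
  open_source := (I1.2.2.2.1 k).1
  open_target := isOpen_univ
  continuousOn_toFun := (I1.2.2.2.1 k).2.1
  continuousOn_invFun := ((I1.2.2.2.1 k).2.2.subtype_mk _).continuousOn

/-- the complex structure of `Bl` -/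
instance : ChartedSpace C2 Bl where
  atlas := range blChart
  chartAt x := blChart (Classical.choose (I1.2.2.2.2 x))
  mem_chart_source x := Classical.choose_spec (I1.2.2.2.2 x)
  chart_mem_atlas _ := mem_range_self _

end

end DMAProblem
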