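import Pool.Agent.helper50.MA.Spec3

set_option autoImplicit false

open MeasureTheory Set Filter Topology Complex
open scoped ContDiff Real

namespace MAP

/-- inf-convolution from above of a bounded function -/
noncomputable def K6_h (G : ℝ → ℝ) (n : ℕ) (θ : ℝ) : ℝ := ⨆ t : ℝ, (G t - n * |θ - t|)

theorem K6_bdd (G : ℝ → ℝ) (B : ℝ) (hB : ∀ t, |G t| ≤ B) (n : ℕ) (θ : ℝ) :
    BddAbove (range fun t : ℝ => (G t - n * |θ - t|)) := by
  refine ⟨B, ?_⟩
  rintro _ ⟨t, rfl⟩
  have := (abs_le.1 (hB t)).2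
  have : (0:ℝ) ≤ n * |θ - t| := by positivity
  simp only
  linarith

theorem K6_ge (G : ℝ → ℝ) (B : ℝ) (hB : ∀ t, |G t| ≤ B) (n : ℕ) (θ : ℝ) : G θ ≤ K6_h G n θ := by
  have := le_ciSup (K6_bdd G B hB n θ) θ
  simpa [K6_h] using this

theorem K6_le (G : ℝ → ℝ) (B : ℝ) (hB : ∀ t, |G t| ≤ B) (n : ℕ) (θ : ℝ) : K6_h G n θ ≤ B := by
  apply ciSup_le
  intro t
  have := (abs_le.1 (hB t)).2
  have : (0:ℝ) ≤ n * |θ - t| := by positivity
  linarith

theorem K6_lip (G : ℝ → ℝ) (B : ℝ) (hB : ∀ t, |G t| ≤ B) (n : ℕ) (θ θ' : ℝ) :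
    K6_h G n θ ≤ K6_h G n θ' + n * |θ - θ'| := by
  apply ciSup_le
  intro t
  have h1 : G t - n * |θ' - t| ≤ ⨆ t : ℝ, (G t - n * |θ' - t|) := le_ciSup (K6_bdd G B hB n θ') t
  have h2 : |θ' - t| ≤ |θ - θ'| + |θ - t| := by
    calc |θ' - t| = |(θ' - θ) + (θ - t)| := by ring_nf
      _ ≤ |θ' - θ| + |θ - t| := abs_add_le _ _
      _ = _ := by rw [abs_sub_comm θ' θ]
  have h3 : (n:ℝ) * |θ' - t| ≤ n * (|θ - θ'| + |θ - t|) := by gcongr
  unfold K6_h
  linarith

theorem K6_cont (G : ℝ → ℝ) (B : ℝ) (hB : ∀ t, |G t| ≤ B) (n : ℕ) : Continuous (K6_h G n) := by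
  have : LipschitzWith (n : NNReal) (K6_h G n) := by
    apply LipschitzWith.of_dist_le_mul
    intro θ θ'
    rw [Real.dist_eq, Real.dist_eq, abs_le]
    have h1 := K6_lip G B hB n θ θ'
    have h2 := K6_lip G B hB n θ' θ
    rw [abs_sub_comm θ' θ] at h2
    push_cast
    constructor <;> linarith
  exact this.continuous

theorem K6_lim (G : ℝ → ℝ) (B : ℝ) (hB : ∀ t, |G t| ≤ B) (hG : UpperSemicontinuous G) (θ : ℝ) :
    Tendsto (fun n => K6_h G n θ) atTop (𝓝 (G θ)) := by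
  rw [tendsto_order]
  constructor
  · intro a ha
    exact Eventually.of_forall fun n => lt_of_lt_of_le ha (K6_ge G B hB n θ)
  · intro a ha
    set ε := (a - G θ) / 2 with hε
    have hε0 : 0 < ε := by rw [hε]; linarith
    have h1 : ∀ᶠ t in 𝓝 θ, G t < G θ + ε := hG θ _ (by linarith)
    obtain ⟨δ, hδ, hb⟩ := Metric.eventually_nhds_iff.1 h1
    obtain ⟨N, hN⟩ := exists_nat_gt ((2 * B) / δ)
    filter_upwards [eventually_ge_atTop N] with n hn
    have : K6_h G n θ ≤ G θ + ε := by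
      apply ciSup_le
      intro t
      by_cases ht : dist t θ < δ
      · have a1 := hb ht
        have : (0:ℝ) ≤ n * |θ - t| := by positivity
        linarith
      · rw [not_lt, Real.dist_eq, abs_sub_comm] at ht
        have a1 := (abs_le.1 (hB t)).2
        have a2 := (abs_le.1 (hB θ)).1
        have a3 : (2 * B) / δ < n := lt_of_lt_of_le hN (by exact_mod_cast hn)
        rw [div_lt_iff₀ hδ] at a3
        have a4 : (n:ℝ) * δ ≤ n * |θ - t| := by gcongr
        linarith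
    linarith

theorem K6 : K6_stmt := by
  intro U u v hU hu hv
  obtain ⟨husc, htop, hsub⟩ := hu
  set g : C2 → ℝ := fun x => (max (u x) ((v x : ℝ) : EReal)).toReal with hg
  have hcoe : ∀ x ∈ U, ((g x : ℝ) : EReal) = max (u x) ((v x : ℝ) : EReal) := by
    intro x hx
    apply EReal.coe_toReal
    · exact (max_lt (htop x hx) (EReal.coe_lt_top _)).ne
    · exact (lt_of_lt_of_le (EReal.bot_lt_coe _) (le_max_right _ _)).ne'
  have hug : ∀ x ∈ U, u x ≤ ((g x : ℝ) : EReal) := fun x hx => by rw [hcoe x hx]; exact le_max_left _ _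
  have hvg : ∀ x ∈ U, v x ≤ g x := fun x hx => by
    have : ((v x : ℝ) : EReal) ≤ ((g x : ℝ) : EReal) := by rw [hcoe x hx]; exact le_max_right _ _
    exact_mod_cast this
  have hgu : UpperSemicontinuousOn g U := by
    intro x hx a ha
    have h1 : ((g x : ℝ) : EReal) < (a : EReal) := by exact_mod_cast ha
    rw [hcoe x hx, max_lt_iff] at h1
    have e1 := husc x hx _ h1.1
    have e2 : ∀ᶠ y in 𝓝[U] x, v y < a := (hv.1 x hx).eventually (gt_mem_nhds (by exact_mod_cast h1.2))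
    filter_upwards [e1, e2, self_mem_nhdsWithin] with y h1 h2 h3
    have : ((g y : ℝ) : EReal) < (a : EReal) := by
      rw [hcoe y h3]
      exact max_lt h1 (by exact_mod_cast h2)
    exact_mod_cast this
  have hbd : ∀ K, K ⊆ U → IsCompact K → ∃ m : ℝ, ∀ x ∈ K, |g x| ≤ m := by
    intro K hK hKc
    have h1 : BddAbove (g '' K) := (hgu.mono hK).bddAbove_of_isCompact hKc
    have h2 : BddBelow (v '' K) := hKc.bddBelow_image (hv.1.mono hK)
    obtain ⟨M, hM⟩ := h1
    obtain ⟨m, hm⟩ := h2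
    refine ⟨max |M| |m|, fun x hx => ?_⟩
    have a1 : g x ≤ M := hM (mem_image_of_mem _ hx)
    have a2 : m ≤ v x := hm (mem_image_of_mem _ hx)
    have a3 := hvg x (hK hx)
    rw [abs_le]
    constructor
    · have : -|m| ≤ m := neg_abs_le m
      have : |m| ≤ max |M| |m| := le_max_right _ _
      linarith
    · have : M ≤ |M| := le_abs_self M
      have : |M| ≤ max |M| |m| := le_max_left _ _
      linarith
  refine ⟨hgu, hbd, ?_⟩
  intro x ξ hd
  have hcU : ∀ θ : ℝ, x + cexp (θ * I) • ξ ∈ U := fun θ =>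
    hd ⟨cexp (θ * I), by rw [Complex.norm_exp_ofReal_mul_I], rfl⟩
  have hcc : Continuous fun θ : ℝ => x + cexp (θ * I) • ξ := by fun_prop
  have hxU : x ∈ U := hd ⟨0, by simp, by simp⟩
  set G : ℝ → ℝ := fun θ => g (x + cexp (θ * I) • ξ) with hG
  -- boundedness
  have hdisc : IsCompact (disc x ξ) := by
    have : disc x ξ = (fun ζ : ℂ => x + ζ • ξ) '' Metric.closedBall 0 1 := by
      ext y
      constructor
      · rintro ⟨ζ, hζ, rfl⟩
        exact ⟨ζ, by simpa using hζ, rfl⟩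
      · rintro ⟨ζ, hζ, rfl⟩
        exact ⟨ζ, by simpa using hζ, rfl⟩
    rw [this]
    exact (isCompact_closedBall _ _).image (by fun_prop)
  obtain ⟨B, hB⟩ := hbd _ hd hdisc
  have hGB : ∀ t, |G t| ≤ B := fun t => hB _ ⟨cexp (t * I), by rw [Complex.norm_exp_ofReal_mul_I], rfl⟩
  have hGu : UpperSemicontinuous G := by
    intro θ a ha
    have h1 := hgu _ (hcU θ) a ha
    have h2 : Tendsto (fun θ : ℝ => x + cexp (θ * I) • ξ) (𝓝 θ) (𝓝[U] (x + cexp (θ * I) • ξ)) :=
      tendsto_nhdsWithin_iff.2 ⟨hcc.continuousAt, Eventually.of_forall hcU⟩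
    exact h2.eventually h1
  have key : ∀ n : ℕ, g x ≤ (2 * π)⁻¹ * ∫ θ in (0 : ℝ)..(2 * π), K6_h G n θ := by
    intro n
    have c1 := hsub x ξ (fun ζ hζ => hd ⟨ζ, hζ, rfl⟩) (K6_h G n) (K6_cont G B hGB n) (fun θ => by
      refine le_trans (hug _ (hcU θ)) ?_
      exact_mod_cast K6_ge G B hGB n θ)
    have c2 : v x ≤ (2 * π)⁻¹ * ∫ θ in (0 : ℝ)..(2 * π), K6_h G n θ := by
      refine le_trans (hv.2 x ξ hd) ?_
      unfold mean
      have hvc : Continuous (fun θ : ℝ => v (x + cexp (θ * I) • ξ)) := hv.1.comp_continuous hcc hcU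
      apply mul_le_mul_of_nonneg_left _ (by positivity)
      apply intervalIntegral.integral_mono_on (by positivity) (hvc.intervalIntegrable _ _)
        ((K6_cont G B hGB n).intervalIntegrable _ _)
      intro θ _
      exact (hvg _ (hcU θ)).trans (K6_ge G B hGB n θ)
    have c3 : ((g x : ℝ) : EReal) ≤ (((2 * π)⁻¹ * ∫ θ in (0 : ℝ)..(2 * π), K6_h G n θ : ℝ) : EReal) := by
      rw [hcoe x hxU]
      exact max_le c1 (by exact_mod_cast c2)
    exact_mod_cast c3
  have hlim : Tendsto (fun n => (2 * π)⁻¹ * ∫ θ in (0 : ℝ)..(2 * π), K6_h G n θ) atTop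
      (𝓝 ((2 * π)⁻¹ * ∫ θ in (0 : ℝ)..(2 * π), G θ)) := by
    apply Tendsto.const_mul
    apply intervalIntegral.tendsto_integral_filter_of_dominated_convergence (fun _ => B)
    · exact Eventually.of_forall fun n => (K6_cont G B hGB n).aestronglyMeasurable
    · refine Eventually.of_forall fun n => Eventually.of_forall fun θ _ => ?_
      rw [Real.norm_eq_abs, abs_le]
      exact ⟨(abs_le.1 (hGB θ)).1.trans (K6_ge G B hGB n θ), K6_le G B hGB n θ⟩
    · exact intervalIntegrable_const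
    · exact Eventually.of_forall fun θ _ => K6_lim G B hGB hGu θ
  exact ge_of_tendsto' hlim key

end MAP
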