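import Pool.Agent.helper50.MA.Spec3

set_option autoImplicit false

open MeasureTheory Set Filter Topology Complex
open scoped ContDiff Real

namespace MAP

theorem Z3 (h2 : Z2_stmt) (h7 : K7_stmt) : Z3_stmt := by
  intro X _ _ _ _ _ _ _ K μ hμ hp φ hφ hpsh
  exact h2 X K μ hμ hp φ hφ (h7 X K.toKS φ hpsh)

theorem Z6 (h3 : Z3_stmt) (h4 : Z4_stmt) (h5 : Z5_stmt) : Z6_stmt := by
  intro X _ _ _ _ _ _ _ _ P μ hμ
  rintro ⟨φ, hφ, hD⟩
  haveI : SigmaCompactSpace X := inferInstance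
  haveI : SecondCountableTopology X := ChartedSpace.secondCountable_of_sigmaCompact DMAProblem.C2 X
  obtain ⟨K, hK⟩ := h4 X P
  obtain ⟨hPS, hMA, hPSH, hAr⟩ := h5 X P K hK
  obtain ⟨e, he, y, hy, hs⟩ := P.sec_zero
  refine h3 X K μ (hAr μ hμ) ⟨e.symm y, ?_⟩ φ hφ.1 (hPSH φ hφ) ?_
  · rw [hK.2.2.1]
    refine ⟨e, he, e.map_target hy, ?_⟩
    rw [e.right_inv hy]; exact hs
  · intro f hf hdec h hh
    exact hD f (fun j => K.toKS.Ms (f j) (f j)) (fun j => hPS _ (hf j)) (fun j => hMA _ (hf j)) hdec.1 hdec.2 h hh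

end MAP
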