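import Pool.Agent.helper50.MA.Z5a
import Pool.Agent.helper45.MA.S1

set_option autoImplicit false

open MeasureTheory Set Filter Topology Complex
open scoped ContDiff Real

namespace MAP

open DMAProblem (HolCharts tr jac AnticanonicalPair maDens)

section
variable {X : Type} [TopologicalSpace X] [ChartedSpace DMAProblem.C2 X]

theorem Z5_maDens (u : C2 → ℝ) (y : C2) : maDens u y = dens u u y := by
  unfold maDens dens hA hC hB hB'
  change (lap u y e1 * lap u y e2 - (D2 u y e1 e2 + D2 u y (I • e1) (I • e2)) ^ 2 -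
    (D2 u y e1 (I • e2) - D2 u y (I • e1) e2) ^ 2) / (2 * π ^ 2) = _
  ring

omit [ChartedSpace DMAProblem.C2 X] in
/-- `f` in the chart `e` near `y` -/
theorem Z5_lo (K : KSD X) (f : X → ℝ) {e : OpenPartialHomeomorph X C2} (i : Fin K.n) {y : C2} (hy : y ∈ e.target)
    (hi : e.symm y ∈ (K.e i).source) :
    (fun z => f (e.symm z)) =ᶠ[𝓝 y] fun z => K.toKS.lo i f (K.e i (e.symm z)) := by
  filter_upwards [(Z5_V_open e (K.e i)).mem_nhds ⟨hy, hi⟩] with z hz
  unfold KS.lo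
  rw [(K.e i).left_inv hz.2]

variable (P : AnticanonicalPair X) (K : KSD X) (hK : K.From P)
include hK

theorem Z5_smooth_at (f : X → ℝ) (hf : K.toKS.Smo f) {e : OpenPartialHomeomorph X C2} (he : e ∈ HolCharts X) {y : C2}
    (hy : y ∈ e.target) : ContDiffAt ℝ ∞ (fun z => f (e.symm z)) y := by
  obtain ⟨i, hi, -⟩ := K.cover (e.symm y)
  have h1 : ContDiffAt ℝ ∞ (K.toKS.lo i f) (K.e i (e.symm y)) :=
    (hf i).contDiffAt ((K.e i).open_target.mem_nhds ((K.e i).map_source hi))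
  have h2 : ContDiffAt ℝ ∞ (fun z => K.e i (e.symm z)) y :=
    ((Z5_tr he (hK.1 i)).contDiffAt ((Z5_V_open e (K.e i)).mem_nhds ⟨hy, hi⟩)).restrict_scalars ℝ
  exact (ContDiffAt.comp (g := K.toKS.lo i f) (f := fun z => K.e i (e.symm z)) y h1 h2).congr_of_eventuallyEq
    (Z5_lo K f i hy hi)

/-- the Levi forms of the potentials agree -/
theorem Z5_lap_pot (h6 : A6_stmt) (f : X → ℝ) (hf : K.toKS.Smo f) {e : OpenPartialHomeomorph X C2} (he : e ∈ HolCharts X)
    (i : Fin K.n) {y : C2} (hy : y ∈ e.target) (hi : e.symm y ∈ (K.e i).source) (ξ : C2) :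
    lap (fun z => K.toKS.pot i f (K.e i (e.symm z))) y ξ = lap (fun z => P.pot e z + f (e.symm z)) y ξ ∧
    lap (fun z => K.toKS.pot i f (K.e i (e.symm z))) y ξ =
      lap (K.toKS.pot i f) (K.e i (e.symm y)) (fderiv ℂ (fun z => K.e i (e.symm z)) y ξ) := by
  have hV := Z5_V_open e (K.e i)
  have htr := Z5_tr he (hK.1 i)
  have hyt : K.e i (e.symm y) ∈ (K.e i).target := (K.e i).map_source hi
  have hmap : MapsTo (fun z => K.e i (e.symm z)) {y | y ∈ e.target ∧ e.symm y ∈ (K.e i).source} (K.e i).target :=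
    fun z hz => (K.e i).map_source hz.2
  have hpot : ContDiffOn ℝ ∞ (K.toKS.pot i f) (K.e i).target := (K.ρ_smooth i).add (hf i)
  have hTat : ContDiffAt ℝ ∞ (fun z => K.e i (e.symm z)) y :=
    ((htr).contDiffAt (hV.mem_nhds ⟨hy, hi⟩)).restrict_scalars ℝ
  have c2 := h6.1 _ _ (fun z => K.e i (e.symm z)) (K.toKS.pot i f) (K.e i).open_target hV (htr.of_le S3_two) hmap
    (hpot.of_le S3_two) y ⟨hy, hi⟩ ξ
  refine ⟨?_, c2⟩
  -- the potential part
  have hρ : ContDiffOn ℝ 2 (K.ρ i) (K.e i).target := (K.ρ_smooth i).of_le S3_two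
  have hPp : ContDiffOn ℝ 2 (P.pot (K.e i)) (K.e i).target := fun z hz =>
    ((Z5_pot_at P (hK.1 i) hz).of_le S3_two).contDiffWithinAt
  have a1 := h6.1 _ _ (fun z => K.e i (e.symm z)) (K.ρ i) (K.e i).open_target hV (htr.of_le S3_two) hmap hρ y ⟨hy, hi⟩ ξ
  have a2 := h6.1 _ _ (fun z => K.e i (e.symm z)) (P.pot (K.e i)) (K.e i).open_target hV (htr.of_le S3_two) hmap hPp y
    ⟨hy, hi⟩ ξ
  have a3 := Z5_pot_lap P he (hK.1 i) hy hi ξ
  have a4 := hK.2.1 i _ hyt (fderiv ℂ (fun z => K.e i (e.symm z)) y ξ)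
  have hρat : ContDiffAt ℝ 2 (fun z => K.ρ i (K.e i (e.symm z))) y :=
    ContDiffAt.comp (g := K.ρ i) (f := fun z => K.e i (e.symm z)) y (hρ.contDiffAt ((K.e i).open_target.mem_nhds hyt))
      (hTat.of_le S3_two)
  have hfat : ContDiffAt ℝ 2 (fun z => f (e.symm z)) y := (Z5_smooth_at P K hK f hf he hy).of_le S3_two
  have b1 : lap (fun z => K.toKS.pot i f (K.e i (e.symm z))) y ξ =
      lap (fun z => K.ρ i (K.e i (e.symm z)) + f (e.symm z)) y ξ := by
    apply S3_lap_congr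
    filter_upwards [hV.mem_nhds ⟨hy, hi⟩] with z hz
    unfold KS.pot
    rw [(K.e i).left_inv hz.2]
  rw [b1, S3_lap_add hρat hfat, S3_lap_add ((Z5_pot_at P he hy).of_le S3_two) hfat, a1, a4, ← a2, a3]

theorem Z5_cov [MeasurableSpace X] [BorelSpace X] (h6 : A6_stmt) (hC1 : C1_stmt) (hC2 : C2_stmt) (f : X → ℝ)
    (hf : K.toKS.Smo f) {e : OpenPartialHomeomorph X C2} (he : e ∈ HolCharts X) (i : Fin K.n) (B : Set X)
    (hB : MeasurableSet B) (hBe : B ⊆ e.source) (hBi : B ⊆ (K.e i).source) :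
    ∫⁻ y in (K.e i) '' B, ENNReal.ofReal (dens (K.toKS.pot i f) (K.toKS.pot i f) y) =
      ∫⁻ y in e '' B, ENNReal.ofReal (maDens (fun z => P.pot e z + f (e.symm z)) y) := by
  have := S1_haar
  set F : C2 → C2 := fun y => K.e i (e.symm y) with hF
  have hVo := Z5_V_open e (K.e i)
  have hV : e '' B ⊆ {y | y ∈ e.target ∧ e.symm y ∈ (K.e i).source} := by
    rintro y ⟨x, hx, rfl⟩
    refine ⟨e.map_source (hBe hx), ?_⟩
    rw [e.left_inv (hBe hx)]
    exact hBi hx
  have him : (K.e i) '' B = F '' (e '' B) := by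
    rw [image_image]
    apply image_congr
    intro x hx
    simp only [hF]
    rw [e.left_inv (hBe hx)]
  have hinj : InjOn F (e '' B) := by
    rintro _ ⟨x, hx, rfl⟩ _ ⟨x', hx', rfl⟩ h
    simp only [hF] at h
    rw [e.left_inv (hBe hx), e.left_inv (hBe hx')] at h
    rw [(K.e i).injOn (hBi hx) (hBi hx') h]
  have htr := Z5_tr he (hK.1 i)
  have hmap : MapsTo F {y | y ∈ e.target ∧ e.symm y ∈ (K.e i).source} (K.e i).target :=
    fun z hz => (K.e i).map_source hz.2
  have hpot : ContDiffOn ℝ ∞ (K.toKS.pot i f) (K.e i).target := (K.ρ_smooth i).add (hf i)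
  rw [him, lintegral_image_eq_lintegral_abs_det_fderiv_mul volume (S1_img e B hB hBe)
    (f' := fun y => fderiv ℝ F y) ?_ hinj]
  · apply setLIntegral_congr_fun (S1_img e B hB hBe)
    intro y hy
    simp only
    have hy' := hV hy
    have c := hC1 (K.e i).target _ F (K.toKS.pot i f) (K.toKS.pot i f) (K.e i).open_target hVo
      (htr.of_le S3_two) hmap (hpot.of_le S3_two) (hpot.of_le S3_two) y hy'
    have hTat : ContDiffAt ℝ ∞ F y := (htr.contDiffAt (hVo.mem_nhds hy')).restrict_scalars ℝ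
    have u1 : ContDiffAt ℝ 2 (fun z => K.toKS.pot i f (F z)) y :=
      ContDiffAt.comp (g := K.toKS.pot i f) (f := F) y
        ((hpot.of_le S3_two).contDiffAt ((K.e i).open_target.mem_nhds (hmap hy'))) (hTat.of_le S3_two)
    have u2 : ContDiffAt ℝ 2 (fun z => P.pot e z + f (e.symm z)) y :=
      ((Z5_pot_at P he hy'.1).of_le S3_two).add ((Z5_smooth_at P K hK f hf he hy'.1).of_le S3_two)
    have hl : ∀ ξ, lap (fun z => K.toKS.pot i f (F z)) y ξ = lap (fun z => P.pot e z + f (e.symm z)) y ξ :=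
      fun ξ => (Z5_lap_pot P K hK h6 f hf he i hy'.1 hy'.2 ξ).1
    have c' : dens (fun z => K.toKS.pot i f (F z)) (fun z => K.toKS.pot i f (F z)) y =
        dens (fun z => P.pot e z + f (e.symm z)) (fun z => P.pot e z + f (e.symm z)) y := by
      rw [hC2.1 _ _ _ y u1 u2 hl, hC2.2.2.2.2.2.1, hC2.1 _ _ _ y u1 u2 hl]
    rw [← ENNReal.ofReal_mul (abs_nonneg _), ← c, c', Z5_maDens]
  · intro y hy
    have h1 := (htr.contDiffAt (hVo.mem_nhds (hV hy))).differentiableAt (by simp)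
    exact ((h1.restrictScalars ℝ).hasFDerivAt).hasFDerivWithinAt

omit hK [ChartedSpace DMAProblem.C2 X] in
theorem Z5_isM [MeasurableSpace X] [BorelSpace X] [CompactSpace X] [T2Space X] [SecondCountableTopology X]
    (hS1 : S1_stmt) (f g : X → ℝ) (hf : f ∈ K.toKS.PS) (hg : g ∈ K.toKS.PS) : K.toKS.IsM f g (K.toKS.Ms f g) := by
  classical
  have h := hS1 X K.toKS f hf g hg
  unfold KS.Ms
  rw [dif_pos h]
  exact Classical.choose_spec h

theorem Z5_MA [MeasurableSpace X] [BorelSpace X] [CompactSpace X] [T2Space X] [SecondCountableTopology X]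
    (hS1 : S1_stmt) (h6 : A6_stmt) (hC1 : C1_stmt) (hC2 : C2_stmt) (f : X → ℝ)
    (hf : f ∈ K.toKS.PS) : P.IsMA f (K.toKS.Ms f f) := by
  intro e he A hA hAe
  obtain ⟨-, hM⟩ := Z5_isM K hS1 f f hf hf
  have hdis : Pairwise (Function.onFun Disjoint fun i => A ∩ S1_P K.toKS i) := by
    intro i j hij
    exact (S1_P_disj K.toKS i j hij).mono inter_subset_right inter_subset_right
  have hcov : A = ⋃ i, A ∩ S1_P K.toKS i := by
    rw [← inter_iUnion]
    ext x
    refine ⟨fun hx => ⟨hx, ?_⟩, fun hx => hx.1⟩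
    obtain ⟨i, hi⟩ := S1_P_cover K.toKS x
    exact mem_iUnion.2 ⟨i, hi⟩
  have hm : ∀ i, MeasurableSet (A ∩ S1_P K.toKS i) := fun i => hA.inter (S1_P_meas K.toKS i)
  have hsub : ∀ i, A ∩ S1_P K.toKS i ⊆ (K.e i).source := fun i x hx => (S1_P_sub K.toKS i hx.2).1
  have hse : ∀ i, A ∩ S1_P K.toKS i ⊆ e.source := fun i x hx => hAe hx.1
  have himg : e '' A = ⋃ i, e '' (A ∩ S1_P K.toKS i) := by
    rw [← image_iUnion, ← hcov]
  have hdis2 : Pairwise (Function.onFun Disjoint fun i => e '' (A ∩ S1_P K.toKS i)) := by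
    intro i j hij
    rw [Function.onFun, Set.disjoint_left]
    rintro _ ⟨x, hx, rfl⟩ ⟨x', hx', h⟩
    have : x' = x := e.injOn (hse j hx') (hse i hx) h
    rw [this] at hx'
    exact Set.disjoint_left.1 (hdis hij) hx hx'
  have e1 : K.toKS.Ms f f A = ∑' i, K.toKS.Ms f f (A ∩ S1_P K.toKS i) := by
    conv_lhs => rw [hcov]
    exact measure_iUnion hdis hm
  rw [e1, himg, lintegral_iUnion (fun i => S1_img e _ (hm i) (hse i)) hdis2]
  congr 1
  funext i
  rw [hM i _ (hm i) (hsub i)]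
  exact Z5_cov P K hK h6 hC1 hC2 f hf.1 he i _ (hm i) (hse i) (hsub i)

theorem Z5_psh (h6 : A6_stmt) (f : X → ℝ) (hf : f ∈ K.toKS.PS) : P.SmoothPSH f := by
  intro e he
  refine ⟨fun y hy => (Z5_smooth_at P K hK f hf.1 he hy).contDiffWithinAt, fun y hy ξ => ?_⟩
  obtain ⟨i, hi, -⟩ := K.cover (e.symm y)
  obtain ⟨a, b⟩ := Z5_lap_pot P K hK h6 f hf.1 he i hy hi ξ
  change 0 ≤ lap (fun z => P.pot e z + f (e.symm z)) y ξ
  rw [← a, b]
  exact hf.2 i _ ((K.e i).map_source hi) _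

theorem Z5_area [MeasurableSpace X] [BorelSpace X] (hS : ∀ x, 0 ≤ K.S x) (μ : Measure X) (hμ : P.IsArea μ) :
    K.IsArea μ := by
  obtain ⟨hfin, hD, hloc⟩ := hμ
  refine ⟨hfin, ?_, ?_⟩
  · refine measure_mono_null (fun x hx => ?_) hD
    rw [mem_compl_iff, ← hK.2.2.1 x]
    exact hx.ne'
  · intro i hi A hA hAs
    rw [hloc (K.e i) (hK.1 i) (hK.2.2.2 i hi) A hA hAs]
    have hms : MeasurableSet {z : ℂ | ((z, 0) : C2) ∈ (K.e i).target ∧ (K.e i).symm (z, 0) ∈ A} := by
      have h1 : MeasurableSet ((K.e i) '' A) := S1_img _ _ hA hAs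
      have h2 : Measurable (fun z : ℂ => ((z, 0) : C2)) := by fun_prop
      have : {z : ℂ | ((z, 0) : C2) ∈ (K.e i).target ∧ (K.e i).symm (z, 0) ∈ A} = (fun z : ℂ => ((z, 0) : C2)) ⁻¹' ((K.e i) '' A) := by
        ext z
        constructor
        · rintro ⟨h1, h2⟩
          exact ⟨_, h2, (K.e i).right_inv h1⟩
        · rintro ⟨x, hx, h⟩
          change K.e i x = (z, 0) at h
          refine ⟨?_, ?_⟩
          · rw [← h]; exact (K.e i).map_source (hAs hx)
          · rw [← h, (K.e i).left_inv (hAs hx)]; exact hx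
      rw [this]
      exact h2 h1
    apply setLIntegral_congr_fun hms
    intro z hz
    simp only
    have := hK.2.1 i _ hz.1 e1
    have h2 : DMAProblem.lap (P.pot (K.e i)) (z, 0) DMAProblem.e1 = MAP.hA (K.ρ i) (z, 0) := this.symm
    rw [h2]

theorem Z5_PshE (h3 : A3_stmt) (φ : X → EReal) (hφ : P.PSH φ) (i : Fin K.n) :
    AnticanonicalPair.PshE (K.e i).target (fun y => φ ((K.e i).symm y) + ((K.ρ i y : ℝ) : EReal)) := by
  obtain ⟨husc, htop, hsub⟩ := hφ.2 (K.e i) (hK.1 i)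
  set H : C2 → ℝ := fun y => K.ρ i y + -(P.pot (K.e i) y) with hH
  have hsm : ∀ y ∈ (K.e i).target, ContDiffAt ℝ 2 (K.ρ i) y ∧ ContDiffAt ℝ 2 (fun z => P.pot (K.e i) z) y := fun y hy =>
    ⟨(S3_ρAt K.toKS i hy).of_le S3_two, (Z5_pot_at P (hK.1 i) hy).of_le S3_two⟩
  have hHs : ContDiffOn ℝ 2 H (K.e i).target := fun y hy => ((hsm y hy).1.add (hsm y hy).2.neg).contDiffWithinAt
  have hHl : ∀ y ∈ (K.e i).target, ∀ ξ, lap H y ξ = 0 := by
    intro y hy ξ
    rw [hH, S3_lap_add (hsm y hy).1 (hsm y hy).2.neg ξ, S3_lap_neg, hK.2.1 i y hy ξ]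
    ring
  have p1 : PshOn (K.e i).target H := by
    rw [h3.2 _ _ (K.e i).open_target hHs]
    intro y hy ξ; rw [hHl y hy ξ]
  have p2 : PshOn (K.e i).target (fun y => -(H y)) := by
    rw [h3.2 _ _ (K.e i).open_target hHs.neg]
    intro y hy ξ; rw [S3_lap_neg, hHl y hy ξ, neg_zero]
  have hmean : ∀ y ξ, disc y ξ ⊆ (K.e i).target → mean H y ξ = H y := by
    intro y ξ hd
    have a := p1.2 y ξ hd
    have b := p2.2 y ξ hd
    have c : mean (fun y => -(H y)) y ξ = - mean H y ξ := by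
      unfold mean
      rw [intervalIntegral.integral_neg]; ring
    rw [c] at b
    linarith
  have heq : ∀ y, φ ((K.e i).symm y) + ((K.ρ i y : ℝ) : EReal) =
      (φ ((K.e i).symm y) + ((P.pot (K.e i) y : ℝ) : EReal)) + ((H y : ℝ) : EReal) := by
    intro y
    rw [add_assoc, ← EReal.coe_add]
    congr 2
    simp only [hH]; ring
  have hHc : ContinuousOn H (K.e i).target := hHs.continuousOn
  refine ⟨?_, ?_, ?_⟩
  · have h1 : UpperSemicontinuousOn (fun y => (φ ((K.e i).symm y) + ((P.pot (K.e i) y : ℝ) : EReal)) + ((H y : ℝ) : EReal))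
        (K.e i).target := by
      apply UpperSemicontinuousOn.add' husc
      · exact (continuous_coe_real_ereal.comp_continuousOn hHc).upperSemicontinuousOn
      · intro y hy
        exact EReal.continuousAt_add (Or.inr (EReal.coe_ne_bot _)) (Or.inr (EReal.coe_ne_top _))
    intro y hy a ha
    have := h1 y hy a (by simpa only [← heq] using ha)
    simpa only [← heq] using this
  · intro y hy
    change φ ((K.e i).symm y) + ((K.ρ i y : ℝ) : EReal) < ⊤
    rw [heq]
    exact EReal.add_lt_top (htop y hy).ne (EReal.coe_ne_top _)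
  · intro y ξ hd h hc hle
    have hd' : disc y ξ ⊆ (K.e i).target := by
      rintro z ⟨ζ, hζ, rfl⟩
      exact hd ζ hζ
    have hcirc : Continuous (fun θ : ℝ => H (y + cexp (θ * I) • ξ)) := by
      apply hHc.comp_continuous (by fun_prop)
      intro θ
      exact hd _ (by rw [Complex.norm_exp_ofReal_mul_I])
    have key := hsub y ξ hd (fun θ => h θ - H (y + cexp (θ * I) • ξ)) (hc.sub hcirc) (by
      intro θ
      have h1 : φ ((K.e i).symm (y + cexp (θ * I) • ξ)) + ((K.ρ i (y + cexp (θ * I) • ξ) : ℝ) : EReal) ≤ (h θ : EReal) := hle θ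
      rw [heq] at h1
      rw [EReal.coe_sub]
      exact EReal.le_sub_iff_add_le (Or.inl (EReal.coe_ne_bot _)) (Or.inl (EReal.coe_ne_top _)) |>.2 h1)
    rw [intervalIntegral.integral_sub (hc.intervalIntegrable _ _) (hcirc.intervalIntegrable _ _), mul_sub] at key
    have hm := hmean y ξ hd'
    unfold mean at hm
    rw [hm, EReal.coe_sub] at key
    change φ ((K.e i).symm y) + ((K.ρ i y : ℝ) : EReal) ≤ _
    rw [heq]
    exact EReal.le_sub_iff_add_le (Or.inl (EReal.coe_ne_bot _)) (Or.inl (EReal.coe_ne_top _)) |>.1 key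

end

theorem Z5 (hS1 : S1_stmt) (h3 : A3_stmt) (h6 : A6_stmt) (hC1 : C1_stmt) (hC2 : C2_stmt) : Z5_stmt := by
  intro X _ _ _ _ _ _ _ _ P K hK
  have hS : ∀ x, 0 ≤ K.S x := by
    intro x
    obtain ⟨i, hi, -⟩ := K.cover x
    rcases K.S_loc i with h | h
    · have := h _ ((K.e i).map_source hi)
      rw [(K.e i).left_inv hi] at this
      rw [this]; positivity
    · have := h _ ((K.e i).map_source hi)
      rw [(K.e i).left_inv hi] at this
      rw [this]; positivity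
  exact ⟨fun f hf => Z5_psh P K hK h6 f hf, fun f hf => Z5_MA P K hK hS1 h6 hC1 hC2 f hf,
    fun φ hφ i => Z5_PshE P K hK h3 φ hφ i, fun μ hμ => Z5_area P K hK hS μ hμ⟩

end MAP
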