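import Pool.Agent.helper50.MA.Chain
import Pool.Agent.helper50.MA.Z3
import Pool.Agent.helper50.MA.Z5
import Pool.Agent.helper50.MA.K6
import Pool.Agent.helper43.MA.K0
import Pool.Agent.helper93.MA.K2
import Pool.Agent.helper43.MA.K3
import Pool.Agent.helper78.MA.K4
import Pool.Agent.helper45.MA.K5
import Pool.Agent.helper79.MA.K7
import Pool.Agent.helper3.MA.Z4

set_option autoImplicit false

namespace MAP

theorem cK0 : K0_stmt := K0
theorem cK6 : K6_stmt := K6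
theorem cZ4 : Z4_stmt := Z4
theorem cZ5 : Z5_stmt := Z5 cS1 cA3 cA6 cC1 cC2
theorem cK2 (h : K1_stmt) : K2_stmt := K2 h
theorem cK3 (h : K1_stmt) : K3_stmt := K3 h
theorem cK4 (h : K1_stmt) : K4_stmt := K4 (cK3 h)
theorem cK5 (h : K1_stmt) : K5_stmt := K5 cK0 (cK2 h) (cK4 h) cR2 cA1 cA3
theorem cK7 (h : K1_stmt) : K7_stmt := K7 (cK5 h) cK6 cA3
theorem cZ3 (h : K1_stmt) : Z3_stmt := Z3 cZ2 (cK7 h)
theorem cZ6 (h : K1_stmt) : Z6_stmt := Z6 (cZ3 h) cZ4 cZ5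

end MAP
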