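import Pool.Agent.helper50.MA.Problem

/-!
# PROJECT ma  (MP_0012ff_an).  Spec I: the explicit surface `Bl_1 ℂP²` and a pair `(ω, D)` on it; existence of area measures.

A point of `ℂP^{n-1}` is a rank one orthogonal projector of `ℂ^n` (the projector onto the line).
-/

set_option autoImplicit false

open MeasureTheory Set Filter Topology Complex Matrix
open scoped ContDiff Real Manifold

namespace DMAProblem

noncomputable section

/-- `P` is the orthogonal projector onto a line of `ℂ^n`, i.e. a point of `ℂP^{n-1}` -/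
def IsLine {n : ℕ} (P : Matrix (Fin n) (Fin n) ℂ) : Prop := P.conjTranspose = P ∧ P * P = P ∧ P.trace = 1

/-- The blow-up of `ℂP²` at `[0:0:1]`: pairs of a line `ℓ` of `ℂ³` and a line `m` of `ℂ²` such that the first two coordinates of
every vector of `ℓ` form a vector of `m`. -/
def Bl : Type :=
  {q : Matrix (Fin 3) (Fin 3) ℂ × Matrix (Fin 2) (Fin 2) ℂ //
    IsLine q.1 ∧ IsLine q.2 ∧ (1 - q.2) * q.1.submatrix (Fin.castSucc : Fin 2 → Fin 3) id = 0}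

instance : TopologicalSpace Bl := inferInstanceAs (TopologicalSpace (Subtype _))

/-- orthogonal projector onto the line spanned by `v` -/
def proj {n : ℕ} (v : Fin n → ℂ) : Matrix (Fin n) (Fin n) ℂ :=
  Matrix.of fun i j => v i * (starRingEnd ℂ) (v j) / ((∑ k, ‖v k‖ ^ 2 : ℝ) : ℂ)

/-- homogeneous coordinates of the line `ℓ` in the four standard charts -/
def parl (k : Fin 4) (y : C2) : Fin 3 → ℂ :=
  (![![y.1, y.1 * y.2, 1], ![y.1 * y.2, y.1, 1], ![1, y.1, y.2], ![y.1, 1, y.2]] : Fin 4 → Fin 3 → ℂ) k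
/-- homogeneous coordinates of the line `m` in the four standard charts -/
def parm (k : Fin 4) (y : C2) : Fin 2 → ℂ :=
  (![![1, y.2], ![y.2, 1], ![1, y.1], ![y.1, 1]] : Fin 4 → Fin 2 → ℂ) k
/-- the coordinate functions -/
def coord (k : Fin 4) (x : Bl) : C2 :=
  (![(x.1.1 0 2 / x.1.1 2 2, x.1.2 1 0 / x.1.2 0 0), (x.1.1 1 2 / x.1.1 2 2, x.1.2 0 1 / x.1.2 1 1),
     (x.1.1 1 0 / x.1.1 0 0, x.1.1 2 0 / x.1.1 0 0), (x.1.1 0 1 / x.1.1 1 1, x.1.1 2 1 / x.1.1 1 1)] : Fin 4 → C2) k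
/-- domains of the four standard charts -/
def dom (k : Fin 4) : Set Bl :=
  (![{x | x.1.1 2 2 ≠ 0 ∧ x.1.2 0 0 ≠ 0}, {x | x.1.1 2 2 ≠ 0 ∧ x.1.2 1 1 ≠ 0}, {x | x.1.1 0 0 ≠ 0}, {x | x.1.1 1 1 ≠ 0}] :
    Fin 4 → Set Bl) k

/-- I1. the parametrisations: they land in `Bl`, are inverse to `coord`, everything is continuous, the domains cover. -/
def I1_stmt : Prop :=
  (∀ (k : Fin 4) (y : C2), IsLine (proj (parl k y)) ∧ IsLine (proj (parm k y)) ∧
    (1 - proj (parm k y)) * (proj (parl k y)).submatrix (Fin.castSucc : Fin 2 → Fin 3) id = 0) ∧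
  (∀ (k : Fin 4) (y : C2) (x : Bl), x.1 = (proj (parl k y), proj (parm k y)) → x ∈ dom k ∧ coord k x = y) ∧
  (∀ (k : Fin 4) (x : Bl), x ∈ dom k → x.1 = (proj (parl k (coord k x)), proj (parm k (coord k x)))) ∧
  (∀ k : Fin 4, IsOpen (dom k) ∧ ContinuousOn (coord k) (dom k) ∧
    Continuous (fun y : C2 => (proj (parl k y), proj (parm k y)))) ∧
  (∀ x : Bl, ∃ k, x ∈ dom k)

/-- I2. topology of `Bl` (closed and bounded; union of four images of `ℂ²` that meet).  (uses I1 for connectedness) -/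
def I2_stmt : Prop := CompactSpace Bl ∧ T2Space Bl ∧ ConnectedSpace Bl

/-- the coordinate changes `k → l` of the four standard charts, where defined -/
def trf (k l : Fin 4) (y : C2) : C2 :=
  (![![(y.1, y.2), (y.1 * y.2, 1 / y.2), (y.2, 1 / y.1), (1 / y.2, 1 / (y.1 * y.2))],
     ![(y.1 * y.2, 1 / y.2), (y.1, y.2), (1 / y.2, 1 / (y.1 * y.2)), (y.2, 1 / y.1)],
     ![(1 / y.2, y.1), (y.1 / y.2, 1 / y.1), (y.1, y.2), (1 / y.1, y.2 / y.1)],
     ![(y.1 / y.2, 1 / y.1), (1 / y.2, y.1), (1 / y.1, y.2 / y.1), (y.1, y.2)]] : Fin 4 → Fin 4 → C2) k l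

/-- the set of `y` whose point lies in chart `l` -/
def trd (k l : Fin 4) : Set C2 :=
  (![![univ, {y | y.2 ≠ 0}, {y | y.1 ≠ 0}, {y | y.1 ≠ 0 ∧ y.2 ≠ 0}],
     ![{y | y.2 ≠ 0}, univ, {y | y.1 ≠ 0 ∧ y.2 ≠ 0}, {y | y.1 ≠ 0}],
     ![{y | y.2 ≠ 0}, {y | y.1 ≠ 0 ∧ y.2 ≠ 0}, univ, {y | y.1 ≠ 0}],
     ![{y | y.1 ≠ 0 ∧ y.2 ≠ 0}, {y | y.2 ≠ 0}, {y | y.1 ≠ 0}, univ]] : Fin 4 → Fin 4 → Set C2) k l

/-- I3. coordinate changes of the standard charts (`par k` = the point with parameters `y` in chart `k`). -/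
def I3_stmt : Prop :=
  (∀ (k l : Fin 4) (y : C2) (x : Bl), x.1 = (proj (parl k y), proj (parm k y)) →
    (x ∈ dom l ↔ y ∈ trd k l) ∧ (y ∈ trd k l → coord l x = trf k l y)) ∧
  (∀ k l : Fin 4, IsOpen (trd k l) ∧ ContDiffOn ℂ ∞ (trf k l) (trd k l))

/-- squared norms of the homogeneous coordinates -/
def nl (k : Fin 4) (y : C2) : ℝ := ∑ i, ‖parl k y i‖ ^ 2
def nm (k : Fin 4) (y : C2) : ℝ := ∑ i, ‖parm k y i‖ ^ 2
/-- volume density `|ℓ|^{-4} |m|^{-2}` and the section `s z² + s x² + t y²` of `-K = O(2,1)` -/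
def vol0 (k : Fin 4) (y : C2) : ℝ := ((nl k y) ^ 2 * nm k y)⁻¹
def sgn0 (k : Fin 4) : ℂ := (![1, -1, 1, -1] : Fin 4 → ℂ) k
def sec0 (k : Fin 4) (y : C2) : ℂ :=
  sgn0 k * (parm k y 0 * (parl k y 2) ^ 2 + parm k y 0 * (parl k y 0) ^ 2 + parm k y 1 * (parl k y 1) ^ 2)

/-- I5. cocycle, positivity and smoothness of the explicit data in the standard charts.
[jacobians: `0→1`: `-1/t`; `0→2`: `1/x²`; `0→3`: `-1/(x² t³)` etc.] -/
def I5_stmt : Prop :=
  (∀ k : Fin 4, ContDiff ℝ ∞ (vol0 k) ∧ (∀ y, 0 < vol0 k y) ∧ ContDiff ℂ ∞ (sec0 k) ∧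
    (∀ y, ∀ ξ : C2, ξ ≠ 0 → 0 < lap (fun z => -(1 / 2) * Real.log (vol0 k z)) y ξ) ∧
    (∀ y, sec0 k y = 0 → fderiv ℂ (sec0 k) y ≠ 0)) ∧
  (∀ k l : Fin 4, ∀ y ∈ trd k l, vol0 k y = ‖(fderiv ℂ (trf k l) y).det‖ ^ 2 * vol0 l (trf k l y) ∧
    sec0 l (trf k l y) = (fderiv ℂ (trf k l) y).det * sec0 k y) ∧
  (∃ y, sec0 2 y = 0)

/-- I4. extension of data from finitely many charts to all holomorphic charts. -/
def I4_stmt : Prop :=
  ∀ (X : Type) [TopologicalSpace X] [ChartedSpace C2 X] [IsManifold (modelWithCornersSelf ℂ C2) ∞ X]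
    (m : ℕ) (E : Fin m → OpenPartialHomeomorph X C2) (v : Fin m → C2 → ℝ) (s : Fin m → C2 → ℂ),
    (∀ k, E k ∈ HolCharts X) → (∀ x, ∃ k, x ∈ (E k).source) →
    (∀ k, ContDiffOn ℝ ∞ (v k) (E k).target) → (∀ k, ∀ y ∈ (E k).target, 0 < v k y) →
    (∀ k, ContDiffOn ℂ ∞ (s k) (E k).target) →
    (∀ k l, ∀ y ∈ (E k).target, (E k).symm y ∈ (E l).source →
      v k y = ‖jac (E k) (E l) y‖ ^ 2 * v l (tr (E k) (E l) y) ∧ s l (tr (E k) (E l) y) = jac (E k) (E l) y * s k y) →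
    (∀ k, ∀ y ∈ (E k).target, ∀ ξ : C2, ξ ≠ 0 → 0 < lap (fun z => -(1 / 2) * Real.log (v k z)) y ξ) →
    (∀ k, ∀ y ∈ (E k).target, s k y = 0 → fderiv ℂ (s k) y ≠ 0) →
    (∃ k, ∃ y ∈ (E k).target, s k y = 0) →
    ∃ P : AnticanonicalPair X, ∀ k, ∀ y ∈ (E k).target, P.vol (E k) y = v k y ∧ P.sec (E k) y = s k y

/-- I6. existence of the area measure of the curve.
[finitely many adapted charts by the implicit function theorem; Borel partition; two adapted charts give the same density on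
`{w = 0}` because the coordinate change preserves `{w = 0}` and the potentials differ by a function with `lap = 0`.] -/
def I6_stmt : Prop :=
  ∀ (X : Type) [TopologicalSpace X] [ChartedSpace C2 X] [IsManifold (modelWithCornersSelf ℂ C2) ∞ X]
    [CompactSpace X] [T2Space X] [MeasurableSpace X] [BorelSpace X] (P : AnticanonicalPair X),
    ∃ μ : Measure X, P.IsArea μ ∧ 0 < μ univ

end

end DMAProblem
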