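import Pool.Agent.helper50.MA.Spec3
import Pool.Agent.helper50.MA.S3

set_option autoImplicit false

open MeasureTheory Set Filter Topology Complex
open scoped ContDiff Real

namespace MAP

section
variable {X : Type} [TopologicalSpace X] [ChartedSpace DMAProblem.C2 X]

/-- coordinate changes between holomorphic charts are holomorphic -/
theorem Z5_tr {e e' : OpenPartialHomeomorph X DMAProblem.C2} (he : e ∈ DMAProblem.HolCharts X)
    (he' : e' ∈ DMAProblem.HolCharts X) :
    ContDiffOn ℂ ∞ (fun y => e' (e.symm y)) {y | y ∈ e.target ∧ e.symm y ∈ e'.source} := by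
  have h := IsManifold.compatible_of_mem_maximalAtlas he he'
  have h2 := (mem_groupoid_of_pregroupoid.1 h).1
  simp only [contDiffPregroupoid, Function.comp_def, modelWithCornersSelf_coe, modelWithCornersSelf_coe_symm, id_eq,
    OpenPartialHomeomorph.trans_source, OpenPartialHomeomorph.symm_source, range_id, inter_univ,
    OpenPartialHomeomorph.coe_trans] at h2
  exact h2

/-- the real part of a holomorphic function has `lap = 0` -/
theorem Z5_lap_re {g : C2 → ℂ} {y : C2} (hg : ContDiffAt ℂ 2 g y) (ξ : C2) : lap (fun z => (g z).re) y ξ = 0 := by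
  have ev : ∀ᶠ z in 𝓝 y, ContDiffAt ℂ 2 g z := hg.eventually (by decide)
  have k1 : fderiv ℝ (fun z => (g z).re) =ᶠ[𝓝 y] fun z => Complex.reCLM.comp ((fderiv ℂ g z).restrictScalars ℝ) := by
    filter_upwards [ev] with z hz
    have d := (hz.differentiableAt (by decide)).hasFDerivAt.restrictScalars ℝ
    exact (Complex.reCLM.hasFDerivAt.comp z d).fderiv
  have hd : DifferentiableAt ℂ (fderiv ℂ g) y := (hg.fderiv_right (m := 1) (by norm_num)).differentiableAt (by decide)
  have hd2 : HasFDerivAt (fun z => fderiv ℂ g z) ((fderiv ℂ (fderiv ℂ g) y).restrictScalars ℝ) y :=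
    hd.hasFDerivAt.restrictScalars ℝ
  have val : ∀ η : C2, D2 (fun z => (g z).re) y η η = (fderiv ℂ (fderiv ℂ g) y η η).re := by
    intro η
    unfold D2
    rw [k1.fderiv_eq]
    have hL : HasFDerivAt (fun z => Complex.reCLM.comp ((fderiv ℂ g z).restrictScalars ℝ))
        (((ContinuousLinearMap.compL ℝ C2 ℂ ℝ Complex.reCLM).comp
          (ContinuousLinearMap.restrictScalarsL ℂ C2 ℂ ℝ ℝ)).comp ((fderiv ℂ (fderiv ℂ g) y).restrictScalars ℝ)) y := by
      have := ((ContinuousLinearMap.compL ℝ C2 ℂ ℝ Complex.reCLM).comp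
          (ContinuousLinearMap.restrictScalarsL ℂ C2 ℂ ℝ ℝ)).hasFDerivAt (x := fderiv ℂ g y)
      exact this.comp y hd2
    rw [hL.fderiv]
    simp
  unfold lap
  rw [val, val]
  simp only [map_smul, smul_apply, smul_eq_mul]
  rw [← mul_assoc, Complex.I_mul_I]
  simp

/-- determinant of a linear map of `ℂ × ℂ` -/
theorem Z5_det (L : C2 →L[ℂ] C2) : L.det = (L (1, 0)).1 * (L (0, 1)).2 - (L (0, 1)).1 * (L (1, 0)).2 := by
  have h : L.det = LinearMap.det (L : C2 →ₗ[ℂ] C2) := rfl
  rw [h, ← LinearMap.det_toMatrix (Module.Basis.finTwoProd ℂ), Matrix.det_fin_two]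
  simp [LinearMap.toMatrix_apply]

/-- `log |holomorphic|` has `lap = 0` -/
theorem Z5_lap_log {J : C2 → ℂ} {y : C2} (hJ : ContDiffAt ℂ 2 J y) (h0 : J y ≠ 0) (ξ : C2) :
    lap (fun z => Real.log ‖J z‖) y ξ = 0 := by
  have hc : ContinuousAt (fun z => J z / J y) y := hJ.continuousAt.div_const _
  have hs : J y / J y ∈ slitPlane := by rw [div_self h0]; exact one_mem_slitPlane
  have ev : ∀ᶠ z in 𝓝 y, J z / J y ∈ slitPlane := hc.eventually (isOpen_slitPlane.mem_nhds hs)
  have hg : ContDiffAt ℂ 2 (fun z => Complex.log (J z / J y) + (Real.log ‖J y‖ : ℂ)) y :=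
    (ContDiffAt.comp (g := Complex.log) (f := fun z => J z / J y) y (Complex.contDiffAt_log hs) (hJ.div_const _)).add
      contDiffAt_const
  rw [← Z5_lap_re hg ξ]
  apply S3_lap_congr
  filter_upwards [ev] with z hz
  have hz0 : J z ≠ 0 := by
    intro h
    rw [h, zero_div] at hz
    exact zero_notMem_slitPlane hz
  rw [Complex.add_re, Complex.log_re, Complex.ofReal_re, norm_div, Real.log_div (norm_ne_zero_iff.2 hz0)
    (norm_ne_zero_iff.2 h0)]
  ring

omit [ChartedSpace DMAProblem.C2 X] in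
theorem Z5_V_open (e e' : OpenPartialHomeomorph X C2) : IsOpen {y | y ∈ e.target ∧ e.symm y ∈ e'.source} :=
  e.symm.isOpen_inter_preimage e'.open_source

open DMAProblem in
theorem Z5_jac_smooth {e e' : OpenPartialHomeomorph X DMAProblem.C2} (he : e ∈ HolCharts X) (he' : e' ∈ HolCharts X)
    {y : MAP.C2} (hy : y ∈ e.target) (hy' : e.symm y ∈ e'.source) : ContDiffAt ℂ 2 (jac e e') y := by
  have h1 : ContDiffAt ℂ ∞ (tr e e') y := (Z5_tr he he').contDiffAt ((Z5_V_open e e').mem_nhds ⟨hy, hy'⟩)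
  have h2 : ContDiffAt ℂ 2 (fderiv ℂ (tr e e')) y :=
    h1.fderiv_right (m := 2) (WithTop.coe_le_coe.2 le_top)
  have h3 : jac e e' = fun z => (fderiv ℂ (tr e e') z (1, 0)).1 * (fderiv ℂ (tr e e') z (0, 1)).2 -
      (fderiv ℂ (tr e e') z (0, 1)).1 * (fderiv ℂ (tr e e') z (1, 0)).2 := by
    funext z
    exact Z5_det _
  rw [h3]
  have a : ContDiffAt ℂ 2 (fun z => fderiv ℂ (tr e e') z (1, 0)) y := h2.clm_apply contDiffAt_const
  have b : ContDiffAt ℂ 2 (fun z => fderiv ℂ (tr e e') z (0, 1)) y := h2.clm_apply contDiffAt_const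
  exact (a.fst.mul b.snd).sub (b.fst.mul a.snd)

open DMAProblem in
theorem Z5_jac_ne (P : AnticanonicalPair X) {e e' : OpenPartialHomeomorph X DMAProblem.C2} (he : e ∈ HolCharts X)
    (he' : e' ∈ HolCharts X) {y : MAP.C2} (hy : y ∈ e.target) (hy' : e.symm y ∈ e'.source) : jac e e' y ≠ 0 := by
  intro h
  have h1 := P.vol_change e he e' he' y hy hy'
  rw [h, norm_zero] at h1
  have h2 := P.vol_pos e he y hy
  rw [h1] at h2
  simp at h2

open DMAProblem in
/-- potentials in two charts differ by `log |jac|` -/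
theorem Z5_pot_change (P : AnticanonicalPair X) {e e' : OpenPartialHomeomorph X DMAProblem.C2} (he : e ∈ HolCharts X)
    (he' : e' ∈ HolCharts X) {y : MAP.C2} (hy : y ∈ e.target) (hy' : e.symm y ∈ e'.source) :
    P.pot e' (tr e e' y) = P.pot e y + Real.log ‖jac e e' y‖ := by
  have h1 := P.vol_change e he e' he' y hy hy'
  have h2 : 0 < ‖jac e e' y‖ := norm_pos_iff.2 (Z5_jac_ne P he he' hy hy')
  have h3 : 0 < P.vol e' (tr e e' y) := P.vol_pos e' he' _ (e'.map_source hy')
  unfold AnticanonicalPair.pot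
  rw [h1, Real.log_mul (by positivity) h3.ne', Real.log_pow]
  push_cast
  ring

open DMAProblem in
theorem Z5_pot_at (P : AnticanonicalPair X) {e : OpenPartialHomeomorph X DMAProblem.C2} (he : e ∈ HolCharts X)
    {y : MAP.C2} (hy : y ∈ e.target) : ContDiffAt ℝ ∞ (P.pot e) y := by
  have h1 : ContDiffAt ℝ ∞ (P.vol e) y := (P.vol_smooth e he).contDiffAt (e.open_target.mem_nhds hy)
  exact contDiffAt_const.mul (h1.log (P.vol_pos e he y hy).ne')

open DMAProblem in
/-- the Ricci form does not depend on the chart -/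
theorem Z5_pot_lap (P : AnticanonicalPair X) {e e' : OpenPartialHomeomorph X DMAProblem.C2} (he : e ∈ HolCharts X)
    (he' : e' ∈ HolCharts X) {y : MAP.C2} (hy : y ∈ e.target) (hy' : e.symm y ∈ e'.source) (ξ : MAP.C2) :
    MAP.lap (fun z => P.pot e' (e' (e.symm z))) y ξ = MAP.lap (P.pot e) y ξ := by
  have ev : (fun z => P.pot e' (e' (e.symm z))) =ᶠ[𝓝 y] fun z => P.pot e z + Real.log ‖jac e e' z‖ := by
    filter_upwards [(Z5_V_open e e').mem_nhds ⟨hy, hy'⟩] with z hz
    exact Z5_pot_change P he he' hz.1 hz.2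
  have hJ := Z5_jac_smooth he he' hy hy'
  have hJ0 := Z5_jac_ne P he he' hy hy'
  have hl : ContDiffAt ℝ 2 (fun z => Real.log ‖jac e e' z‖) y :=
    (((hJ.restrict_scalars ℝ).norm ℝ hJ0)).log (norm_ne_zero_iff.2 hJ0)
  rw [S3_lap_congr ev, S3_lap_add ((Z5_pot_at P he hy).of_le S3_two) hl, Z5_lap_log hJ hJ0, add_zero]

end

end MAP
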